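import Pool.Agent.H689Z.UBV.Lat

set_option autoImplicit false

/-! Drawing the wall from a system of values. -/

namespace Pool.Agent.H689Z.UBV

theorem lex_iff {D I F J s : ℤ} (h1 : 0 ≤ F) (h2 : F < D) (h3 : 0 ≤ s) (h4 : s < D) :
    (D * I + F ≤ D * J + s ∧ D * J + s < D * I + F + D) ↔
      ((I = J ∧ F ≤ s) ∨ (I + 1 = J ∧ s < F)) := by
  constructor
  · rintro ⟨a, b⟩
    have c1 : I < J + 1 := by nlinarith
    have c2 : J < I + 2 := by nlinarith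
    obtain rfl | rfl : J = I ∨ J = I + 1 := by omega
    · exact Or.inl ⟨rfl, by linarith⟩
    · exact Or.inr ⟨rfl, by linarith⟩
  · rintro (⟨rfl, a⟩ | ⟨rfl, a⟩) <;> constructor <;> linarith

theorem rep_of_lex {V : Type} {P : V → Prop} {A : V → V → Prop} {D : ℤ} {I F Y : V → ℤ}
    (hD : 0 < D) (hF : ∀ v, P v → 0 ≤ F v ∧ F v < D) (hs : ∀ u v, A u v → A v u)
    (disj : ∀ u v, P u → P v → u ≠ v → Y u = Y v → I u + 2 ≤ I v ∨ I v + 2 ≤ I u)
    (e2v : ∀ u v, A u v → ∃ J s, 0 ≤ s ∧ s < D ∧ ((I u = J ∧ F u ≤ s) ∨ (I u + 1 = J ∧ s < F u)) ∧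
      ((I v = J ∧ F v ≤ s) ∨ (I v + 1 = J ∧ s < F v)) ∧ ∀ w, P w →
        ((I w = J ∧ F w ≤ s) ∨ (I w + 1 = J ∧ s < F w)) →
        ¬ (min (Y u) (Y v) < Y w ∧ Y w < max (Y u) (Y v)))
    (next : ∀ J s, 0 ≤ s → s < D → ∀ u v, P u → P v →
      ((I u = J ∧ F u ≤ s) ∨ (I u + 1 = J ∧ s < F u)) →
      ((I v = J ∧ F v ≤ s) ∨ (I v + 1 = J ∧ s < F v)) → Y u < Y v → ∃ w, A u w ∧ P w ∧
        ((I w = J ∧ F w ≤ s) ∨ (I w + 1 = J ∧ s < F w)) ∧ Y u < Y w ∧ ∀ z, P z →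
        ((I z = J ∧ F z ≤ s) ∨ (I z + 1 = J ∧ s < F z)) → Y u < Y z → Y z < Y w → False) :
    Rep P A D (fun v => D * I v + F v) Y := by
  refine ⟨hD, fun u v a b c d => ?_, fun u v a b c => ⟨fun h => ?_, ?_⟩⟩
  · have f1 := hF u a
    have f2 := hF v b
    rcases disj u v a b c d with h | h
    · left; nlinarith
    · right; nlinarith
  · obtain ⟨J, s, h1, h2, h3, h4, h5⟩ := e2v u v h
    exact ⟨D * J + s, (lex_iff (hF u a).1 (hF u a).2 h1 h2).2 h3,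
      (lex_iff (hF v b).1 (hF v b).2 h1 h2).2 h4,
      fun w k1 k2 k3 => h5 w k1 ((lex_iff (hF w k1).1 (hF w k1).2 h1 h2).1 ⟨k2, k3⟩)⟩
  · rintro ⟨T, h1, h2, h3⟩
    have e := Int.mul_ediv_add_emod T D
    have s1 := Int.emod_nonneg T hD.ne'
    have s2 := Int.emod_lt_of_pos T hD
    rw [← e] at h1 h2 h3
    have c1 := (lex_iff (hF u a).1 (hF u a).2 s1 s2).1 h1
    have c2 := (lex_iff (hF v b).1 (hF v b).2 s1 s2).1 h2
    have key : ∀ u v, P u → P v →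
        ((I u = T / D ∧ F u ≤ T % D) ∨ (I u + 1 = T / D ∧ T % D < F u)) →
        ((I v = T / D ∧ F v ≤ T % D) ∨ (I v + 1 = T / D ∧ T % D < F v)) → Y u < Y v →
        (∀ w, P w → ((I w = T / D ∧ F w ≤ T % D) ∨ (I w + 1 = T / D ∧ T % D < F w)) →
          ¬ (Y u < Y w ∧ Y w < Y v)) → A u v := by
      intro u v a b c1 c2 y h
      obtain ⟨w, k1, k2, k3, k4, k5⟩ := next _ _ s1 s2 u v a b c1 c2 y
      by_cases e : w = v
      · rwa [e] at k1
      · have f1 := h w k2 k3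
        have f2 : ¬ Y v < Y w := k5 v b c2 y
        have f3 := disj w v k2 b e (by omega)
        omega
    have h3' := fun w k1 k2 => h3 w k1 ((lex_iff (hF w k1).1 (hF w k1).2 s1 s2).2 k2).1
      ((lex_iff (hF w k1).1 (hF w k1).2 s1 s2).2 k2).2
    rcases lt_trichotomy (Y u) (Y v) with y | y | y
    · exact key u v a b c1 c2 y fun w k1 k2 => by have := h3' w k1 k2; omega
    · have := disj u v a b c y
      omega
    · exact hs _ _ (key v u b a c2 c1 y fun w k1 k2 => by have := h3' w k1 k2; omega)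

namespace Pat

variable (p : Pat) (D : ℤ) (F δ : ℕ → ℕ → ℤ)

/-- Systems of values. -/
structure Val : Prop where
  bnd : ∀ i k, i ≤ p.M → 1 ≤ F i k ∧ F i k < D
  d0 : ∀ i k, 0 ≤ δ i k ∧ δ i k ≤ 3
  d1 : ∀ i k, i < p.M → δ i k ≠ δ (i + 1) k
  d2 : ∀ i j, (i = 0 ∨ i = 2 ∨ i = p.M) → (j = i + 1 ∨ j + 1 = i) → j ≤ p.M → δ j p.K < δ i p.K
  v1 : ∀ i k, i < p.M → k ≤ p.K → ¬ p.cut i k → ¬ p.cut (i + 1) k → ¬ p.rung i k →
    F i k = F (i + 1) k
  v2 : ∀ i k, i < p.M → p.rung i k → F (i + 1) k < F i k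
  v3 : ∀ i k, i < p.M → p.rem i k → ¬ i % 11 = 10 →
    F i k = F i (k + 1) ∧ F (i + 1) k = F (i + 1) (k + 1)
  v4 : ∀ i k, i < p.M → i % 11 = 10 → 2 ≤ k → k + 3 ≤ p.K →
    (δ (i + 1) k < δ i k ∧ δ i (k + 1) < δ (i + 1) (k + 1) ∧ F i k = F i (k + 1)) ∨
    (δ i k < δ (i + 1) k ∧ δ (i + 1) (k + 1) < δ i (k + 1) ∧ F (i + 1) k = F (i + 1) (k + 1))
  v5 : ∀ k, k + 1 < p.K → F 0 (k + 1) ≤ F 0 k ∧ F p.M k ≤ F p.M (k + 1)

def fI (v : Vt) : ℤ := if v.2.2 = 0 ∨ v.2.1 = p.K then v.1 else v.1 + 1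

def fF (v : Vt) : ℤ := if v.2.2 = 0 ∨ v.2.1 = p.K then F v.1 v.2.1 else 0

def fY (v : Vt) : ℤ :=
  16 * v.2.1 + 4 * v.2.2 + if v.2.2 = 0 then δ v.1 v.2.1 else ((v.1 % 2 : ℕ) : ℤ)

def C (J s : ℤ) (v : Vt) : Prop :=
  (p.fI v = J ∧ p.fF F v ≤ s) ∨ (p.fI v + 1 = J ∧ s < p.fF F v)

variable {p D F δ}

theorem yS (i k : ℕ) : fY δ (i, k, 0) = 16 * k + δ i k := by simp [fY]

theorem yB (j k : ℕ) {g : ℕ} (h : 1 ≤ g) : fY δ (j, k, g) = 16 * k + 4 * g + (j % 2 : ℕ) := by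
  have : ¬ g = 0 := by omega
  simp only [fY, this, if_false]

theorem cS {J s : ℤ} {i k : ℕ} : p.C F J s (i, k, 0) ↔
    ((i : ℤ) = J ∧ F i k ≤ s) ∨ ((i : ℤ) + 1 = J ∧ s < F i k) := by simp [C, fI, fF]

theorem cL {J s : ℤ} {i : ℕ} : p.C F J s (i, p.K, 1) ↔
    ((i : ℤ) = J ∧ F i p.K ≤ s) ∨ ((i : ℤ) + 1 = J ∧ s < F i p.K) := by simp [C, fI, fF]

theorem cB {J s : ℤ} {j k g : ℕ} (h1 : 1 ≤ g) (h2 : k < p.K) (hs : 0 ≤ s) :
    p.C F J s (j, k, g) ↔ (j : ℤ) + 1 = J := by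
  have : ¬ (g = 0 ∨ k = p.K) := by omega
  simp only [C, fI, fF, this, if_false]
  omega

/-- The vertices of a column with height in a given range. -/
theorem Val.cls (h : p.Val D F δ) {J s : ℤ} (hs : 0 ≤ s) {z : Vt} (hz : p.Pv z)
    (c : p.C F J s z) :
    (∃ i k, z = (i, k, 0) ∧ (i ≤ p.M ∧ k ≤ p.K ∧ 0 ≤ δ i k ∧ δ i k ≤ 3 ∧ 1 ≤ F i k ∧ F i k < D ∧
      fY δ z = 16 * k + δ i k ∧
      (((i : ℤ) = J ∧ F i k ≤ s) ∨ ((i : ℤ) + 1 = J ∧ s < F i k))) ∧ ¬ p.cut i k) ∨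
    (∃ j k g, z = (j, k, g) ∧ (1 ≤ g ∧ g ≤ 3 ∧ j < p.M ∧ k < p.K ∧ (j : ℤ) + 1 = J ∧
      fY δ z = 16 * k + 4 * g + (j % 2 : ℕ)) ∧ ¬ p.rem j k) ∨
    ∃ i, z = (i, p.K, 1) ∧ (i = 0 ∨ i = 2 ∨ i = p.M) ∧ 1 ≤ F i p.K ∧ F i p.K < D ∧
      fY δ z = 16 * p.K + 4 + (i % 2 : ℕ) ∧
      (((i : ℤ) = J ∧ F i p.K ≤ s) ∨ ((i : ℤ) + 1 = J ∧ s < F i p.K)) := by
  have := p.hM
  rcases pv_cases hz with ⟨i, k, rfl, a1, a2, a3⟩ | ⟨j, k, g, rfl, a1, a2, a3, a4, a5⟩ |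
    ⟨i, rfl, a⟩
  · exact Or.inl ⟨i, k, rfl, ⟨a1, a2, (h.d0 i k).1, (h.d0 i k).2, (h.bnd i k a1).1,
      (h.bnd i k a1).2, yS i k, cS.1 c⟩, a3⟩
  · exact Or.inr (Or.inl ⟨j, k, g, rfl, ⟨a1, a2, a3, a4, (cB a1 a4 hs).1 c, yB j k a1⟩, a5⟩)
  · exact Or.inr (Or.inr ⟨i, rfl, a, (h.bnd i _ (by omega)).1, (h.bnd i _ (by omega)).2,
      by rw [yB _ _ le_rfl]; simp, cL.1 c⟩)

theorem Val.disj (h : p.Val D F δ) (u v : Vt) (a : p.Pv u) (b : p.Pv v) (c : u ≠ v)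
    (d : fY δ u = fY δ v) : p.fI u + 2 ≤ p.fI v ∨ p.fI v + 2 ≤ p.fI u := by
  have := p.hM
  rcases pv_cases a with ⟨i, k, rfl, a1, a2, a3⟩ | ⟨i, k, g, rfl, a1, a2, a3, a4, a5⟩ |
    ⟨i, rfl, a⟩ <;>
  rcases pv_cases b with ⟨j, l, rfl, b1, b2, b3⟩ | ⟨j, l, f, rfl, b1, b2, b3, b4, b5⟩ |
    ⟨j, rfl, b⟩
  · rw [yS, yS] at d
    have f1 := h.d0 i k
    have f2 := h.d0 j l
    obtain rfl : k = l := by omega
    have f3 : i ≠ j := fun e => c (by rw [e])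
    have f4 : j ≠ i + 1 := fun e => h.d1 i k (by omega) (by rw [← e]; omega)
    have f5 : i ≠ j + 1 := fun e => h.d1 j k (by omega) (by rw [← e]; omega)
    simp only [fI, true_or, if_true]
    omega
  · rw [yS, yB _ _ b1] at d
    have f1 := h.d0 i k
    omega
  · rw [yS, yB _ _ le_rfl] at d
    have f1 := h.d0 i k
    omega
  · rw [yS, yB _ _ a1] at d
    have f1 := h.d0 j l
    omega
  · rw [yB _ _ a1, yB _ _ b1] at d
    have e1 : ¬ (g = 0 ∨ k = p.K) := by omega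
    have e2 : ¬ (f = 0 ∨ l = p.K) := by omega
    simp only [ne_eq, Prod.mk.injEq] at c
    simp only [fI, e1, e2, if_false]
    omega
  · rw [yB _ _ a1, yB _ _ le_rfl] at d
    omega
  · rw [yS, yB _ _ le_rfl] at d
    have f1 := h.d0 j l
    omega
  · rw [yB _ _ b1, yB _ _ le_rfl] at d
    omega
  · have f3 : i ≠ j := fun e => c (by rw [e])
    simp only [fI, or_true, if_true]
    omega

theorem Val.e2v (h : p.Val D F δ) {u v : Vt} (ha : p.Adj u v) (e : p.E u v) : ∃ J s, 0 ≤ s ∧ s < D ∧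
    p.C F J s u ∧ p.C F J s v ∧ ∀ w, p.Pv w → p.C F J s w →
      ¬ (min (fY δ u) (fY δ v) < fY δ w ∧ fY δ w < max (fY δ u) (fY δ v)) := by
  have := p.hM
  have hD := h.bnd 0 0 (by omega)
  obtain ⟨i, k, g⟩ := u
  obtain ⟨j, l, f⟩ := v
  have hu := ha.1
  have hv := ha.2.1
  clear ha
  dsimp only [E] at e
  rcases e with ⟨rfl, rfl, rfl, e⟩ | ⟨e1, e2, rfl, rfl, rfl⟩ | ⟨rfl, rfl, rfl, e⟩ |
    ⟨rfl, rfl, rfl, rfl, e⟩ | ⟨rfl, rfl, rfl, rfl, e⟩ | ⟨rfl, rfl, rfl, rfl, e⟩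
  · obtain ⟨r1, r2, -⟩ := pS.1 hu
    have b1 := h.bnd i l r1
    have b2 := h.d0 i l
    obtain ⟨J, s, k1, k2⟩ : ∃ J s : ℤ, (j : ℤ) + 1 = J ∧
        ((j = i ∧ s = 0) ∨ (j + 1 = i ∧ l < p.K ∧ s = D - 1)) := by
      rcases e with e | e
      · exact ⟨_, 0, rfl, Or.inl ⟨e, rfl⟩⟩
      · exact ⟨_, _, rfl, Or.inr ⟨e.1, e.2, rfl⟩⟩
    refine ⟨J, s, by omega, by omega, cS.2 (by omega), ?_, fun w hw c => ?_⟩
    · by_cases hk : l < p.K
      · exact (cB le_rfl hk (by omega)).2 k1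
      · obtain rfl : l = p.K := by omega
        obtain rfl : j = i := by omega
        exact cL.2 (by omega)
    · rw [yS, yB _ _ le_rfl]
      rcases h.cls (by omega) hw c with ⟨a, b, rfl, q, -⟩ | ⟨a, b, g, rfl, q, -⟩ | ⟨a, rfl, q⟩
      · intro y
        obtain rfl : a = i := by omega
        obtain rfl : b = l := by omega
        omega
      · omega
      · omega
  · have hk : l < p.K := by
      dsimp only [Pv] at hv
      omega
    refine ⟨j + 1, 0, le_rfl, by omega, (cB e1 hk le_rfl).2 rfl, (cB (by omega) hk le_rfl).2 rfl,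
      fun w hw c => ?_⟩
    rw [yB _ _ e1, yB _ _ (by omega)]
    rcases h.cls le_rfl hw c with ⟨a, b, rfl, q, -⟩ | ⟨a, b, g, rfl, q, -⟩ | ⟨a, rfl, q⟩ <;> omega
  · obtain ⟨r1, r2, -⟩ := pS.1 hv
    have b1 := h.bnd j (k + 1) r1
    have b2 := h.d0 j (k + 1)
    obtain ⟨s, k2⟩ : ∃ s : ℤ, (j = i ∧ s = 0) ∨ (j = i + 1 ∧ s = D - 1) := by
      rcases e with e | e
      · exact ⟨0, Or.inl ⟨e, rfl⟩⟩
      · exact ⟨_, Or.inr ⟨e, rfl⟩⟩
    refine ⟨i + 1, s, by omega, by omega, (cB (by omega) r2 (by omega)).2 rfl, cS.2 (by omega),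
      fun w hw c => ?_⟩
    rw [yS, yB _ _ (by omega)]
    rcases h.cls (by omega) hw c with ⟨a, b, rfl, q, -⟩ | ⟨a, b, g, rfl, q, -⟩ | ⟨a, rfl, q⟩
    · intro y
      obtain rfl : a = j := by omega
      obtain rfl : b = k + 1 := by omega
      omega
    · omega
    · omega
  · obtain ⟨s, x, k1, k2⟩ : ∃ (s : ℤ) (x : ℕ), p.cut x (k + 1) ∧
        ((x = j ∧ s = 0) ∨ (x = j + 1 ∧ s = D - 1)) := by
      rcases e with e | e
      · exact ⟨0, _, e, Or.inl ⟨rfl, rfl⟩⟩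
      · exact ⟨_, _, e, Or.inr ⟨rfl, rfl⟩⟩
    have := cut_ax k1
    refine ⟨j + 1, s, by omega, by omega, (cB (by omega) (by omega) (by omega)).2 rfl,
      (cB le_rfl (by omega) (by omega)).2 rfl, fun w hw c => ?_⟩
    rw [yB _ _ (by omega), yB _ _ le_rfl]
    rcases h.cls (by omega) hw c with ⟨a, b, rfl, q, q'⟩ | ⟨a, b, g, rfl, q, -⟩ | ⟨a, rfl, q⟩
    · intro y
      obtain rfl : a = x := by omega
      obtain rfl : b = k + 1 := by omega
      exact q' k1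
    · omega
    · omega
  · obtain ⟨r1, r2, -⟩ := pS.1 hv
    have b1 := h.bnd j k r1
    have b2 := h.d0 j k
    have b3 := h.bnd j (k + 1) r1
    have b4 := h.d0 j (k + 1)
    obtain ⟨J, s, k1, k2⟩ : ∃ J s : ℤ, ((J = j + 1 ∧ s = 0) ∨ (J = j ∧ s = D - 1)) ∧
        ∀ a : ℕ, (a : ℤ) + 1 = J → a < p.M → p.rem a k := by
      rcases e with e | e | e | e
      · exact ⟨_, _, Or.inr ⟨rfl, rfl⟩, fun a _ _ => by omega⟩
      · exact ⟨_, _, Or.inl ⟨rfl, rfl⟩, fun a _ _ => by omega⟩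
      · exact ⟨_, _, Or.inl ⟨rfl, rfl⟩, fun a _ _ => by rwa [show a = j by omega]⟩
      · exact ⟨_, _, Or.inr ⟨rfl, rfl⟩, fun a _ _ => by rwa [show a = j - 1 by omega]⟩
    refine ⟨J, s, by omega, by omega, cS.2 (by omega), cS.2 (by omega), fun w hw c => ?_⟩
    rw [yS, yS]
    rcases h.cls (by omega) hw c with ⟨a, b, rfl, q, -⟩ | ⟨a, b, g, rfl, q, q'⟩ | ⟨a, rfl, q⟩
    · intro y
      obtain rfl : a = j := by omega
      obtain rfl | rfl : b = k ∨ b = k + 1 := by omega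
      all_goals omega
    · intro y
      obtain rfl : b = k := by omega
      exact q' (k2 a (by omega) (by omega))
    · omega
  · obtain ⟨r1, r2, -⟩ := pS.1 hv
    have b1 := h.bnd (i + 1) l r1
    have b2 := h.d0 i l
    have b3 := h.d0 (i + 1) l
    have b4 := h.v2 i l r1 e
    refine ⟨i + 1, F (i + 1) l, by omega, by omega, cS.2 (by omega), cS.2 (by omega),
      fun w hw c => ?_⟩
    rw [yS, yS]
    rcases h.cls (by omega) hw c with ⟨a, b, rfl, q, -⟩ | ⟨a, b, g, rfl, q, -⟩ | ⟨a, rfl, q⟩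
    · intro y
      obtain rfl : b = l := by omega
      obtain rfl | rfl : a = i ∨ a = i + 1 := by omega
      all_goals omega
    · omega
    · omega

variable (p F δ) in
/-- `w` is the next bar above `u` in the column. -/
def Nx (J s : ℤ) (u w : Vt) : Prop := p.Adj u w ∧ p.Pv w ∧ p.C F J s w ∧ fY δ u < fY δ w ∧
  ∀ z, p.Pv z → p.C F J s z → fY δ u < fY δ z → fY δ z < fY δ w → False

theorem Val.nextB (h : p.Val D F δ) {J s : ℤ} (s1 : 0 ≤ s) {j k g : ℕ}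
    (g1 : 1 ≤ g) (g2 : g ≤ 3) (hj : j < p.M) (hk : k < p.K) (r : ¬ p.rem j k)
    (c : (j : ℤ) + 1 = J) : ∃ w, p.Nx F δ J s (j, k, g) w := by
  by_cases g3 : g ≤ 2
  · have ha := aBB g1 g3 hk hj r
    refine ⟨_, ha, ha.2.1, (cB (by omega) hk s1).2 c, ?_, fun z hz cz => ?_⟩
    · rw [yB _ _ g1, yB _ _ (by omega)]; omega
    · rw [yB _ _ g1, yB _ _ (g := g + 1) (by omega)]
      rcases h.cls s1 hz cz with ⟨a, b, rfl, q, -⟩ | ⟨a, b, g, rfl, q, -⟩ | ⟨a, rfl, q⟩ <;> omega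
  obtain rfl : g = 3 := by omega
  have hu : p.Pv (j, k, 3) := mkB g1 g2 hk hj r
  have d1 := h.d0 j (k + 1)
  have d2 := h.d0 (j + 1) (k + 1)
  have d3 := h.d1 j (k + 1) hj
  by_cases ca : (¬ p.cut j (k + 1) ∧ s < F j (k + 1)) ∧
      (¬ (¬ p.cut (j + 1) (k + 1) ∧ F (j + 1) (k + 1) ≤ s) ∨ δ j (k + 1) < δ (j + 1) (k + 1))
  · obtain ⟨⟨a1, a2⟩, a3⟩ := ca
    have ha := aBS (i := j) (k := k) hu (mkS hj.le hk a1) (Or.inl rfl)
    refine ⟨_, ha, ha.2.1, cS.2 (by omega), ?_, fun z hz cz => ?_⟩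
    · rw [yB _ _ g1, yS]; omega
    · rw [yB _ _ g1, yS]
      rcases h.cls s1 hz cz with ⟨a, b, rfl, q, q'⟩ | ⟨a, b, g, rfl, q, -⟩ | ⟨a, rfl, q⟩
      · intro y1 y2
        obtain rfl : b = k + 1 := by omega
        obtain rfl | rfl : a = j ∨ a = j + 1 := by omega
        · omega
        · rcases a3 with a3 | a3
          · exact a3 ⟨q', by omega⟩
          · omega
      · omega
      · omega
  by_cases cb : ¬ p.cut (j + 1) (k + 1) ∧ F (j + 1) (k + 1) ≤ s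
  · obtain ⟨a1, a2⟩ := cb
    have ha := aBS (i := j + 1) hu (mkS hj hk a1) (Or.inr rfl)
    refine ⟨_, ha, ha.2.1, cS.2 (by omega), ?_, fun z hz cz => ?_⟩
    · rw [yB _ _ g1, yS]; omega
    · rw [yB _ _ g1, yS]
      rcases h.cls s1 hz cz with ⟨a, b, rfl, q, q'⟩ | ⟨a, b, g, rfl, q, -⟩ | ⟨a, rfl, q⟩
      · intro y1 y2
        obtain rfl : b = k + 1 := by omega
        obtain rfl | rfl : a = j ∨ a = j + 1 := by omega
        · exact ca ⟨⟨q', by omega⟩, Or.inr (by omega)⟩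
        · omega
      · omega
      · omega
  have ca' : ¬ (¬ p.cut j (k + 1) ∧ s < F j (k + 1)) := fun e => ca ⟨e, Or.inl cb⟩
  have hc : p.cut j (k + 1) ∨ p.cut (j + 1) (k + 1) := by
    by_contra hc
    push Not at hc
    have e1 : ¬ s < F j (k + 1) := fun e => ca' ⟨hc.1, e⟩
    have e2 : ¬ F (j + 1) (k + 1) ≤ s := fun e => cb ⟨hc.2, e⟩
    by_cases e : p.rung j (k + 1)
    · have := h.v2 j (k + 1) hj e
      omega
    · have := h.v1 j (k + 1) hj hk hc.1 hc.2 e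
      omega
  have ha := aCut hj hc
  have hk' : k + 1 < p.K := by rcases hc with e | e <;> have := cut_ax e <;> omega
  refine ⟨_, ha, ha.2.1, (cB le_rfl hk' s1).2 c, ?_, fun z hz cz => ?_⟩
  · rw [yB _ _ g1, yB _ _ le_rfl]; omega
  · rw [yB _ _ g1, yB _ _ le_rfl]
    rcases h.cls s1 hz cz with ⟨a, b, rfl, q, q'⟩ | ⟨a, b, g, rfl, q, -⟩ | ⟨a, rfl, q⟩
    · intro y1 y2
      obtain rfl : b = k + 1 := by omega
      obtain rfl | rfl : a = j ∨ a = j + 1 := by omega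
      · exact ca' ⟨q', by omega⟩
      · exact cb ⟨q', by omega⟩
    · omega
    · omega

theorem Val.nextS (h : p.Val D F δ) {J s : ℤ} (s1 : 0 ≤ s) {i k : ℕ} (hu : p.Pv (i, k, 0))
    (c : p.C F J s (i, k, 0)) {v : Vt} (hv : p.Pv v) (cv : p.C F J s v)
    (y : fY δ (i, k, 0) < fY δ v) : ∃ w, p.Nx F δ J s (i, k, 0) w := by
  have := p.hM
  have := p.hK
  obtain ⟨u1, u2, u3⟩ := pS.1 hu
  have c0 := cS.1 c
  have d1 := h.d0 i k
  by_cases hp : ∃ i', p.Pv (i', k, 0) ∧ p.C F J s (i', k, 0) ∧ δ i k < δ i' k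
  · obtain ⟨i', a1, a2, a3⟩ := hp
    obtain ⟨b1, -, b3⟩ := pS.1 a1
    have c1 := cS.1 a2
    have d2 := h.d0 i' k
    have ne : i' ≠ i := by rintro rfl; omega
    have ha : p.Adj (i, k, 0) (i', k, 0) := by
      obtain rfl | rfl : i' = i + 1 ∨ i = i' + 1 := by omega
      · refine aRung b1 ?_
        by_contra e
        have := h.v1 i k b1 u2 u3 b3 e
        omega
      · refine (aRung u1 ?_).symm
        by_contra e
        have := h.v1 i' k u1 u2 b3 u3 e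
        omega
    refine ⟨_, ha, a1, a2, by rw [yS, yS]; omega, fun z hz cz => ?_⟩
    rw [yS, yS]
    rcases h.cls s1 hz cz with ⟨a, b, rfl, q, q'⟩ | ⟨a, b, g, rfl, q, -⟩ | ⟨a, rfl, q⟩
    · intro y1 y2
      obtain rfl : b = k := by omega
      obtain rfl | rfl : a = i ∨ a = i' := by omega
      all_goals omega
    · omega
    · omega
  have np : ∀ i', i' ≤ p.M → ¬ p.cut i' k →
      (((i' : ℤ) = J ∧ F i' k ≤ s) ∨ ((i' : ℤ) + 1 = J ∧ s < F i' k)) → ¬ δ i k < δ i' k :=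
    fun i' a1 a2 a3 a4 => hp ⟨i', mkS a1 u2 a2, cS.2 a3, a4⟩
  rw [yS] at y
  by_cases hk : k = p.K
  · subst hk
    rcases h.cls s1 hv cv with ⟨a, b, rfl, q, q'⟩ | ⟨a, b, g, rfl, q, -⟩ | ⟨x, rfl, q⟩
    · obtain rfl : b = p.K := by omega
      exact absurd (by omega) (np a q.1 q' (by omega))
    · omega
    · obtain rfl : x = i := by
        by_contra e
        exact np x (by omega) (ncut (by omega)) (by omega) (h.d2 x i q.1 (by omega) u1)
      refine ⟨_, aLeaf q.1, hv, cv, by rw [yS]; omega, fun z hz cz => ?_⟩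
      rw [yS]
      rcases h.cls s1 hz cz with ⟨a, b, rfl, q, q'⟩ | ⟨a, b, g, rfl, q, -⟩ | ⟨a, rfl, q⟩
      · intro y1 y2
        obtain rfl : b = p.K := by omega
        exact np a q.1 q' (by omega) (by omega)
      · omega
      · omega
  have hk' : k < p.K := by omega
  by_cases hb : ∃ j : ℕ, (j : ℤ) + 1 = J ∧ j < p.M ∧ ¬ p.rem j k
  · obtain ⟨j, a1, a2, a3⟩ := hb
    have ha := aSB hu (mkB le_rfl (by omega) hk' a2 a3) hk' (by omega)
    refine ⟨_, ha, ha.2.1, (cB le_rfl hk' s1).2 a1, by rw [yS, yB _ _ le_rfl]; omega,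
      fun z hz cz => ?_⟩
    rw [yS, yB _ _ le_rfl]
    rcases h.cls s1 hz cz with ⟨a, b, rfl, q, q'⟩ | ⟨a, b, g, rfl, q, -⟩ | ⟨a, rfl, q⟩
    · intro y1 y2
      obtain rfl : b = k := by omega
      exact np a q.1 q' (by omega) (by omega)
    · omega
    · omega
  have nb : ∀ j : ℕ, (j : ℤ) + 1 = J → j < p.M → p.rem j k := fun j a1 a2 => by
    by_contra e
    exact hb ⟨j, a1, a2, e⟩
  have d2 := h.d0 i (k + 1)
  have main : (i = 0 ∨ i = p.M ∨ p.rem i k ∨ p.rem (i - 1) k) ∧ ¬ p.cut i (k + 1) ∧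
      (((i : ℤ) = J ∧ F i (k + 1) ≤ s) ∨ ((i : ℤ) + 1 = J ∧ s < F i (k + 1))) ∧
      ∀ i', i' ≤ p.M → ¬ p.cut i' (k + 1) → (((i' : ℤ) = J ∧ F i' (k + 1) ≤ s) ∨
        ((i' : ℤ) + 1 = J ∧ s < F i' (k + 1))) → ¬ δ i' (k + 1) < δ i (k + 1) := by
    by_cases hj : ∃ j : ℕ, (j : ℤ) + 1 = J ∧ j < p.M
    · obtain ⟨j, a1, a2⟩ := hj
      have r := nb j a1 a2
      have r' := rem_ax r
      have hij : i = j ∨ i = j + 1 := by omega
      have n1 := np j (by omega) (ncut (by omega))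
      have n2 := np (j + 1) (by omega) (ncut (by omega))
      refine ⟨?_, ncut (by omega), ?_⟩
      · rcases hij with rfl | rfl
        · exact Or.inr (Or.inr (Or.inl r))
        · exact Or.inr (Or.inr (Or.inr r))
      · have key : ((j % 11 = 10 ∧ F (j + 1) (k + 1) < F j (k + 1) ∧ F (j + 1) k < F j k ∧
            ((δ (j + 1) k < δ j k ∧ δ j (k + 1) < δ (j + 1) (k + 1) ∧ F j k = F j (k + 1)) ∨
            (δ j k < δ (j + 1) k ∧ δ (j + 1) (k + 1) < δ j (k + 1) ∧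
              F (j + 1) k = F (j + 1) (k + 1)))) ∨ (F j k = F j (k + 1) ∧
              F (j + 1) k = F (j + 1) (k + 1) ∧ F j (k + 1) = F (j + 1) (k + 1))) := by
          by_cases e : j % 11 = 10
          · exact Or.inl ⟨e, h.v2 j (k + 1) a2 (by unfold rung; omega),
              h.v2 j k a2 (by unfold rung; omega), h.v4 j k a2 e (by omega) (by omega)⟩
          · exact Or.inr ⟨(h.v3 j k a2 r e).1, (h.v3 j k a2 r e).2,
              h.v1 j (k + 1) a2 (by omega) (ncut (by omega)) (ncut (by omega))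
                (by unfold rung; omega)⟩
        rcases hij with rfl | rfl
        · refine ⟨by omega, fun i' b1 _ b3 => ?_⟩
          obtain rfl | rfl : i' = i ∨ i' = i + 1 := by omega
          all_goals omega
        · refine ⟨by omega, fun i' b1 _ b3 => ?_⟩
          obtain rfl | rfl : i' = j ∨ i' = j + 1 := by omega
          all_goals omega
    · have hi : (i = 0 ∧ J = 0) ∨ (i = p.M ∧ J = i + 1) := by
        by_contra e
        rcases c0 with c0 | c0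
        · exact hj ⟨i - 1, by omega, by omega⟩
        · exact hj ⟨i, by omega, by omega⟩
      refine ⟨by omega, ncut (by omega), ?_, fun i' b1 _ b3 => ?_⟩
      · by_cases e : k + 1 < p.K
        · have := h.v5 k e
          rcases hi with ⟨rfl, e1⟩ | ⟨rfl, e1⟩ <;> omega
        · have e' : k + 1 = p.K := by omega
          rw [e']
          rcases h.cls s1 hv cv with ⟨a, b, rfl, q, q'⟩ | ⟨a, b, g, rfl, q, -⟩ | ⟨a, rfl, q⟩
          · obtain rfl : a = i := by omega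
            have : b ≠ k := by rintro rfl; omega
            obtain rfl : b = p.K := by omega
            omega
          · omega
          · obtain rfl : a = i := by omega
            omega
      · obtain rfl : i' = i := by omega
        omega
  obtain ⟨m1, m2, m3, m4⟩ := main
  have ha := aRail (k := k) hu (mkS (k := k + 1) u1 hk' m2) m1
  refine ⟨_, ha, ha.2.1, cS.2 m3, by rw [yS, yS]; omega, fun z hz cz => ?_⟩
  rw [yS, yS]
  rcases h.cls s1 hz cz with ⟨a, b, rfl, q, q'⟩ | ⟨a, b, g, rfl, q, q'⟩ | ⟨a, rfl, q⟩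
  · intro y1 y2
    obtain rfl | rfl : b = k ∨ b = k + 1 := by omega
    · exact np a q.1 q' (by omega) (by omega)
    · exact m4 a q.1 q' (by omega) (by omega)
  · intro y1 y2
    obtain rfl : b = k := by omega
    exact q' (nb a (by omega) (by omega))
  · omega

theorem Val.rep (h : p.Val D F δ) :
    Rep p.Pv p.Adj D (fun v => D * p.fI v + p.fF F v) (fY δ) := by
  have := p.hM
  have hD := h.bnd 0 0 (by omega)
  refine rep_of_lex (by omega) (fun v hv => ?_) (fun _ _ => Adj.symm) h.disj (fun u v a => ?_)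
    fun J s s1 s2 u v hu hv cu cv y => ?_
  · unfold fF
    split_ifs with e
    · have := h.bnd v.1 v.2.1 (by dsimp only [Pv] at hv; omega)
      omega
    · omega
  · rcases a.2.2 with e | e
    · exact h.e2v a e
    · obtain ⟨J, s, h1, h2, h3, h4, h5⟩ := h.e2v a.symm e
      exact ⟨J, s, h1, h2, h4, h3, fun w k1 k2 => by have := h5 w k1 k2; omega⟩
  · rcases h.cls s1 hu cu with ⟨a, b, rfl, q, q'⟩ | ⟨a, b, g, rfl, q, q'⟩ | ⟨a, rfl, q⟩
    · exact h.nextS s1 hu cu hv cv y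
    · exact h.nextB s1 q.1 q.2.1 q.2.2.1 q.2.2.2.1 q' q.2.2.2.2.1
    · exfalso
      rcases h.cls s1 hv cv with ⟨a, b, rfl, q, q'⟩ | ⟨a, b, g, rfl, q, -⟩ | ⟨a, rfl, q⟩ <;> omega

end Pat

end Pool.Agent.H689Z.UBV
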