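import Pool.Agent.H689Z.UBV.Compl1

set_option autoImplicit false

/-! The values attached to a satisfying assignment. -/

namespace Pool.Agent.H689Z.UBV

namespace Pat

open Classical

variable (p : Pat) (s : ℕ → Prop) (cs : ℕ → ℕ)

def th : ℤ := p.M + p.n + 2

def Tv (t c : ℕ) : ℤ := if c ≤ cs t then p.th - c else p.th + p.n - c

noncomputable def W' (c t e : ℕ) : ℤ :=
  if (s c ↔ t % 2 = 0) then
    (if e = 6 then p.Tv cs t c else if 2 ≤ e then 2 * p.th - 1 else p.Tv cs (t - 1) c)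
  else (if 5 ≤ e then p.Tv cs t c else if 1 ≤ e then
    (if p.L c t then p.Tv cs t c else 2 * p.th - 1) else p.Tv cs (t - 1) c)

noncomputable def E' (c t e : ℕ) : ℤ :=
  if (s c ↔ t % 2 = 0) then
    (if 5 ≤ e then (if p.L c t then 1 else p.Tv cs t (c + 1)) else if 3 ≤ e then p.Tv cs t (c + 1)
      else p.Tv cs (t - 1) (c + 1))
  else (if 4 ≤ e then p.Tv cs t (c + 1) else 1)

noncomputable def W (c k : ℕ) : ℤ :=
  if c = p.n then p.th else p.W' s cs c ((k + 2 * c + 4) / 7) ((k + 2 * c + 4) % 7)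

noncomputable def Ev (c k : ℕ) : ℤ := p.E' s cs c ((k + 2 * c + 4) / 7) ((k + 2 * c + 4) % 7)

noncomputable def vF (i k : ℕ) : ℤ :=
  if k = 0 ∨ k = p.K then p.th + p.M - 2 * i else if k = 1 ∨ k + 1 = p.K then p.th
  else if i % 11 ≤ 4 then (if i < 11 then p.th else p.Ev s cs (i / 11 - 1) k)
  else p.W s cs (i / 11) k

noncomputable def vd (i k : ℕ) : ℤ :=
  if 2 ≤ k ∧ k + 2 ≤ p.K ∧ i % 11 = 10 ∧ i < p.M then
    (if (s (i / 11) ↔ k % 2 = 0) then 3 else 2)
  else if 2 ≤ k ∧ k + 2 ≤ p.K ∧ i % 11 = 0 ∧ 1 ≤ i then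
    (if (s (i / 11 - 1) ↔ k % 2 = 0) then 2 else 3)
  else (((i + 1) % 2 : ℕ) : ℤ)

variable {p s cs}

theorem Tv_bnd (t : ℕ) {c : ℕ} (h : c ≤ p.n) : 1 < p.Tv cs t c ∧ p.Tv cs t c < 2 * p.th - 1 := by
  unfold Tv th
  split_ifs <;> omega

theorem Tv_lt {t c : ℕ} (h : c ≠ cs t) : p.Tv cs t (c + 1) < p.Tv cs t c := by
  unfold Tv
  split_ifs <;> omega

theorem W'_bnd (t e : ℕ) {c : ℕ} (h : c ≤ p.n) :
    1 ≤ p.W' s cs c t e ∧ p.W' s cs c t e < 2 * p.th := by
  have h1 := Tv_bnd (cs := cs) t h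
  have h2 := Tv_bnd (cs := cs) (t - 1) h
  unfold W'
  split_ifs <;> omega

theorem E'_bnd (t e : ℕ) {c : ℕ} (h : c + 1 ≤ p.n) :
    1 ≤ p.E' s cs c t e ∧ p.E' s cs c t e < 2 * p.th := by
  have h1 := Tv_bnd (cs := cs) t h
  have h2 := Tv_bnd (cs := cs) (t - 1) h
  unfold E'
  split_ifs <;> omega

theorem E'_lt (hs : ∀ t, p.L (cs t) t ∧ (s (cs t) ↔ t % 2 = 0)) {c t e : ℕ} (h : c < p.n)
    (he : e < 7) (ht : 1 ≤ t ∨ e = 6) : p.E' s cs c t e < p.W' s cs c t e := by
  have h1 := Tv_bnd (cs := cs) t h.le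
  have h2 := Tv_bnd (cs := cs) (t - 1) h.le
  have h3 := Tv_bnd (cs := cs) (c := c + 1) t h
  have h4 := Tv_bnd (cs := cs) (c := c + 1) (t - 1) h
  have k1 : ¬ p.L c t → p.Tv cs t (c + 1) < p.Tv cs t c := fun a =>
    Tv_lt (by rintro rfl; exact a (hs t).1)
  have k2 : ¬ (s c ↔ t % 2 = 0) → p.Tv cs t (c + 1) < p.Tv cs t c := fun a =>
    Tv_lt (by rintro rfl; exact a (hs t).2)
  have k3 : 1 ≤ t → (s c ↔ t % 2 = 0) → p.Tv cs (t - 1) (c + 1) < p.Tv cs (t - 1) c := fun a b =>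
    Tv_lt (by
      rintro rfl
      have := (hs (t - 1)).2
      rw [this] at b
      omega)
  unfold E' W'
  by_cases a : (s c ↔ t % 2 = 0)
  · simp only [if_pos a]
    have := fun x => k3 x a
    by_cases b : p.L c t
    · simp only [if_pos b]
      split_ifs <;> omega
    · have := k1 b
      simp only [if_neg b]
      split_ifs <;> omega
  · have := k2 a
    simp only [if_neg a]
    split_ifs <;> omega

theorem step' {c t e : ℕ} (he : e < 6) :
    (((s c ↔ (t + e) % 2 = 0) ∨ ¬ (e = 0 ∨ e = 1 ∨ e = 5 ∨ (e = 4 ∧ ¬ p.L c t))) →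
      p.W' s cs c t e = p.W' s cs c t (e + 1)) ∧
    ((¬ (s c ↔ (t + e) % 2 = 0) ∨ (e = 0 ∨ e = 1 ∨ e = 5 ∨ (e = 4 ∧ ¬ p.L c t))) →
      p.E' s cs c t e = p.E' s cs c t (e + 1)) := by
  unfold W' E'
  by_cases a : s c <;> by_cases b : p.L c t <;> rcases Nat.mod_two_eq_zero_or_one t with d | d <;>
    interval_cases e <;> simp [a, b, d, Nat.add_mod]

theorem step6 {c t : ℕ} : p.W' s cs c t 6 = p.W' s cs c (t + 1) 0 ∧
    (¬ (s c ↔ t % 2 = 0) → p.E' s cs c t 6 = p.E' s cs c (t + 1) 0) ∧ 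
    p.W' s cs c t 6 = p.Tv cs t c ∧ p.E' s cs c t 4 = p.Tv cs t (c + 1) := by
  unfold W' E'
  by_cases a : s c <;> rcases Nat.mod_two_eq_zero_or_one t with d | d <;>
    simp [a, d, Nat.add_mod]

theorem stepW {c k : ℕ} (h : (s c ↔ k % 2 = 0) ∨ ¬ p.Ef c k) :
    p.W s cs c k = p.W s cs c (k + 1) := by
  unfold W
  split_ifs
  · rfl
  · by_cases e : (k + 2 * c + 4) % 7 = 6
    · rw [e, show (k + 1 + 2 * c + 4) / 7 = (k + 2 * c + 4) / 7 + 1 by omega,
        show (k + 1 + 2 * c + 4) % 7 = 0 by omega]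
      exact step6.1
    · rw [show (k + 1 + 2 * c + 4) / 7 = (k + 2 * c + 4) / 7 by omega,
        show (k + 1 + 2 * c + 4) % 7 = (k + 2 * c + 4) % 7 + 1 by omega]
      refine (step' (by omega)).1 ?_
      rwa [show ((k + 2 * c + 4) / 7 + (k + 2 * c + 4) % 7) % 2 = k % 2 by omega]

theorem stepE {c k : ℕ} (h : ¬ (s c ↔ k % 2 = 0) ∨ p.Ef c k) :
    p.Ev s cs c k = p.Ev s cs c (k + 1) := by
  unfold Ev
  by_cases e : (k + 2 * c + 4) % 7 = 6
  · rw [e, show (k + 1 + 2 * c + 4) / 7 = (k + 2 * c + 4) / 7 + 1 by omega,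
      show (k + 1 + 2 * c + 4) % 7 = 0 by omega]
    refine step6.2.1 ?_
    rcases h with h | h
    · rwa [show (k + 2 * c + 4) / 7 % 2 = k % 2 by omega]
    · unfold Ef at h
      omega
  · rw [show (k + 1 + 2 * c + 4) / 7 = (k + 2 * c + 4) / 7 by omega,
      show (k + 1 + 2 * c + 4) % 7 = (k + 2 * c + 4) % 7 + 1 by omega]
    refine (step' (by omega)).2 ?_
    rwa [show ((k + 2 * c + 4) / 7 + (k + 2 * c + 4) % 7) % 2 = k % 2 by omega]

theorem vF0 {i k : ℕ} (h : k = 0 ∨ k = p.K) : p.vF s cs i k = p.th + p.M - 2 * i := if_pos h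

theorem vF1 {i k : ℕ} (h : k = 1 ∨ k + 1 = p.K) : p.vF s cs i k = p.th := by
  have := p.hK
  unfold vF
  rw [if_neg (by omega), if_pos h]

theorem vFL {i k : ℕ} (h1 : 1 ≤ k) (h2 : k < p.K) (h3 : i ≤ 4) : p.vF s cs i k = p.th := by
  unfold vF
  split_ifs <;> first | rfl | omega

theorem vFE {i k c : ℕ} (h1 : 2 ≤ k) (h2 : k + 2 ≤ p.K) (h3 : 11 * c + 11 ≤ i)
    (h4 : i ≤ 11 * c + 15) : p.vF s cs i k = p.Ev s cs c k := by
  unfold vF
  rw [if_neg (by omega), if_neg (by omega), if_pos (by omega), if_neg (by omega),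
    show i / 11 - 1 = c by omega]

theorem vFW {i k c : ℕ} (h1 : 2 ≤ k) (h2 : k + 2 ≤ p.K) (h3 : 11 * c + 5 ≤ i)
    (h4 : i ≤ 11 * c + 10) : p.vF s cs i k = p.W s cs c k := by
  unfold vF
  rw [if_neg (by omega), if_neg (by omega), if_neg (by omega), show i / 11 = c by omega]

theorem vFR {i k : ℕ} (h1 : 1 ≤ k) (h2 : k < p.K) (h3 : p.M ≤ i + 5) (h4 : i ≤ p.M) :
    p.vF s cs i k = p.th := by
  have := p.hM
  by_cases e : k = 1 ∨ k + 1 = p.K
  · exact vF1 e
  · rw [vFW (c := p.n) (by omega) (by omega) (by omega) (by omega)]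
    exact if_pos rfl

theorem val_of (hn : p.n % 2 = 0)
    (hs : ∀ t, cs t < p.n ∧ p.L (cs t) t ∧ (s (cs t) ↔ t % 2 = 0)) :
    p.Val (2 * p.th) (p.vF s cs) (p.vd s) := by
  have := p.hM
  have := p.hK
  have hth : p.th = p.M + p.n + 2 := rfl
  refine ⟨fun i k hi => ?_, fun i k => ?_, fun i k hi => ?_, fun i j hi hj hj' => ?_,
    fun i k hi hk c1 c2 r => ?_, fun i k hi r => ?_, fun i k hi r e => ?_,
    fun i k hi e k1 k2 => ?_, fun k hk => ?_⟩
  · unfold vF W Ev
    split_ifs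
    any_goals omega
    · exact E'_bnd _ _ (by omega)
    · exact W'_bnd _ _ (by omega)
  · unfold vd
    split_ifs <;> omega
  · unfold vd
    by_cases e : 2 ≤ k ∧ k + 2 ≤ p.K ∧ i % 11 = 10 ∧ i < p.M
    · rw [if_pos e, if_neg (show ¬ (2 ≤ k ∧ k + 2 ≤ p.K ∧ (i + 1) % 11 = 10 ∧ i + 1 < p.M) by
        omega), if_pos (show 2 ≤ k ∧ k + 2 ≤ p.K ∧ (i + 1) % 11 = 0 ∧ 1 ≤ i + 1 by omega),
        show (i + 1) / 11 - 1 = i / 11 by omega]
      split_ifs <;> omega
    · split_ifs <;> omega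
  · unfold vd
    split_ifs <;> omega
  · unfold rung at r
    by_cases e : k = 1 ∨ k + 1 = p.K
    · rw [vF1 e, vF1 e]
    obtain ⟨c, hc⟩ : ∃ c, c = i / 11 := ⟨_, rfl⟩
    by_cases e1 : 5 ≤ i % 11
    · rw [vFW (c := c) (by omega) (by omega) (by omega) (by omega),
        vFW (c := c) (by omega) (by omega) (by omega) (by omega)]
    by_cases e2 : i % 11 = 4
    · have tr : (k + 2 * c + 4) % 7 = 6 := by
        unfold cut at c2
        omega
      rw [vFW (i := i + 1) (c := c) (by omega) (by omega) (by omega) (by omega)]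
      have w : p.W s cs c k = p.Tv cs ((k + 2 * c + 4) / 7) c := by
        unfold W
        split_ifs with e3
        · unfold Tv
          rw [if_neg (by have := (hs ((k + 2 * c + 4) / 7)).1; omega), e3]
          ring
        · rw [tr]; exact step6.2.2.1
      rw [w]
      rcases c with _ | c
      · rw [vFL (by omega) (by omega) (by omega)]
        simp [Tv]
      · rw [vFE (c := c) (by omega) (by omega) (by omega) (by omega)]
        unfold Ev
        rw [show (k + 2 * c + 4) % 7 = 4 by omega,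
          show (k + 2 * c + 4) / 7 = (k + 2 * (c + 1) + 4) / 7 by omega]
        exact step6.2.2.2
    rcases c with _ | c
    · rw [vFL (by omega) (by omega) (by omega), vFL (by omega) (by omega) (by omega)]
    · rw [vFE (c := c) (by omega) (by omega) (by omega) (by omega),
        vFE (c := c) (by omega) (by omega) (by omega) (by omega)]
  · by_cases e : k = 0 ∨ k = p.K
    · rw [vF0 e, vF0 e]
      push_cast
      omega
    · unfold rung at r
      rw [vFE (c := i / 11) (by omega) (by omega) (by omega) (by omega),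
        vFW (c := i / 11) (by omega) (by omega) (by omega) (by omega)]
      unfold W Ev
      rw [if_neg (by omega)]
      exact E'_lt (fun t => (hs t).2) (by omega) (by omega) (by omega)
  · obtain ⟨k1, k2, r⟩ := r
    by_cases e1 : i = 2
    · rw [vFL (by omega) (by omega) (by omega), vFL (by omega) (by omega) (by omega),
        vFL (by omega) (by omega) (by omega), vFL (by omega) (by omega) (by omega)]
      exact ⟨rfl, rfl⟩
    by_cases e2 : i + 3 = p.M
    · rw [vFR (by omega) (by omega) (by omega) (by omega),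
        vFR (by omega) (by omega) (by omega) (by omega),
        vFR (by omega) (by omega) (by omega) (by omega),
        vFR (by omega) (by omega) (by omega) (by omega)]
      exact ⟨rfl, rfl⟩
    rcases r with r | r | ⟨k3, r | ⟨r1, r2⟩ | ⟨r1, r2⟩⟩
    · omega
    · omega
    · omega
    · rw [vFE (c := i / 11 - 1) (by omega) (by omega) (by omega) (by omega),
        vFE (c := i / 11 - 1) (by omega) (by omega) (by omega) (by omega),
        vFE (c := i / 11 - 1) (by omega) (by omega) (by omega) (by omega),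
        vFE (c := i / 11 - 1) (by omega) (by omega) (by omega) (by omega)]
      exact ⟨stepE (Or.inr r2), stepE (Or.inr r2)⟩
    · rw [vFW (c := i / 11) (by omega) (by omega) (by omega) (by omega),
        vFW (c := i / 11) (by omega) (by omega) (by omega) (by omega),
        vFW (c := i / 11) (by omega) (by omega) (by omega) (by omega),
        vFW (c := i / 11) (by omega) (by omega) (by omega) (by omega)]
      exact ⟨stepW (Or.inr r2), stepW (Or.inr r2)⟩
  · have d1 : ∀ k, 2 ≤ k → k + 2 ≤ p.K →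
        p.vd s i k = (if (s (i / 11) ↔ k % 2 = 0) then 3 else 2) ∧
        p.vd s (i + 1) k = (if (s (i / 11) ↔ k % 2 = 0) then 2 else 3) := by
      intro k a b
      unfold vd
      rw [if_pos (by omega), if_neg (show ¬ (2 ≤ k ∧ k + 2 ≤ p.K ∧ (i + 1) % 11 = 10 ∧
        i + 1 < p.M) by omega),
        if_pos (show 2 ≤ k ∧ k + 2 ≤ p.K ∧ (i + 1) % 11 = 0 ∧ 1 ≤ i + 1 by omega),
        show (i + 1) / 11 - 1 = i / 11 by omega]
      exact ⟨rfl, rfl⟩
    rw [(d1 k k1 (by omega)).1, (d1 k k1 (by omega)).2, (d1 (k + 1) (by omega) (by omega)).1,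
      (d1 (k + 1) (by omega) (by omega)).2,
      vFW (c := i / 11) (by omega) (by omega) (by omega) (by omega),
      vFW (c := i / 11) (by omega) (by omega) (by omega) (by omega),
      vFE (c := i / 11) (by omega) (by omega) (by omega) (by omega),
      vFE (c := i / 11) (by omega) (by omega) (by omega) (by omega)]
    have par : (k + 1) % 2 = 0 ↔ ¬ k % 2 = 0 := by omega
    by_cases a : (s (i / 11) ↔ k % 2 = 0)
    · have b : ¬ (s (i / 11) ↔ (k + 1) % 2 = 0) := by rw [par, a]; exact iff_not_self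
      rw [if_pos a, if_pos a, if_neg b, if_neg b]
      exact Or.inl ⟨by omega, by omega, stepW (Or.inl a)⟩
    · have b : (s (i / 11) ↔ (k + 1) % 2 = 0) := by rw [par]; tauto
      rw [if_neg a, if_neg a, if_pos b, if_pos b]
      exact Or.inr ⟨by omega, by omega, stepE (Or.inl a)⟩
  · rw [vFL (by omega) hk (by omega), vFR (i := p.M) (k := k + 1) (by omega) hk (by omega) le_rfl]
    rcases k with _ | k
    · rw [vF0 (Or.inl rfl), vF0 (Or.inl rfl)]
      omega
    · rw [vFL (by omega) (by omega) (by omega), vFR (by omega) (by omega) (by omega) le_rfl]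
      exact ⟨le_rfl, le_rfl⟩

theorem complete (hn : p.n % 2 = 0) (hs : ∀ t, ∃ c, c < p.n ∧ p.L c t ∧ (s c ↔ t % 2 = 0)) :
    ∃ D X Y, Rep p.Pv p.Adj D X Y := by
  choose cs hcs using hs
  exact ⟨_, _, _, (val_of hn hcs).rep⟩

end Pat

end Pool.Agent.H689Z.UBV
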