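import Pool.Agent.H671R2.ZDefs

set_option autoImplicit false

/-! Unit bar visibility graphs (problem MP_ec9af3_lc). -/

namespace Pool.Agent.H689Z.UBV

open Pool.Agent.NPC.R671

/-- The closed horizontal bar of length one with left end `(x, y)`. -/
def bar (x y : ℝ) : Set (ℝ × ℝ) := Set.Icc x (x + 1) ×ˢ {y}

/-- The bars with left ends `(x v, y v)` form a unit bar visibility representation of `G`: they
are pairwise disjoint, and two distinct vertices are adjacent exactly when their bars see each
other along a vertical band of positive width that no third bar meets. -/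
def IsUBVRep {V : Type} (G : SimpleGraph V) (x y : V → ℝ) : Prop :=
  (∀ u v, u ≠ v → Disjoint (bar (x u) (y u)) (bar (x v) (y v))) ∧
  ∀ u v, u ≠ v → (G.Adj u v ↔ ∃ a b : ℝ, a < b ∧
    Set.Icc a b ⊆ Set.Icc (x u) (x u + 1) ∩ Set.Icc (x v) (x v + 1) ∧
    ∀ w, w ≠ u → w ≠ v → Disjoint (bar (x w) (y w))
      (Set.Ioo a b ×ˢ Set.Ioo (min (y u) (y v)) (max (y u) (y v))))

/-- `G` is a unit bar visibility graph. -/
def IsUBVGraph {V : Type} (G : SimpleGraph V) : Prop := ∃ x y : V → ℝ, IsUBVRep G x y

/-- The recognition problem: the input is the adjacency matrix of a unit bar visibility graph. -/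
def UBVG (M : List (List Bool)) : Prop :=
  ∃ (n : ℕ) (G : SimpleGraph (Fin n)), adjMatrix G = M ∧ IsUBVGraph G

end Pool.Agent.H689Z.UBV
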