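import Pool.Agent.H689Z.UBV.Defs

set_option autoImplicit false

/-! The discrete model of unit bar visibility representations. -/

namespace Pool.Agent.H689Z.UBV

/-- Discrete representations: bars of length `D` with integer coordinates, columns are integers. -/
structure Rep {V : Type} (P : V → Prop) (A : V → V → Prop) (D : ℤ) (X Y : V → ℤ) : Prop where
  pos : 0 < D
  disj : ∀ u v, P u → P v → u ≠ v → Y u = Y v → X u + D < X v ∨ X v + D < X u
  adj : ∀ u v, P u → P v → u ≠ v → (A u v ↔ ∃ T, (X u ≤ T ∧ T < X u + D) ∧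
    (X v ≤ T ∧ T < X v + D) ∧ ∀ w, P w → X w ≤ T → T < X w + D →
      ¬ (min (Y u) (Y v) < Y w ∧ Y w < max (Y u) (Y v)))

theorem disjoint_bar_iff (x y x' y' : ℝ) :
    Disjoint (bar x y) (bar x' y') ↔ (y = y' → x + 1 < x' ∨ x' + 1 < x) := by
  unfold bar
  rw [Set.disjoint_left]
  constructor
  · intro h hy
    by_contra hc
    push Not at hc
    refine h (a := (max x x', y)) ⟨⟨le_max_left _ _, max_le (by linarith) hc.1⟩, rfl⟩
      ⟨⟨le_max_right _ _, max_le hc.2 (by linarith)⟩, hy⟩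
  · rintro h ⟨p, q⟩ ⟨⟨h1, h2⟩, h3⟩ ⟨⟨h4, h5⟩, h6⟩
    simp only [Set.mem_singleton_iff] at h1 h2 h3 h4 h5 h6
    rcases h (h3.symm.trans h6) with h7 | h7 <;> linarith

theorem disjoint_rect_iff (x y a b c d : ℝ) (hab : a < b) :
    Disjoint (bar x y) (Set.Ioo a b ×ˢ Set.Ioo c d) ↔
      (x < b → a < x + 1 → ¬ (c < y ∧ y < d)) := by
  unfold bar
  rw [Set.disjoint_left]
  constructor
  · intro h h1 h2 h3
    have e1 : max a x < min b (x + 1) := by
      rw [max_lt_iff, lt_min_iff, lt_min_iff]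
      exact ⟨⟨hab, h2⟩, h1, by linarith⟩
    have e2 := le_max_left a x
    have e3 := le_max_right a x
    have e4 := min_le_left b (x + 1)
    have e5 := min_le_right b (x + 1)
    refine h (a := ((max a x + min b (x + 1)) / 2, y)) ⟨⟨?_, ?_⟩, rfl⟩ ⟨⟨?_, ?_⟩, h3⟩ <;>
      simp only <;> linarith
  · rintro h ⟨p, q⟩ ⟨⟨h1, h2⟩, h3⟩ ⟨⟨h4, h5⟩, h6⟩
    simp only [Set.mem_singleton_iff] at h1 h2 h3 h4 h5 h6
    subst h3
    exact h (by linarith) (by linarith) h6

theorem icc_sub_iff (a b x x' : ℝ) (hab : a < b) :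
    Set.Icc a b ⊆ Set.Icc x (x + 1) ∩ Set.Icc x' (x' + 1) ↔
      (x ≤ a ∧ b ≤ x + 1) ∧ (x' ≤ a ∧ b ≤ x' + 1) := by
  rw [Set.subset_inter_iff, Set.Icc_subset_Icc_iff hab.le, Set.Icc_subset_Icc_iff hab.le]

theorem isUBVRep_iff {V : Type} (G : SimpleGraph V) (x y : V → ℝ) :
    IsUBVRep G x y ↔ (∀ u v, u ≠ v → y u = y v → x u + 1 < x v ∨ x v + 1 < x u) ∧
      ∀ u v, u ≠ v → (G.Adj u v ↔ ∃ a b : ℝ, a < b ∧ (x u ≤ a ∧ b ≤ x u + 1) ∧
        (x v ≤ a ∧ b ≤ x v + 1) ∧ ∀ w, x w < b → a < x w + 1 →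
          ¬ (min (y u) (y v) < y w ∧ y w < max (y u) (y v))) := by
  unfold IsUBVRep
  refine and_congr (forall₃_congr fun u v _ => disjoint_bar_iff _ _ _ _)
    (forall₃_congr fun u v _ => iff_congr Iff.rfl (exists₂_congr fun a b =>
      and_congr_right fun hab => ?_))
  rw [icc_sub_iff _ _ _ _ hab, and_assoc]
  refine and_congr_right fun _ => and_congr_right fun _ => forall_congr' fun w => ?_
  rw [disjoint_rect_iff _ _ _ _ _ _ hab]
  constructor
  · intro h h1 h2 h3
    refine h ?_ ?_ h1 h2 h3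
    · rintro rfl
      rcases le_total (y w) (y v) with h4 | h4
      · rw [min_eq_left h4] at h3; exact lt_irrefl _ h3.1
      · rw [max_eq_left h4] at h3; exact lt_irrefl _ h3.2
    · rintro rfl
      rcases le_total (y u) (y w) with h4 | h4
      · rw [max_eq_right h4] at h3; exact lt_irrefl _ h3.2
      · rw [min_eq_right h4] at h3; exact lt_irrefl _ h3.1
  · exact fun h _ _ => h

theorem Rep.toReal {V : Type} {G : SimpleGraph V} {D : ℤ} {X Y : V → ℤ}
    (h : Rep (fun _ => True) G.Adj D X Y) : IsUBVGraph G := by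
  have hD : (0 : ℝ) < D := by exact_mod_cast h.pos
  refine ⟨fun v => X v / D, fun v => Y v, (isUBVRep_iff _ _ _).2 ⟨fun u v huv hy => ?_,
    fun u v huv => ?_⟩⟩
  · have key : ∀ p q : ℤ, p + D < q → (p : ℝ) / D + 1 < q / D := by
      intro p q hpq
      have : (p : ℝ) + D < q := by exact_mod_cast hpq
      rw [div_add_one hD.ne', div_lt_div_iff_of_pos_right hD]
      exact this
    exact (h.disj u v trivial trivial huv (by exact_mod_cast hy)).imp (key _ _) (key _ _)
  · rw [h.adj u v trivial trivial huv]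
    have cast : ∀ w, (min (Y u : ℝ) (Y v) < Y w ∧ (Y w : ℝ) < max (Y u : ℝ) (Y v)) ↔
        (min (Y u) (Y v) < Y w ∧ Y w < max (Y u) (Y v)) := by
      intro w
      rw [← Int.cast_min, ← Int.cast_max, Int.cast_lt, Int.cast_lt]
    constructor
    · rintro ⟨T, ⟨h1, h2⟩, ⟨h3, h4⟩, h5⟩
      have k1 : ∀ p : ℤ, p ≤ T → (p : ℝ) / D ≤ T / D := fun p hp =>
        div_le_div_of_nonneg_right (by exact_mod_cast hp) hD.le
      have k2 : ∀ p : ℤ, T < p + D → ((T : ℝ) + 1) / D ≤ p / D + 1 := by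
        intro p hp
        rw [div_add_one hD.ne']
        refine div_le_div_of_nonneg_right ?_ hD.le
        have : T + 1 ≤ p + D := hp
        exact_mod_cast this
      refine ⟨T / D, (T + 1) / D, div_lt_div_of_pos_right (by linarith) hD, ⟨k1 _ h1, k2 _ h2⟩,
        ⟨k1 _ h3, k2 _ h4⟩, fun w a1 a2 => ?_⟩
      rw [cast]
      rw [div_lt_div_iff_of_pos_right hD] at a1
      rw [div_add_one hD.ne', div_lt_div_iff_of_pos_right hD] at a2
      refine h5 w trivial ?_ (by exact_mod_cast a2)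
      have : X w < T + 1 := by exact_mod_cast a1
      omega
    · rintro ⟨a, b, hab, ⟨h1, h2⟩, ⟨h3, h4⟩, h5⟩
      have f1 := Int.floor_le (a * D)
      have f2 := Int.lt_floor_add_one (a * D)
      have hab' : a * D < b * D := mul_lt_mul_of_pos_right hab hD
      have k1 : ∀ p : ℤ, (p : ℝ) / D ≤ a → p ≤ ⌊a * D⌋ := fun p hp =>
        Int.le_floor.2 ((div_le_iff₀ hD).1 hp)
      have k2 : ∀ p : ℤ, b ≤ (p : ℝ) / D + 1 → ⌊a * D⌋ < p + D := by
        intro p hp
        rw [div_add_one hD.ne', le_div_iff₀ hD] at hp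
        have : (⌊a * D⌋ : ℝ) < p + D := by linarith
        exact_mod_cast this
      refine ⟨⌊a * D⌋, ⟨k1 _ h1, k2 _ h2⟩, ⟨k1 _ h3, k2 _ h4⟩, fun w _ a1 a2 => ?_⟩
      rw [← cast]
      have b1 : (X w : ℝ) ≤ ⌊a * D⌋ := by exact_mod_cast a1
      have b2 : (⌊a * D⌋ : ℝ) + 1 ≤ X w + D := by
        have : ⌊a * D⌋ + 1 ≤ X w + D := a2
        exact_mod_cast this
      refine h5 w ?_ ?_
      · rw [div_lt_iff₀ hD]; linarith
      · rw [div_add_one hD.ne', lt_div_iff₀ hD]; linarith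

theorem exists_phi {n : ℕ} (x : Fin n → ℝ) : ∃ φ : ℝ → ℕ,
    (∀ v, φ (x v + 1) = φ (x v) + (n + 1)) ∧
    (∀ e t, (∃ v, e = x v ∨ e = x v + 1) → e < t → φ e < φ t) ∧
    ∀ t, φ t ≤ (n + 1) * (2 * n + 1) := by
  classical
  let S : Finset ℤ := Finset.univ.image (fun v => ⌊x v⌋) ∪ Finset.univ.image (fun v => ⌊x v⌋ + 1)
  let g : ℤ → ℕ := fun k => (S.filter (· < k)).card
  let rk : ℝ → ℕ := fun t => (Finset.univ.filter (fun w => Int.fract (x w) < t)).card
  have hg : ∀ k k', k ≤ k' → g k ≤ g k' := fun k k' hk =>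
    Finset.card_le_card fun j hj => by
      simp only [Finset.mem_filter] at hj ⊢
      exact ⟨hj.1, by omega⟩
  have hg1 : ∀ k ∈ S, g (k + 1) = g k + 1 := by
    intro k hk
    have : S.filter (· < k + 1) = insert k (S.filter (· < k)) := by
      ext j
      simp only [Finset.mem_filter, Finset.mem_insert]
      constructor
      · rintro ⟨h1, h2⟩
        by_cases h : j = k
        · exact Or.inl h
        · exact Or.inr ⟨h1, by omega⟩
      · rintro (rfl | ⟨h1, h2⟩)
        · exact ⟨hk, by omega⟩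
        · exact ⟨h1, by omega⟩
    simp only [g]
    rw [this, Finset.card_insert_of_notMem (by simp)]
  have hg2 : ∀ k, g k ≤ 2 * n := fun k =>
    (Finset.card_filter_le _ _).trans ((Finset.card_union_le _ _).trans (by
      have h1 := Finset.card_image_le (s := (Finset.univ : Finset (Fin n))) (f := fun v => ⌊x v⌋)
      have h2 := Finset.card_image_le (s := (Finset.univ : Finset (Fin n)))
        (f := fun v => ⌊x v⌋ + 1)
      simp only [Finset.card_univ, Fintype.card_fin] at h1 h2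
      omega))
  have hr : ∀ t t', t ≤ t' → rk t ≤ rk t' := fun t t' ht =>
    Finset.card_le_card fun j hj => by
      simp only [Finset.mem_filter, Finset.mem_univ, true_and] at hj ⊢
      linarith
  have hr1 : ∀ t, rk t ≤ n := fun t => (Finset.card_filter_le _ _).trans (by simp)
  have hr2 : ∀ w t, Int.fract (x w) < t → rk (Int.fract (x w)) < rk t := by
    intro w t ht
    refine Finset.card_lt_card ⟨fun j hj => ?_, fun hsub => ?_⟩
    · simp only [Finset.mem_filter, Finset.mem_univ, true_and] at hj ⊢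
      linarith
    · have := hsub (Finset.mem_filter.2 ⟨Finset.mem_univ w, ht⟩)
      simp at this
  have hS1 : ∀ v, ⌊x v⌋ ∈ S := fun v => by simp [S]
  have hS2 : ∀ v, ⌊x v⌋ + 1 ∈ S := fun v => by simp [S]
  have hfr : ∀ s t : ℝ, ⌊s⌋ = ⌊t⌋ → Int.fract t - Int.fract s = t - s := by
    intro s t h
    unfold Int.fract
    rw [h]; ring
  refine ⟨fun t => (n + 1) * g ⌊t⌋ + rk (Int.fract t), fun v => ?_,
    fun e t he het => ?_, fun t => ?_⟩
  · simp only [Int.floor_add_one, Int.fract_add_one, hg1 _ (hS1 v)]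
    ring
  · have he' : ⌊e⌋ ∈ S ∧ ∃ w, Int.fract e = Int.fract (x w) := by
      obtain ⟨v, rfl | rfl⟩ := he
      · exact ⟨hS1 v, v, rfl⟩
      · exact ⟨by rw [Int.floor_add_one]; exact hS2 v, v, Int.fract_add_one _⟩
    obtain ⟨h1, w, h2⟩ := he'
    rcases (Int.floor_mono het.le).eq_or_lt with h | h
    · have := hr2 w (Int.fract t) (by linarith [hfr e t h])
      simp only [h, h2]
      omega
    · have h3 := hg (⌊e⌋ + 1) _ h
      rw [hg1 _ h1] at h3
      have h4 : (n + 1) * (g ⌊e⌋ + 1) ≤ (n + 1) * g ⌊t⌋ := Nat.mul_le_mul_left _ h3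
      have := hr1 (Int.fract e)
      simp only
      nlinarith
  · have h1 := Nat.mul_le_mul_left (n + 1) (hg2 ⌊t⌋)
    have := hr1 (Int.fract t)
    simp only
    nlinarith

theorem exists_rank {n : ℕ} (y : Fin n → ℝ) : ∃ Y : Fin n → ℕ, (∀ v, Y v ≤ n) ∧
    ∀ u v, Y u < Y v ↔ y u < y v := by
  classical
  let Y : Fin n → ℕ := fun v => (Finset.univ.filter (fun w => y w < y v)).card
  refine ⟨Y, fun v => (Finset.card_filter_le _ _).trans (by simp), fun u v => ⟨fun h => ?_,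
    fun h => ?_⟩⟩
  · by_contra hc
    refine absurd h (not_lt.2 (Finset.card_le_card fun j hj => ?_))
    simp only [Finset.mem_filter, Finset.mem_univ, true_and] at hj ⊢
    linarith
  · refine Finset.card_lt_card ⟨fun j hj => ?_, fun hsub => ?_⟩
    · simp only [Finset.mem_filter, Finset.mem_univ, true_and] at hj ⊢
      linarith
    · have := hsub (Finset.mem_filter.2 ⟨Finset.mem_univ u, h⟩)
      simp at this

theorem exists_rep {n : ℕ} {G : SimpleGraph (Fin n)} (h : IsUBVGraph G) :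
    ∃ X Y : Fin n → ℕ, (∀ v, X v ≤ (n + 1) * (2 * n + 1) ∧ Y v ≤ n) ∧
      Rep (fun _ => True) G.Adj ((n + 1 : ℕ) : ℤ) (fun v => X v) (fun v => Y v) := by
  classical
  obtain ⟨x, y, h⟩ := h
  obtain ⟨h1, h2⟩ := (isUBVRep_iff _ _ _).1 h
  obtain ⟨φ, p1, p2, p3⟩ := exists_phi x
  obtain ⟨Y, q1, q2⟩ := exists_rank y
  have btw : ∀ u v w, (min (Y u : ℤ) (Y v) < Y w ∧ (Y w : ℤ) < max (Y u : ℤ) (Y v)) ↔
      (min (y u) (y v) < y w ∧ y w < max (y u) (y v)) := by
    intro u v w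
    simp only [min_lt_iff, lt_max_iff, Nat.cast_lt, q2]
  let E : Finset ℝ := Finset.univ.image x ∪ Finset.univ.image (fun v => x v + 1)
  have hE : ∀ e ∈ E, ∃ v, e = x v ∨ e = x v + 1 := by
    intro e he
    simp only [E, Finset.mem_union, Finset.mem_image, Finset.mem_univ, true_and] at he
    rcases he with ⟨v, rfl⟩ | ⟨v, rfl⟩
    exacts [⟨v, Or.inl rfl⟩, ⟨v, Or.inr rfl⟩]
  have hE1 : ∀ v, x v ∈ E := fun v => by simp [E]
  have hE2 : ∀ v, x v + 1 ∈ E := fun v => by simp [E]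
  have mono : ∀ e ∈ E, ∀ t, e ≤ t → φ e ≤ φ t := by
    intro e he t het
    rcases het.eq_or_lt with rfl | h
    · exact le_rfl
    · exact (p2 e t (hE e he) h).le
  refine ⟨fun v => φ (x v), Y, fun v => ⟨p3 _, q1 v⟩, ⟨by positivity, fun u v _ _ huv hy => ?_,
    fun u v _ _ huv => ?_⟩⟩
  · have hy' : y u = y v := by
      have e : Y u = Y v := by exact_mod_cast hy
      have a1 := (q2 u v).2
      have a2 := (q2 v u).2
      rcases lt_trichotomy (y u) (y v) with h | h | h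
      · have := a1 h; omega
      · exact h
      · have := a2 h; omega
    have key : ∀ a b, x a + 1 < x b → (φ (x a) : ℤ) + ((n + 1 : ℕ) : ℤ) < φ (x b) := by
      intro a b hab
      have := p2 _ _ ⟨a, Or.inr rfl⟩ hab
      rw [p1] at this
      exact_mod_cast this
    exact (h1 u v huv hy').imp (key _ _) (key _ _)
  · rw [h2 u v huv]
    constructor
    · rintro ⟨a, b, hab, ⟨a1, a2⟩, ⟨a3, a4⟩, a5⟩
      obtain ⟨e, he, hmax⟩ := (E.filter (· ≤ a)).exists_max_image id
        ⟨x u, Finset.mem_filter.2 ⟨hE1 u, a1⟩⟩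
      obtain ⟨he1, he2⟩ := Finset.mem_filter.1 he
      have k1 : ∀ w, x w ≤ a → (φ (x w) : ℤ) ≤ φ e := fun w hw => by
        exact_mod_cast mono _ (hE1 w) _ (hmax _ (Finset.mem_filter.2 ⟨hE1 w, hw⟩))
      have k2 : ∀ w, b ≤ x w + 1 → (φ e : ℤ) < φ (x w) + ((n + 1 : ℕ) : ℤ) := fun w hw => by
        have := p2 e (x w + 1) (hE e he1) (by linarith)
        rw [p1] at this
        exact_mod_cast this
      refine ⟨φ e, ⟨k1 u a1, k2 u a2⟩, ⟨k1 v a3, k2 v a4⟩, fun w _ b1 b2 => ?_⟩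
      beta_reduce at b1 b2
      rw [btw]
      refine a5 w ?_ ?_
      · by_contra hc
        have := p2 e (x w) (hE e he1) (by linarith)
        omega
      · by_contra hc
        have := mono _ (hE2 w) _ (hmax _ (Finset.mem_filter.2 ⟨hE2 w, not_lt.1 hc⟩))
        rw [p1] at this
        simp only [id] at this
        push_cast at b2
        omega
    · rintro ⟨T, ⟨a1, a2⟩, ⟨a3, a4⟩, a5⟩
      have c2 : ∀ w, T < φ (x w) + ((n + 1 : ℕ) : ℤ) ↔ T < φ (x w + 1) := fun w => by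
        rw [p1]; push_cast; rfl
      obtain ⟨a, ha, hmax⟩ := (E.filter (fun e => (φ e : ℤ) ≤ T)).exists_max_image id
        ⟨x u, Finset.mem_filter.2 ⟨hE1 u, a1⟩⟩
      obtain ⟨b, hb, hmin⟩ := (E.filter (fun e => T < (φ e : ℤ))).exists_min_image id
        ⟨x u + 1, Finset.mem_filter.2 ⟨hE2 u, (c2 u).1 a2⟩⟩
      obtain ⟨ha1, ha2⟩ := Finset.mem_filter.1 ha
      obtain ⟨hb1, hb2⟩ := Finset.mem_filter.1 hb
      have k1 : ∀ w, (φ (x w) : ℤ) ≤ T → x w ≤ a := fun w hw =>
        hmax _ (Finset.mem_filter.2 ⟨hE1 w, hw⟩)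
      have k2 : ∀ w, T < φ (x w) + ((n + 1 : ℕ) : ℤ) → b ≤ x w + 1 := fun w hw =>
        hmin _ (Finset.mem_filter.2 ⟨hE2 w, (c2 w).1 hw⟩)
      refine ⟨a, b, ?_, ⟨k1 u a1, k2 u a2⟩, ⟨k1 v a3, k2 v a4⟩, fun w b1 b2 => ?_⟩
      · by_contra hc
        have := mono b hb1 a (not_lt.1 hc)
        omega
      · rw [← btw]
        refine a5 w trivial ?_ ?_
        · by_contra hc
          have := hmin _ (Finset.mem_filter.2 ⟨hE1 w, not_le.1 hc⟩)
          simp only [id] at this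
          linarith
        · by_contra hc
          rw [c2] at hc
          have := hmax _ (Finset.mem_filter.2 ⟨hE2 w, not_lt.1 hc⟩)
          simp only [id] at this
          linarith

end Pool.Agent.H689Z.UBV
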