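import Pool.Agent.H689Z.UBV.Disc

set_option autoImplicit false

/-! Geometry of discrete representations. -/

namespace Pool.Agent.H689Z.UBV

/-- Discrete representations whose adjacency relation only relates distinct vertices. -/
structure RepG {V : Type} (P : V → Prop) (A : V → V → Prop) (D : ℤ) (X Y : V → ℤ) : Prop
    extends Rep P A D X Y where
  sub : ∀ u v, A u v → P u ∧ P v ∧ u ≠ v

namespace RepG

variable {V : Type} {P : V → Prop} {A : V → V → Prop} {D : ℤ} {X Y : V → ℤ}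

theorem flipY (h : RepG P A D X Y) : RepG P A D X (fun v => -Y v) where
  pos := h.pos
  disj := fun u v a b c d => h.disj u v a b c (by omega)
  adj := fun u v a b c => by
    rw [h.adj u v a b c]
    refine exists_congr fun T => and_congr_right fun _ => and_congr_right fun _ =>
      forall_congr' fun w => forall₃_congr fun _ _ _ => ?_
    omega
  sub := h.sub

theorem flipX (h : RepG P A D X Y) : RepG P A D (fun v => -X v - D) Y where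
  pos := h.pos
  disj := fun u v a b c d => by
    have := h.disj u v a b c d
    omega
  adj := fun u v a b c => by
    rw [h.adj u v a b c]
    constructor
    · rintro ⟨T, h1, h2, h3⟩
      exact ⟨-T - 1, by omega, by omega, fun w k1 k2 k3 => h3 w k1 (by omega) (by omega)⟩
    · rintro ⟨T, h1, h2, h3⟩
      exact ⟨-T - 1, by omega, by omega, fun w k1 k2 k3 => h3 w k1 (by omega) (by omega)⟩
  sub := h.sub

theorem neY (h : RepG P A D X Y) {u v : V} {T : ℤ} (hu : P u) (hv : P v) (huv : u ≠ v)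
    (a1 : X u ≤ T) (a2 : T < X u + D) (b1 : X v ≤ T) (b2 : T < X v + D) : Y u ≠ Y v := by
  intro e
  have := h.disj u v hu hv huv e
  omega

theorem vis (h : RepG P A D X Y) {u v : V} (a : A u v) : ∃ T, (X u ≤ T ∧ T < X u + D) ∧
    (X v ≤ T ∧ T < X v + D) ∧ ∀ w, P w → X w ≤ T → T < X w + D →
      ¬ (min (Y u) (Y v) < Y w ∧ Y w < max (Y u) (Y v)) :=
  (h.adj u v (h.sub u v a).1 (h.sub u v a).2.1 (h.sub u v a).2.2).1 a

theorem symm (h : RepG P A D X Y) {u v : V} (a : A u v) : A v u := by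
  obtain ⟨T, h1, h2, h3⟩ := h.vis a
  obtain ⟨k1, k2, k3⟩ := h.sub u v a
  refine (h.adj v u k2 k1 k3.symm).2 ⟨T, h2, h1, fun w b1 b2 b3 => ?_⟩
  have := h3 w b1 b2 b3
  omega

theorem ov (h : RepG P A D X Y) {u v : V} (a : A u v) :
    X u < X v + D ∧ X v < X u + D ∧ Y u ≠ Y v := by
  obtain ⟨T, h1, h2, -⟩ := h.vis a
  obtain ⟨k1, k2, k3⟩ := h.sub u v a
  exact ⟨by omega, by omega, h.neY k1 k2 k3 h1.1 h1.2 h2.1 h2.2⟩

theorem up (h : RepG P A D X Y) {u : V} {T : ℤ} (hu : P u) (a1 : X u ≤ T) (a2 : T < X u + D) :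
    ∀ (d : ℕ) (w : V), P w → X w ≤ T → T < X w + D → Y u < Y w → Y w - Y u ≤ d →
      ∃ n, A u n ∧ X n ≤ T ∧ T < X n + D ∧ Y u < Y n ∧ Y n ≤ Y w := by
  intro d
  induction d with
  | zero => intro w _ _ _ h1 h2; omega
  | succ d ih =>
    intro w hw b1 b2 h1 h2
    by_cases hb : ∃ z, P z ∧ X z ≤ T ∧ T < X z + D ∧ Y u < Y z ∧ Y z < Y w
    · obtain ⟨z, c1, c2, c3, c4, c5⟩ := hb
      obtain ⟨n, e1, e2, e3, e4, e5⟩ := ih z c1 c2 c3 c4 (by omega)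
      exact ⟨n, e1, e2, e3, e4, by omega⟩
    · refine ⟨w, (h.adj u w hu hw (by rintro rfl; omega)).2 ⟨T, ⟨a1, a2⟩, ⟨b1, b2⟩,
        fun z c1 c2 c3 c4 => hb ⟨z, c1, c2, c3, by omega, by omega⟩⟩, b1, b2, h1, le_rfl⟩

theorem up' (h : RepG P A D X Y) {u w : V} {T : ℤ} (hu : P u) (a1 : X u ≤ T) (a2 : T < X u + D)
    (hw : P w) (b1 : X w ≤ T) (b2 : T < X w + D) (hy : Y u < Y w) :
    ∃ n, A u n ∧ X n ≤ T ∧ T < X n + D ∧ Y u < Y n ∧ Y n ≤ Y w :=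
  h.up hu a1 a2 (Y w - Y u).toNat w hw b1 b2 hy (by omega)

theorem down' (h : RepG P A D X Y) {u w : V} {T : ℤ} (hu : P u) (a1 : X u ≤ T)
    (a2 : T < X u + D) (hw : P w) (b1 : X w ≤ T) (b2 : T < X w + D) (hy : Y w < Y u) :
    ∃ n, A u n ∧ X n ≤ T ∧ T < X n + D ∧ Y n < Y u ∧ Y w ≤ Y n := by
  obtain ⟨n, h1, h2, h3, h4, h5⟩ := h.flipY.up' hu a1 a2 hw b1 b2 (by omega)
  exact ⟨n, h1, h2, h3, by omega, by omega⟩

end RepG

/-- The bar `v` is seen from infinity in the column `T` (from above if `d`). -/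
def Expo {V : Type} (P : V → Prop) (D : ℤ) (X Y : V → ℤ) (v : V) (T : ℤ) (d : Prop) : Prop :=
  P v ∧ X v ≤ T ∧ T < X v + D ∧ ∀ w, P w → X w ≤ T → T < X w + D →
    (d → Y w ≤ Y v) ∧ (¬ d → Y v ≤ Y w)

/-- Chains of adjacent vertices inside a set. -/
def Chain {V : Type} (A : V → V → Prop) (S : V → Prop) : V → V → Prop :=
  Relation.ReflTransGen (fun a b => A a b ∧ S a ∧ S b)

/-- The bar `v` has a neighbour above and a neighbour below in each column. -/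
def Cov {V : Type} (A : V → V → Prop) (D : ℤ) (X Y : V → ℤ) (v : V) : Prop :=
  ∀ T, X v ≤ T → T < X v + D → (∃ n, A v n ∧ X n ≤ T ∧ T < X n + D ∧ Y v < Y n) ∧
    ∃ n, A v n ∧ X n ≤ T ∧ T < X n + D ∧ Y n < Y v

theorem prop1 (a b c d e : Prop) : ((a ∧ ¬ (b ↔ c)) ↔ (a ∧ ¬ (d ↔ e))) ↔
    ((a ∧ ¬ (b ↔ d)) ↔ (a ∧ ¬ (c ↔ e))) := by
  by_cases a <;> by_cases b <;> by_cases c <;> by_cases d <;> by_cases e <;> simp [*]

theorem prop2 {φ z t c t' : Prop} (e1 : φ ↔ ¬ (t ↔ c)) (h : ¬ (c ↔ t') → z) :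
    ¬ (φ ↔ (z ∧ ¬ (c ↔ t'))) ↔ ¬ (t ↔ t') := by
  by_cases φ <;> by_cases z <;> by_cases t <;> by_cases c <;> by_cases t' <;> simp_all

theorem prop3 {φ1 φ2 g w z c1 c2 s1 s2 : Prop} (e1 : (φ1 ↔ φ2) ↔ (g ↔ (w ∧ ¬ (c1 ↔ c2))))
    (h : ¬ (c1 ↔ c2) → (w ↔ z)) :
    (¬ (φ1 ↔ (z ∧ ¬ (c1 ↔ s1))) ↔ ¬ (φ2 ↔ (z ∧ ¬ (c2 ↔ s2)))) ↔ (g ↔ (z ∧ ¬ (s1 ↔ s2))) := by
  by_cases φ1 <;> by_cases φ2 <;> by_cases g <;> by_cases w <;> by_cases z <;> by_cases c1 <;>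
    by_cases c2 <;> by_cases s1 <;> by_cases s2 <;> simp_all

theorem prop4 {φ1 φ2 y1 y2 a1 a2 b1 b2 d1 d2 : Prop}
    (q : (φ1 ↔ φ2) ↔ ((y1 ∧ ¬ (a1 ↔ a2)) ↔ (y2 ∧ ¬ (b1 ↔ b2))))
    (r1 : ¬ (a1 ↔ a2) → (y1 ↔ d1)) (r2 : ¬ (b1 ↔ b2) → (y2 ↔ d2)) :
    (φ1 ↔ ((a1 ∧ d1) ↔ (b1 ∧ d2))) ↔ (φ2 ↔ ((a2 ∧ d1) ↔ (b2 ∧ d2))) := by
  by_cases φ1 <;> by_cases φ2 <;> by_cases y1 <;> by_cases y2 <;> by_cases a1 <;> by_cases a2 <;>
    by_cases b1 <;> by_cases b2 <;> by_cases d1 <;> by_cases d2 <;> simp_all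

theorem prop5 {φ a b d1 d2 d : Prop} (hd : d) (h : ¬ φ) :
    (φ ↔ ((a ∧ d1) ↔ (b ∧ d2))) ↔ ¬ ((a ∧ (d1 ↔ d)) ↔ (b ∧ (d2 ↔ d))) := by
  by_cases a <;> by_cases b <;> by_cases d1 <;> by_cases d2 <;> simp_all

theorem prop6 {φ a b d1 d2 d : Prop} (hd : ¬ d) (h : φ ↔ ¬ (a ↔ b)) :
    (φ ↔ ((a ∧ d1) ↔ (b ∧ d2))) ↔ ¬ ((a ∧ (d1 ↔ d)) ↔ (b ∧ (d2 ↔ d))) := by
  by_cases a <;> by_cases b <;> by_cases d1 <;> by_cases d2 <;> simp_all

namespace RepG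

variable {V : Type} {P : V → Prop} {A : V → V → Prop} {D : ℤ} {X Y : V → ℤ}

theorem exists_phi (h : RepG P A D X Y) {S : V → Prop} {v w : V} {t : ℤ} (hv : P v) (sv : S v)
    (a1 : X v ≤ t) (a2 : t < X v + D) (c : Chain A S v w) :
    P w ∧ S w ∧ ∀ t', X w ≤ t' → t' < X w + D → ∃ Φ : ℤ → ℤ → Prop,
      (∀ T y0 y1, (∀ p, S p → P p → X p ≤ T → T < X p + D → (y0 < Y p ↔ y1 < Y p)) →
        (Φ T y0 ↔ Φ T y1)) ∧
      (∀ T y0, (∀ p, S p → P p → X p ≤ T → T < X p + D → ¬ y0 < Y p) → ¬ Φ T y0) ∧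
      (∀ T y0, (∀ p, S p → P p → X p ≤ T → T < X p + D → y0 < Y p) →
        (Φ T y0 ↔ ¬ (t < T ↔ t' < T))) ∧
      ∀ u, P u → ¬ S u → ∀ T1 T2, X u ≤ T1 → T1 < X u + D → X u ≤ T2 → T2 < X u + D →
        ((Φ T1 (Y u) ↔ Φ T2 (Y u)) ↔ ((Y u < Y v ∧ ¬ (t < T1 ↔ t < T2)) ↔
          (Y u < Y w ∧ ¬ (t' < T1 ↔ t' < T2)))) := by
  induction c with
  | refl =>
    refine ⟨hv, sv, fun t' b1 b2 => ⟨fun T y => y < Y v ∧ ¬ (t < T ↔ t' < T), ?_, ?_, ?_, ?_⟩⟩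
    · intro T y0 y1 k
      by_cases e : (t < T ↔ t' < T)
      · simp [e]
      · have := k v sv hv (by omega) (by omega)
        simp [this]
    · intro T y0 k ⟨e1, e2⟩
      exact k v sv hv (by omega) (by omega) e1
    · intro T y0 k
      by_cases e : (t < T ↔ t' < T)
      · simp [e]
      · have := k v sv hv (by omega) (by omega)
        simp [this]
    · intro u _ _ T1 T2 _ _ _ _
      exact prop1 _ _ _ _ _
  | @tail w z _ hwz ih =>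
    obtain ⟨hw, sw, ih⟩ := ih
    obtain ⟨hwz, -, sz⟩ := hwz
    obtain ⟨-, hz, -⟩ := h.sub w z hwz
    obtain ⟨c, c1, c2, c3⟩ := h.vis hwz
    obtain ⟨Φ, p1, p2, p3, p4⟩ := ih c c1.1 c1.2
    refine ⟨hz, sz, fun t' b1 b2 => ⟨fun T y => ¬ (Φ T y ↔ (y < Y z ∧ ¬ (c < T ↔ t' < T))),
      ?_, ?_, ?_, ?_⟩⟩
    · intro T y0 y1 k
      have e1 := p1 T y0 y1 k
      by_cases e : (c < T ↔ t' < T)
      · simp [e, e1]
      · have := k z sz hz (by omega) (by omega)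
        simp [this, e1]
    · intro T y0 k
      have e1 := p2 T y0 k
      by_cases e : (c < T ↔ t' < T)
      · simp [e, e1]
      · have := k z sz hz (by omega) (by omega)
        simp [this, e1]
    · intro T y0 k
      exact prop2 (p3 T y0 k) fun e => k z sz hz (by omega) (by omega)
    · intro u hu su T1 T2 d1 d2 d3 d4
      refine prop3 (p4 u hu su T1 T2 d1 d2 d3 d4) fun e => ?_
      have f1 := c3 u hu (by omega) (by omega)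
      have f2 := h.neY hu hw (by rintro rfl; exact su sw) (T := c) (by omega) (by omega) c1.1 c1.2
      have f3 := h.neY hu hz (by rintro rfl; exact su sz) (T := c) (by omega) (by omega) c2.1 c2.2
      omega

/-- Disjoint chains between bars seen from infinity do not cross. -/
theorem no_cross (h : RepG P A D X Y) {S S' : V → Prop} (hS : ∀ u, S' u → ¬ S u)
    {v1 v2 v3 v4 : V} {t1 t2 t3 t4 : ℤ} {d1 d2 d3 d4 : Prop}
    (e1 : Expo P D X Y v1 t1 d1) (e2 : Expo P D X Y v2 t2 d2) (e3 : Expo P D X Y v3 t3 d3)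
    (e4 : Expo P D X Y v4 t4 d4) (s1 : S v1) (s3 : S' v3) (c : Chain A S v1 v2)
    (c' : Chain A S' v3 v4) :
    ((t1 < t3 ∧ (d1 ↔ d3)) ↔ (t2 < t3 ∧ (d2 ↔ d3))) ↔
      ((t1 < t4 ∧ (d1 ↔ d4)) ↔ (t2 < t4 ∧ (d2 ↔ d4))) := by
  obtain ⟨-, s2, k⟩ := h.exists_phi e1.1 s1 e1.2.1 e1.2.2.1 c
  obtain ⟨Φ, p1, p2, p3, p4⟩ := k t2 e2.2.1 e2.2.2.1
  let Ψ : ℤ → ℤ → Prop := fun T y => Φ T y ↔ ((t1 < T ∧ d1) ↔ (t2 < T ∧ d2))
  have hor : ∀ u, P u → ¬ S u → ∀ T1 T2, X u ≤ T1 → T1 < X u + D → X u ≤ T2 → T2 < X u + D →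
      (Ψ T1 (Y u) ↔ Ψ T2 (Y u)) := by
    intro u hu su T1 T2 a1 a2 a3 a4
    have q := p4 u hu su T1 T2 a1 a2 a3 a4
    have r : ∀ v t d, Expo P D X Y v t d → S v → ¬ (t < T1 ↔ t < T2) → (Y u < Y v ↔ d) := by
      intro v t d e sv ht
      have f1 := e.2.2.2 u hu (by omega) (by omega)
      have f2 := h.neY hu e.1 (by rintro rfl; exact su sv) (T := t) (by omega) (by omega)
        e.2.1 e.2.2.1
      by_cases hd : d
      · have := f1.1 hd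
        simp only [hd, iff_true]; omega
      · have := f1.2 hd
        simp only [hd, iff_false]; omega
    exact prop4 q (r v1 t1 d1 e1 s1) (r v2 t2 d2 e2 s2)
  have ch : ∀ u, Chain A S' v3 u → P u ∧ S' u ∧ ∀ T, X u ≤ T → T < X u + D →
      (Ψ t3 (Y v3) ↔ Ψ T (Y u)) := by
    intro u cu
    induction cu with
    | refl => exact ⟨e3.1, s3, fun T a1 a2 => hor v3 e3.1 (hS _ s3) t3 T e3.2.1 e3.2.2.1 a1 a2⟩
    | @tail w z _ hwz ih =>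
      obtain ⟨hw, sw, ih⟩ := ih
      obtain ⟨hwz, -, sz⟩ := hwz
      obtain ⟨-, hz, -⟩ := h.sub w z hwz
      obtain ⟨c, c1, c2, c3⟩ := h.vis hwz
      refine ⟨hz, sz, fun T a1 a2 => ?_⟩
      rw [ih c c1.1 c1.2, ← hor z hz (hS _ sz) c T c2.1 c2.2 a1 a2]
      have := p1 c (Y w) (Y z) fun p sp hp b1 b2 => by
        have f1 := c3 p hp b1 b2
        have f2 := h.neY hp hw (by rintro rfl; exact hS _ sw sp) b1 b2 c1.1 c1.2
        have f3 := h.neY hp hz (by rintro rfl; exact hS _ sz sp) b1 b2 c2.1 c2.2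
        omega
      simp only [Ψ, this]
  have ex : ∀ u T d, Expo P D X Y u T d → S' u →
      (Ψ T (Y u) ↔ ¬ ((t1 < T ∧ (d1 ↔ d)) ↔ (t2 < T ∧ (d2 ↔ d)))) := by
    intro u T d e su
    by_cases hd : d
    · exact prop5 hd (p2 T (Y u) fun p sp hp b1 b2 => not_lt.2 ((e.2.2.2 p hp b1 b2).1 hd))
    · refine prop6 hd (p3 T (Y u) fun p sp hp b1 b2 => ?_)
      have f1 := (e.2.2.2 p hp b1 b2).2 hd
      have f2 := h.neY hp e.1 (by rintro rfl; exact hS _ su sp) b1 b2 e.2.1 e.2.2.1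
      omega
  obtain ⟨-, s4, k4⟩ := ch v4 c'
  have := k4 t4 e4.2.1 e4.2.2.1
  rw [ex v3 t3 d3 e3 s3, ex v4 t4 d4 e4 s4] at this
  exact not_iff_not.1 this

theorem expo_ne (h : RepG P A D X Y) {u v : V} {s t : ℤ} {d e : Prop} (e1 : Expo P D X Y u s d)
    (e2 : Expo P D X Y v t e) (huv : u ≠ v) : (d ↔ e) → s ≠ t := by
  rintro hde rfl
  have f1 := e1.2.2.2 v e2.1 e2.2.1 e2.2.2.1
  have f2 := e2.2.2.2 u e1.1 e1.2.1 e1.2.2.1
  have f3 := h.neY e1.1 e2.1 huv e1.2.1 e1.2.2.1 e2.2.1 e2.2.2.1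
  by_cases hd : d
  · have := f1.1 hd
    have := f2.1 (hde.1 hd)
    omega
  · have := f1.2 hd
    have := f2.2 (fun k => hd (hde.2 k))
    omega

theorem four (t1 t2 t3 t4 : ℤ) (d1 d2 d3 d4 : Prop) (n12 : (d1 ↔ d2) → t1 ≠ t2)
    (n13 : (d1 ↔ d3) → t1 ≠ t3) (n14 : (d1 ↔ d4) → t1 ≠ t4) (n23 : (d2 ↔ d3) → t2 ≠ t3)
    (n24 : (d2 ↔ d4) → t2 ≠ t4) (n34 : (d3 ↔ d4) → t3 ≠ t4)
    (a : ((t1 < t4 ∧ (d1 ↔ d4)) ↔ (t2 < t4 ∧ (d2 ↔ d4))) ↔
      ((t1 < t3 ∧ (d1 ↔ d3)) ↔ (t2 < t3 ∧ (d2 ↔ d3))))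
    (b : ((t1 < t4 ∧ (d1 ↔ d4)) ↔ (t3 < t4 ∧ (d3 ↔ d4))) ↔
      ((t1 < t2 ∧ (d1 ↔ d2)) ↔ (t3 < t2 ∧ (d3 ↔ d2))))
    (c : ((t2 < t4 ∧ (d2 ↔ d4)) ↔ (t3 < t4 ∧ (d3 ↔ d4))) ↔
      ((t2 < t1 ∧ (d2 ↔ d1)) ↔ (t3 < t1 ∧ (d3 ↔ d1)))) : False := by
  by_cases h1 : d1 <;> by_cases h2 : d2 <;> by_cases h3 : d3 <;> by_cases h4 : d4 <;>
    simp only [h1, h2, h3, h4, iff_true, iff_false, not_true, not_false_iff, and_true, and_false,
      true_imp_iff, false_imp_iff, true_iff, false_iff] at * <;> omega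

theorem leaf_expo (h : RepG P A D X Y) {z a : V} (hz : P z) (ha : ∀ n, A z n → n = a) :
    ∃ d, Expo P D X Y z (X z) d := by
  have hD := h.pos
  by_cases hu : ∃ w, P w ∧ X w ≤ X z ∧ X z < X w + D ∧ Y z < Y w
  · obtain ⟨w, k1, k2, k3, k4⟩ := hu
    obtain ⟨n, f1, -, -, f4, -⟩ := h.up' hz le_rfl (by omega) k1 k2 k3 k4
    refine ⟨False, hz, le_rfl, by omega, fun w' b1 b2 b3 => ⟨False.elim, fun _ => ?_⟩⟩
    by_contra hc
    obtain ⟨n', g1, -, -, g4, -⟩ := h.down' hz le_rfl (by omega) b1 b2 b3 (by omega)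
    rw [ha n f1] at f4
    rw [ha n' g1] at g4
    omega
  · refine ⟨True, hz, le_rfl, by omega, fun w b1 b2 b3 => ⟨fun _ => ?_, fun k => absurd trivial k⟩⟩
    by_contra hc
    exact hu ⟨w, b1, b2, b3, by omega⟩

theorem cov_of (h : RepG P A D X Y) {v : V} (hv : P v) (hn : ∀ T d, ¬ Expo P D X Y v T d) :
    Cov A D X Y v := by
  intro T a1 a2
  constructor
  · by_contra hc
    refine hn T True ⟨hv, a1, a2, fun w b1 b2 b3 => ⟨fun _ => ?_, fun k => absurd trivial k⟩⟩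
    by_contra hd
    obtain ⟨n, f1, f2, f3, f4, -⟩ := h.up' hv a1 a2 b1 b2 b3 (by omega)
    exact hc ⟨n, f1, f2, f3, f4⟩
  · by_contra hc
    refine hn T False ⟨hv, a1, a2, fun w b1 b2 b3 => ⟨False.elim, fun _ => ?_⟩⟩
    by_contra hd
    obtain ⟨n, f1, f2, f3, f4, -⟩ := h.down' hv a1 a2 b1 b2 b3 (by omega)
    exact hc ⟨n, f1, f2, f3, f4⟩

/-- A covered bar with two neighbours. -/
theorem thick (h : RepG P A D X Y) {m a b : V} (hc : Cov A D X Y m)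
    (hn : ∀ n, A m n → n = a ∨ n = b) (ha : A m a) :
    X a = X m ∧ (Y a < Y m ↔ Y m < Y b) ∧
      ∀ n, A a n → n ≠ m → (Y n < Y a ↔ Y a < Y m) := by
  have hD := h.pos
  have k : ∀ T, X m ≤ T → T < X m + D → (X a ≤ T ∧ T < X a + D) ∧ (Y a < Y m ↔ Y m < Y b) := by
    intro T a1 a2
    obtain ⟨⟨n, f1, f2, f3, f4⟩, n', g1, g2, g3, g4⟩ := hc T a1 a2
    rcases hn n f1 with rfl | rfl <;> rcases hn n' g1 with rfl | rfl <;> omega
  have k1 := k (X m) le_rfl (by omega)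
  have k2 := k (X m + D - 1) (by omega) (by omega)
  have hx : X a = X m := by omega
  refine ⟨hx, k1.2, fun n an hnm => ?_⟩
  obtain ⟨T, c1, c2, c3⟩ := h.vis an
  obtain ⟨hm, -, -⟩ := h.sub m a ha
  obtain ⟨-, hn', -⟩ := h.sub a n an
  have f1 := c3 m hm (by omega) (by omega)
  have f2 := h.neY hn' hm hnm c2.1 c2.2 (by omega) (by omega)
  have f3 := (h.ov an).2.2
  have f4 := (h.ov ha).2.2
  constructor
  · intro g
    by_contra hc'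
    obtain ⟨n', e1, -, -, e4, e5⟩ := h.up' hm (T := T) (by omega) (by omega) hn' c2.1 c2.2
      (by omega)
    rcases hn n' e1 with rfl | rfl <;> omega
  · intro g
    by_contra hc'
    obtain ⟨n', e1, -, -, e4, e5⟩ := h.down' hm (T := T) (by omega) (by omega) hn' c2.1 c2.2
      (by omega)
    rcases hn n' e1 with rfl | rfl <;> omega

end RepG

end Pool.Agent.H689Z.UBV
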