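import Pool.Agent.H689Z.UBV.Geo

set_option autoImplicit false

/-! The brick wall with thick buffers and ladders. -/

namespace Pool.Agent.H689Z.UBV

/-- Parameters of the wall. -/
structure Pat where
  n : ℕ
  M : ℕ
  K : ℕ
  L : ℕ → ℕ → Prop
  hM : M = 11 * n + 10
  hK : 6 ≤ K

abbrev Vt : Type := ℕ × ℕ × ℕ

namespace Pat

variable (p : Pat)

def Ef (c k : ℕ) : Prop :=
  (k + 2 * c + 4) % 7 = 0 ∨ (k + 2 * c + 4) % 7 = 1 ∨ (k + 2 * c + 4) % 7 = 5 ∨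
    ((k + 2 * c + 4) % 7 = 4 ∧ ¬ p.L c ((k + 2 * c + 4) / 7))

def cut (i k : ℕ) : Prop :=
  i % 11 = 5 ∧ 2 ≤ k ∧ k + 2 ≤ p.K ∧ ¬ (k + 2 * (i / 11) + 4) % 7 = 6

def rem (j k : ℕ) : Prop :=
  2 ≤ k ∧ k + 2 ≤ p.K ∧ (j = 2 ∨ j + 3 = p.M ∨ (k + 3 ≤ p.K ∧ (j % 11 = 10 ∨
    (j % 11 = 2 ∧ p.Ef (j / 11 - 1) k) ∨ (j % 11 = 7 ∧ ¬ p.Ef (j / 11) k))))

def rung (i k : ℕ) : Prop := k = 0 ∨ k = p.K ∨ (i % 11 = 10 ∧ 2 ≤ k ∧ k + 2 ≤ p.K)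

def Pv (v : Vt) : Prop :=
  (v.2.2 = 0 ∧ v.1 ≤ p.M ∧ v.2.1 ≤ p.K ∧ ¬ p.cut v.1 v.2.1) ∨
  (1 ≤ v.2.2 ∧ v.2.2 ≤ 3 ∧ v.1 < p.M ∧ v.2.1 < p.K ∧ ¬ p.rem v.1 v.2.1) ∨
  (v.2.2 = 1 ∧ v.2.1 = p.K ∧ (v.1 = 0 ∨ v.1 = 2 ∨ v.1 = p.M))

def E (u v : Vt) : Prop :=
  (u.2.2 = 0 ∧ v.2.2 = 1 ∧ v.2.1 = u.2.1 ∧ (v.1 = u.1 ∨ (v.1 + 1 = u.1 ∧ u.2.1 < p.K))) ∨
  (1 ≤ u.2.2 ∧ u.2.2 ≤ 2 ∧ v.2.2 = u.2.2 + 1 ∧ v.2.1 = u.2.1 ∧ v.1 = u.1) ∨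
  (u.2.2 = 3 ∧ v.2.2 = 0 ∧ v.2.1 = u.2.1 + 1 ∧ (v.1 = u.1 ∨ v.1 = u.1 + 1)) ∨
  (u.2.2 = 3 ∧ v.2.2 = 1 ∧ v.2.1 = u.2.1 + 1 ∧ v.1 = u.1 ∧
    (p.cut u.1 v.2.1 ∨ p.cut (u.1 + 1) v.2.1)) ∨
  (u.2.2 = 0 ∧ v.2.2 = 0 ∧ v.2.1 = u.2.1 + 1 ∧ v.1 = u.1 ∧
    (u.1 = 0 ∨ u.1 = p.M ∨ p.rem u.1 u.2.1 ∨ p.rem (u.1 - 1) u.2.1)) ∨
  (u.2.2 = 0 ∧ v.2.2 = 0 ∧ v.2.1 = u.2.1 ∧ v.1 = u.1 + 1 ∧ p.rung u.1 u.2.1)

def Adj (u v : Vt) : Prop := p.Pv u ∧ p.Pv v ∧ (p.E u v ∨ p.E v u)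

variable {p}

theorem Adj.symm {u v : Vt} (h : p.Adj u v) : p.Adj v u := ⟨h.2.1, h.1, h.2.2.symm⟩

theorem E_ne {u v : Vt} (h : p.E u v) : u ≠ v := by
  rintro rfl
  unfold E at h
  omega

theorem Adj.sub (u v : Vt) (h : p.Adj u v) : p.Pv u ∧ p.Pv v ∧ u ≠ v :=
  ⟨h.1, h.2.1, h.2.2.elim E_ne fun k => (E_ne k).symm⟩

theorem cut_ax {i k : ℕ} (h : p.cut i k) : i % 11 = 5 ∧ 2 ≤ k ∧ k + 2 ≤ p.K := ⟨h.1, h.2.1, h.2.2.1⟩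

theorem rem_ax {j k : ℕ} (h : p.rem j k) :
    (j % 11 = 2 ∨ j % 11 = 7 ∨ (j % 11 = 10 ∧ k + 3 ≤ p.K)) ∧ 2 ≤ k ∧ k + 2 ≤ p.K := by
  have := p.hM
  unfold rem at h
  omega

theorem rem_lad {j k : ℕ} (h1 : j % 11 = 10) (h2 : 2 ≤ k) (h3 : k + 3 ≤ p.K) : p.rem j k :=
  ⟨h2, by omega, Or.inr (Or.inr ⟨h3, Or.inl h1⟩)⟩

theorem ncut {i k : ℕ} (h : ¬ (i % 11 = 5 ∧ 2 ≤ k ∧ k + 2 ≤ p.K)) : ¬ p.cut i k :=
  fun c => h (cut_ax c)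

theorem nrem {j k : ℕ}
    (h : ¬ ((j % 11 = 2 ∨ j % 11 = 7 ∨ (j % 11 = 10 ∧ k + 3 ≤ p.K)) ∧ 2 ≤ k ∧ k + 2 ≤ p.K)) :
    ¬ p.rem j k := fun c => h (rem_ax c)

theorem pS {i k : ℕ} : p.Pv (i, k, 0) ↔ i ≤ p.M ∧ k ≤ p.K ∧ ¬ p.cut i k := by
  simp [Pv]

theorem pB {j k h : ℕ} (h1 : 1 ≤ h) (h2 : h ≤ 3) (hk : k < p.K) :
    p.Pv (j, k, h) ↔ j < p.M ∧ ¬ p.rem j k := by
  have e1 : ¬ h = 0 := by omega
  have e2 : ¬ k = p.K := by omega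
  simp [Pv, h1, h2, hk, e1, e2]

theorem mkS {i k : ℕ} (h1 : i ≤ p.M) (h2 : k ≤ p.K) (h3 : ¬ p.cut i k) : p.Pv (i, k, 0) :=
  pS.2 ⟨h1, h2, h3⟩

theorem mkB {j k h : ℕ} (h1 : 1 ≤ h) (h2 : h ≤ 3) (hk : k < p.K) (h3 : j < p.M)
    (h4 : ¬ p.rem j k) : p.Pv (j, k, h) := (pB h1 h2 hk).2 ⟨h3, h4⟩

theorem pv_cases {v : Vt} (h : p.Pv v) :
    (∃ i k, v = (i, k, 0) ∧ i ≤ p.M ∧ k ≤ p.K ∧ ¬ p.cut i k) ∨
    (∃ j k g, v = (j, k, g) ∧ 1 ≤ g ∧ g ≤ 3 ∧ j < p.M ∧ k < p.K ∧ ¬ p.rem j k) ∨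
    ∃ i, v = (i, p.K, 1) ∧ (i = 0 ∨ i = 2 ∨ i = p.M) := by
  obtain ⟨i, k, g⟩ := v
  rcases h with ⟨h1, h2⟩ | h | ⟨h1, h2, h3⟩
  · exact Or.inl ⟨i, k, by simp only at h1; rw [h1], h2⟩
  · exact Or.inr (Or.inl ⟨i, k, g, rfl, h⟩)
  · exact Or.inr (Or.inr ⟨i, by simp only at h1 h2; rw [h1, h2], h3⟩)

/-! Edges -/

theorem aSB {i j k : ℕ} (a : p.Pv (i, k, 0)) (b : p.Pv (j, k, 1)) (hk : k < p.K)
    (h : j = i ∨ j + 1 = i) : p.Adj (i, k, 0) (j, k, 1) :=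
  ⟨a, b, Or.inl (Or.inl ⟨rfl, rfl, rfl, h.imp id fun e => ⟨e, hk⟩⟩)⟩

theorem aLeaf {i : ℕ} (h : i = 0 ∨ i = 2 ∨ i = p.M) : p.Adj (i, p.K, 0) (i, p.K, 1) := by
  have := p.hM
  exact ⟨mkS (by omega) le_rfl (ncut (by omega)), Or.inr (Or.inr ⟨rfl, rfl, h⟩),
    Or.inl (Or.inl ⟨rfl, rfl, rfl, Or.inl rfl⟩)⟩

theorem aBB {j k g : ℕ} (h1 : 1 ≤ g) (h2 : g ≤ 2) (hk : k < p.K) (h3 : j < p.M)
    (h4 : ¬ p.rem j k) : p.Adj (j, k, g) (j, k, g + 1) :=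
  ⟨mkB h1 (by omega) hk h3 h4, mkB (by omega) (by omega) hk h3 h4,
    Or.inl (Or.inr (Or.inl ⟨h1, h2, rfl, rfl, rfl⟩))⟩

theorem aBS {i j k : ℕ} (a : p.Pv (j, k, 3)) (b : p.Pv (i, k + 1, 0))
    (h : i = j ∨ i = j + 1) : p.Adj (j, k, 3) (i, k + 1, 0) :=
  ⟨a, b, Or.inl (Or.inr (Or.inr (Or.inl ⟨rfl, rfl, rfl, h⟩)))⟩

theorem aCut {j k : ℕ} (h1 : j < p.M) (h : p.cut j (k + 1) ∨ p.cut (j + 1) (k + 1)) :
    p.Adj (j, k, 3) (j, k + 1, 1) := by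
  have : (j % 11 = 5 ∨ j % 11 = 4) ∧ k + 3 ≤ p.K := by
    rcases h with h | h <;> have := cut_ax h <;> omega
  exact ⟨mkB (by omega) le_rfl (by omega) h1 (nrem (by omega)),
    mkB le_rfl (by omega) (by omega) h1 (nrem (by omega)),
    Or.inl (Or.inr (Or.inr (Or.inr (Or.inl ⟨rfl, rfl, rfl, rfl, h⟩))))⟩

theorem aRail {i k : ℕ} (a : p.Pv (i, k, 0)) (b : p.Pv (i, k + 1, 0))
    (h : i = 0 ∨ i = p.M ∨ p.rem i k ∨ p.rem (i - 1) k) : p.Adj (i, k, 0) (i, k + 1, 0) :=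
  ⟨a, b, Or.inl (Or.inr (Or.inr (Or.inr (Or.inr (Or.inl ⟨rfl, rfl, rfl, rfl, h⟩)))))⟩

theorem aRung {i k : ℕ} (h1 : i < p.M) (h : p.rung i k) : p.Adj (i, k, 0) (i + 1, k, 0) := by
  have h' := h
  unfold rung at h'
  exact ⟨mkS (by omega) (by omega) (ncut (by omega)), mkS (by omega) (by omega) (ncut (by omega)),
    Or.inl (Or.inr (Or.inr (Or.inr (Or.inr (Or.inr ⟨rfl, rfl, rfl, rfl, h⟩)))))⟩

/-! Neighbours -/

theorem nMid {j k : ℕ} (n : Vt) (h : p.Adj (j, k, 2) n) : n = (j, k, 1) ∨ n = (j, k, 3) := by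
  obtain ⟨a, b, c⟩ := n
  obtain ⟨-, -, h⟩ := h
  simp only [E, Prod.mk.injEq] at h ⊢
  omega

theorem nLeaf {i : ℕ} (n : Vt) (h : p.Adj (i, p.K, 1) n) : n = (i, p.K, 0) := by
  obtain ⟨a, b, c⟩ := n
  obtain ⟨-, h1, h⟩ := h
  simp only [E, Pv, Prod.mk.injEq] at h h1 ⊢
  rcases h with h | h | h | h | ⟨k1, -, k2, -, k3⟩ | h
  any_goals omega
  rcases k3 with k3 | k3 <;> have := cut_ax k3 <;> omega

theorem nHigh {j k : ℕ} (n : Vt) (h : p.Adj (j, k, 3) n) : n = (j, k, 2) ∨ n = (j, k + 1, 0) ∨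
    n = (j + 1, k + 1, 0) ∨ (n = (j, k + 1, 1) ∧ (p.cut j (k + 1) ∨ p.cut (j + 1) (k + 1))) := by
  obtain ⟨a, b, c⟩ := n
  obtain ⟨-, -, h⟩ := h
  simp only [E, Prod.mk.injEq] at h ⊢
  rcases h with (h | h | h | ⟨-, k1, k2, k3, k4⟩ | h | h) | h
  any_goals omega
  rw [k2] at k4
  exact Or.inr (Or.inr (Or.inr ⟨⟨k3, k2, k1⟩, k4⟩))

theorem nSig {i k : ℕ} (n : Vt) (h : p.Adj (i, k, 0) n) :
    n = (i, k, 1) ∨ (1 ≤ i ∧ n = (i - 1, k, 1)) ∨ n = (i, k + 1, 0) ∨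
    (1 ≤ k ∧ (n = (i, k - 1, 3) ∨ (1 ≤ i ∧ n = (i - 1, k - 1, 3)) ∨ n = (i, k - 1, 0))) ∨
    (n = (i + 1, k, 0) ∧ p.rung i k) ∨ (1 ≤ i ∧ n = (i - 1, k, 0) ∧ p.rung (i - 1) k) := by
  obtain ⟨a, b, c⟩ := n
  obtain ⟨-, -, h⟩ := h
  dsimp only [E] at h
  rcases h with (⟨-, rfl, rfl, rfl | ⟨rfl, -⟩⟩ | h | h | h | ⟨-, rfl, rfl, rfl, -⟩ |
    ⟨-, rfl, rfl, rfl, h⟩) | (h | h | ⟨rfl, -, rfl, rfl | rfl⟩ | h | ⟨rfl, -, rfl, rfl, -⟩ |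
    ⟨rfl, -, rfl, rfl, h⟩)
  any_goals omega
  all_goals simp_all

/-! Chains -/

theorem _root_.Pool.Agent.H689Z.UBV.Chain.mono {V : Type} {A : V → V → Prop} {S S' : V → Prop}
    {u v : V} (h : Chain A S u v) (hS : ∀ w, S w → S' w) : Chain A S' u v := by
  induction h with
  | refl => exact Relation.ReflTransGen.refl
  | tail _ k ih => exact Relation.ReflTransGen.tail ih ⟨k.1, hS _ k.2.1, hS _ k.2.2⟩

theorem chain_symm {S : Vt → Prop} {u v : Vt} (h : Chain p.Adj S u v) : Chain p.Adj S v u := by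
  induction h with
  | refl => exact Relation.ReflTransGen.refl
  | tail _ k ih => exact Relation.ReflTransGen.head ⟨k.1.symm, k.2.2, k.2.1⟩ ih

theorem chain_one {S : Vt → Prop} {u v : Vt} (h : p.Adj u v) (a : S u) (b : S v) :
    Chain p.Adj S u v := Relation.ReflTransGen.single ⟨h, a, b⟩

theorem chain_trans {S : Vt → Prop} {u v w : Vt} (h : Chain p.Adj S u v)
    (h' : Chain p.Adj S v w) : Chain p.Adj S u w := Relation.ReflTransGen.trans h h'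

variable (p) in
/-- The boundary. -/
def Bd (v : Vt) : Prop :=
  v.2.1 = p.K ∨ (v.2.2 = 0 ∧ (v.1 = 0 ∨ v.1 = p.M ∨ v.2.1 = 0))

theorem chain_row {k : ℕ} (hk : k = 0 ∨ k = p.K) (a : ℕ) : ∀ b, a ≤ b → b ≤ p.M →
    Chain p.Adj (fun v => v.2.2 = 0 ∧ v.2.1 = k ∧ a ≤ v.1 ∧ v.1 ≤ b) (a, k, 0) (b, k, 0) := by
  intro b hab
  induction b, hab using Nat.le_induction with
  | base => exact fun _ => Relation.ReflTransGen.refl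
  | succ b hab ih =>
    intro hb
    refine chain_trans ((ih (by omega)).mono fun w hw => by omega)
      (chain_one (aRung (by omega) (hk.imp id Or.inl)) ?_ ?_) <;> dsimp only <;> omega

theorem chain_col {i : ℕ} (hi : i = 0 ∨ i = p.M) : ∀ k, k ≤ p.K →
    Chain p.Adj (fun v => v.2.2 = 0 ∧ v.1 = i) (i, 0, 0) (i, k, 0) := by
  have := p.hM
  intro k
  induction k with
  | zero => exact fun _ => Relation.ReflTransGen.refl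
  | succ k ih =>
    intro hk
    exact chain_trans (ih (by omega)) (chain_one (aRail (mkS (by omega) (by omega) (ncut (by omega)))
      (mkS (by omega) hk (ncut (by omega))) (hi.imp id Or.inl)) ⟨rfl, rfl⟩ ⟨rfl, rfl⟩)

theorem chain_top {k : ℕ} (hk : k + 1 = p.K) : ∀ j, j < p.M →
    Chain p.Adj (fun v => ¬ p.Bd v) (j, k, 1) (0, k, 1) := by
  have := p.hK
  intro j
  induction j with
  | zero => exact fun _ => Relation.ReflTransGen.refl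
  | succ j ih =>
    intro hj
    have a : p.Pv (j + 1, k, 0) := mkS (by omega) (by omega) (ncut (by omega))
    refine chain_trans (chain_trans (chain_one (aSB a (mkB le_rfl (by omega) (by omega) hj
      (nrem (by omega))) (by omega) (Or.inl rfl)).symm ?_ ?_) (chain_one (aSB a (mkB le_rfl
      (by omega) (by omega) (by omega) (nrem (by omega))) (by omega) (Or.inr rfl)) ?_ ?_))
      (ih (by omega)) <;> dsimp only [Bd] <;> omega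

theorem chain_buf {j k : ℕ} (hk : k < p.K) (h3 : j < p.M) (h4 : ¬ p.rem j k) (g : ℕ) (h1 : 1 ≤ g)
    (h2 : g ≤ 3) : Chain p.Adj (fun v => ¬ p.Bd v) (j, k, g) (j, k, 1) := by
  have c : ∀ g, 1 ≤ g → g ≤ 2 → Chain p.Adj (fun v => ¬ p.Bd v) (j, k, g + 1) (j, k, g) := by
    intro g a b
    refine chain_one (aBB a b hk h3 h4).symm ?_ ?_ <;> dsimp only [Bd] <;> omega
  obtain rfl | rfl | rfl : g = 1 ∨ g = 2 ∨ g = 3 := by omega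
  · exact Relation.ReflTransGen.refl
  · exact c 1 le_rfl (by omega)
  · exact chain_trans (c 2 (by omega) le_rfl) (c 1 le_rfl (by omega))

theorem exists_above {i k : ℕ} (h1 : i ≤ p.M) :
    ∃ j, (j = i ∨ j + 1 = i) ∧ j < p.M ∧ ¬ p.rem j k := by
  have := p.hM
  by_cases h : i < p.M ∧ ¬ p.rem i k
  · exact ⟨i, Or.inl rfl, h⟩
  · have : i = p.M ∨ (i % 11 = 2 ∨ i % 11 = 7 ∨ i % 11 = 10) := by
      by_cases h2 : p.rem i k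
      · have := rem_ax h2; omega
      · have : ¬ i < p.M := fun e => h ⟨e, h2⟩
        omega
    exact ⟨i - 1, by omega, by omega, nrem (by omega)⟩

theorem chain_hub {k0 : ℕ} (hk : k0 + 1 = p.K) : ∀ d k, k + d = k0 →
    (∀ j g, 1 ≤ g → g ≤ 3 → j < p.M → ¬ p.rem j k →
      Chain p.Adj (fun v => ¬ p.Bd v) (j, k, g) (0, k0, 1)) ∧
    ∀ i, 1 ≤ i → i < p.M → 1 ≤ k → ¬ p.cut i k →
      Chain p.Adj (fun v => ¬ p.Bd v) (i, k, 0) (0, k0, 1) := by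
  have := p.hM
  have sig : ∀ k, k ≤ k0 → (∀ j g, 1 ≤ g → g ≤ 3 → j < p.M → ¬ p.rem j k →
      Chain p.Adj (fun v => ¬ p.Bd v) (j, k, g) (0, k0, 1)) →
      ∀ i, 1 ≤ i → i < p.M → 1 ≤ k → ¬ p.cut i k →
      Chain p.Adj (fun v => ¬ p.Bd v) (i, k, 0) (0, k0, 1) := by
    intro k hk0 h i a1 a2 a3 a4
    obtain ⟨j, b1, b2, b3⟩ := exists_above (p := p) (k := k) a2.le
    refine chain_trans (chain_one (aSB (mkS a2.le (by omega) a4) (mkB le_rfl (by omega) (by omega)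
      b2 b3) (by omega) b1) ?_ ?_) (h j 1 le_rfl (by omega) b2 b3) <;> dsimp only [Bd] <;> omega
  intro d
  induction d with
  | zero =>
    intro k e
    obtain rfl : k = k0 := by omega
    have h : ∀ j g, 1 ≤ g → g ≤ 3 → j < p.M → ¬ p.rem j k →
        Chain p.Adj (fun v => ¬ p.Bd v) (j, k, g) (0, k, 1) := fun j g a1 a2 a3 a4 =>
      chain_trans (chain_buf (by omega) a3 a4 g a1 a2) (chain_top hk j a3)
    exact ⟨h, sig k le_rfl h⟩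
  | succ d ih =>
    intro k e
    obtain ⟨-, ih⟩ := ih (k + 1) (by omega)
    have h : ∀ j g, 1 ≤ g → g ≤ 3 → j < p.M → ¬ p.rem j k →
        Chain p.Adj (fun v => ¬ p.Bd v) (j, k, g) (0, k0, 1) := by
      intro j g a1 a2 a3 a4
      obtain ⟨i, b1, b2, b3, b4⟩ : ∃ i, (i = j ∨ i = j + 1) ∧ 1 ≤ i ∧ i < p.M ∧ ¬ i % 11 = 5 := by
        by_cases e : j % 11 = 0 ∨ j % 11 = 5
        · exact ⟨j + 1, by omega⟩
        · exact ⟨j, by omega⟩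
      refine chain_trans (chain_trans (chain_buf (by omega) a3 a4 g a1 a2)
        (chain_symm (chain_buf (by omega) a3 a4 3 (by omega) le_rfl)))
        (chain_trans (chain_one (aBS (mkB (by omega) le_rfl (by omega) a3 a4)
          (mkS b3.le (by omega) (ncut (by omega))) b1) ?_ ?_)
          (ih i b2 b3 (by omega) (ncut (by omega)))) <;> dsimp only [Bd] <;> omega
    exact ⟨h, sig k (by omega) h⟩

theorem chain_leaf {v : Vt} (hv : p.Pv v) (hb : ¬ p.Bd v) {x : ℕ} (hx : x = 0 ∨ x = 2 ∨ x = p.M) :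
    Chain p.Adj (fun w => ¬ (p.Bd w ∧ ¬ (w.1 = x ∧ w.2.1 = p.K))) v (x, p.K, 1) := by
  have := p.hM
  have := p.hK
  obtain ⟨k0, hk⟩ : ∃ k0, k0 + 1 = p.K := ⟨p.K - 1, by omega⟩
  have c1 : Chain p.Adj (fun v => ¬ p.Bd v) v (0, k0, 1) := by
    rcases pv_cases hv with ⟨i, k, rfl, a1, a2, a3⟩ | ⟨j, k, g, rfl, a1, a2, a3, a4, a5⟩ |
      ⟨i, rfl, -⟩
    · dsimp only [Bd] at hb
      exact (chain_hub hk (k0 - k) k (by omega)).2 i (by omega) (by omega) (by omega) a3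
    · exact (chain_hub hk (k0 - k) k (by omega)).1 j g a1 a2 a3 a5
    · exact absurd (Or.inl rfl) hb
  obtain ⟨j, b1, b2⟩ : ∃ j, (x = j ∨ x = j + 1) ∧ j < p.M := by
    by_cases e : x = p.M
    · exact ⟨x - 1, by omega⟩
    · exact ⟨x, by omega⟩
  have c2 := chain_symm ((chain_hub hk 0 k0 rfl).1 j 3 (by omega) le_rfl b2 (nrem (by omega)))
  have a3 : p.Adj (j, k0, 3) (x, p.K, 0) := by
    rw [← hk]
    exact aBS (mkB (by omega) le_rfl (by omega) b2 (nrem (by omega)))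
      (mkS (by omega) (by omega) (ncut (by omega))) b1
  refine chain_trans ((chain_trans c1 c2).mono fun w hw k => hw k.1)
    (chain_trans (chain_one a3 ?_ ?_) (chain_one (aLeaf hx) ?_ ?_)) <;> dsimp only [Bd] <;> omega

theorem chain_bd {x a b : ℕ} (h : (x = p.M ∧ a = 0 ∧ b = 2) ∨ (x = 2 ∧ a = 0 ∧ b = p.M) ∨
    (x = 0 ∧ a = 2 ∧ b = p.M)) :
    Chain p.Adj (fun w => p.Bd w ∧ ¬ (w.1 = x ∧ w.2.1 = p.K)) (a, p.K, 1) (b, p.K, 1) := by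
  have := p.hM
  have := p.hK
  have c : Chain p.Adj (fun w => p.Bd w ∧ ¬ (w.1 = x ∧ w.2.1 = p.K)) (a, p.K, 0) (b, p.K, 0) := by
    rcases h with ⟨h1, rfl, rfl⟩ | ⟨rfl, rfl, rfl⟩ | ⟨rfl, rfl, rfl⟩
    · exact (chain_row (Or.inr rfl) 0 2 (by omega) (by omega)).mono fun w hw => by
        dsimp only [Bd]; omega
    · refine chain_trans ((chain_symm (chain_col (Or.inl rfl) p.K le_rfl)).mono ?_)
        (chain_trans ((chain_row (Or.inl rfl) 0 p.M (by omega) le_rfl).mono ?_)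
          ((chain_col (Or.inr rfl) p.K le_rfl).mono ?_)) <;> intro w hw <;> dsimp only [Bd] <;> omega
    · exact (chain_row (Or.inr rfl) 2 p.M (by omega) le_rfl).mono fun w hw => by
        dsimp only [Bd]; omega
  refine chain_trans (chain_one (aLeaf (by omega)).symm ?_ ?_)
    (chain_trans c (chain_one (aLeaf (by omega)) ?_ ?_)) <;> dsimp only [Bd] <;> omega

end Pat

end Pool.Agent.H689Z.UBV
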