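import Pool.Agent.H689Z.UBV.Disc
import Pool.Agent.H671R2.OrdNP2

set_option autoImplicit false

/-! Membership in `NP`. -/

namespace Pool.Agent.H689Z.UBV

open Pool.Agent.NPC Pool.Agent.NPC.R671 Pool.Agent.H671R2.Ord

def cX (w : List (ℕ × ℕ)) (i : ℕ) : ℕ := (w.getD i (0, 0)).1

def cY (w : List (ℕ × ℕ)) (i : ℕ) : ℕ := (w.getD i (0, 0)).2

@[fun_prop] theorem cX_poly {α : Type} [TEnc α] {w : α → List (ℕ × ℕ)} {i : α → ℕ} (h1 : Poly w)
    (h2 : Poly i) : Poly (fun x => cX (w x) (i x)) := by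
  unfold cX
  fun_prop

@[fun_prop] theorem cY_poly {α : Type} [TEnc α] {w : α → List (ℕ × ℕ)} {i : α → ℕ} (h1 : Poly w)
    (h2 : Poly i) : Poly (fun x => cY (w x) (i x)) := by
  unfold cY
  fun_prop

def blk (w : List (ℕ × ℕ)) (i j T k : ℕ) : Bool :=
  !(decide (cX w k ≤ T) && (decide (T < cX w k + (w.length + 1)) &&
    (decide (min (cY w i) (cY w j) < cY w k) && decide (cY w k < max (cY w i) (cY w j)))))

def col (w : List (ℕ × ℕ)) (i j T : ℕ) : Bool :=
  decide (cX w j ≤ T) && (decide (T < cX w j + (w.length + 1)) &&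
    (List.range w.length).all (fun k => blk w i j T k))

def vis (w : List (ℕ × ℕ)) (i j : ℕ) : Bool :=
  (List.range (w.length + 1)).any (fun t => col w i j (cX w i + t))

def tst (M : List (List Bool)) (w : List (ℕ × ℕ)) (i j : ℕ) : Bool :=
  decide (i = j) || ((!decide (cY w i = cY w j) ||
    (decide (cX w i + (w.length + 1) < cX w j) || decide (cX w j + (w.length + 1) < cX w i))) &&
    decide (me M i j = vis w i j))

def R (x : List (List Bool) × List (ℕ × ℕ)) : Bool :=
  wf x.1 && ((decide (x.2.length = x.1.length) &&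
    x.2.all (fun a => decide (a.1 ≤ (x.2.length + 1) * (2 * x.2.length + 1)) &&
      decide (a.2 ≤ x.2.length))) &&
    (List.range x.2.length).all (fun i => (List.range x.2.length).all (fun j =>
      tst x.1 x.2 i j)))

attribute [local irreducible] cX cY me

theorem blk_poly : Poly (fun x : (List (ℕ × ℕ) × ℕ × ℕ × ℕ) × ℕ =>
    blk x.1.1 x.1.2.1 x.1.2.2.1 x.1.2.2.2 x.2) := by
  unfold blk
  fun_prop

attribute [local irreducible] blk

theorem col_poly : Poly (fun x : List (ℕ × ℕ) × ℕ × ℕ × ℕ => col x.1 x.2.1 x.2.2.1 x.2.2.2) := by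
  unfold col
  have h1 : UPoly (fun x : List (ℕ × ℕ) × ℕ × ℕ × ℕ => x.1.length) :=
    UPoly.length (by fun_prop)
  refine NPC.Poly.and (by fun_prop) (NPC.Poly.and (by fun_prop) ?_)
  exact NPC.Poly.all (l := fun x : List (ℕ × ℕ) × ℕ × ℕ × ℕ => List.range x.1.length)
    (p := fun x k => blk x.1 x.2.1 x.2.2.1 x.2.2.2 k) h1.range blk_poly

attribute [local irreducible] col

theorem vis_poly : Poly (fun x : List (ℕ × ℕ) × ℕ × ℕ => vis x.1 x.2.1 x.2.2) := by
  unfold vis
  have h1 : UPoly (fun x : List (ℕ × ℕ) × ℕ × ℕ => x.1.length + 1) :=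
    (UPoly.length (by fun_prop)).add (UPoly.const 1)
  refine NPC.Poly.any (l := fun x : List (ℕ × ℕ) × ℕ × ℕ => List.range (x.1.length + 1))
    (p := fun x t => col x.1 x.2.1 x.2.2 (cX x.1 x.2.1 + t)) h1.range ?_
  exact col_poly.comp (f := fun y : (List (ℕ × ℕ) × ℕ × ℕ) × ℕ =>
    (y.1.1, y.1.2.1, y.1.2.2, cX y.1.1 y.1.2.1 + y.2)) (by fun_prop)

attribute [local irreducible] vis

theorem tst_poly : Poly (fun x : ((List (List Bool) × List (ℕ × ℕ)) × ℕ) × ℕ =>
    tst x.1.1.1 x.1.1.2 x.1.2 x.2) := by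
  unfold tst
  have : Poly (fun x : ((List (List Bool) × List (ℕ × ℕ)) × ℕ) × ℕ => vis x.1.1.2 x.1.2 x.2) :=
    vis_poly.comp (f := fun x : ((List (List Bool) × List (ℕ × ℕ)) × ℕ) × ℕ =>
      (x.1.1.2, x.1.2, x.2)) (by fun_prop)
  fun_prop

attribute [local irreducible] tst

theorem R_poly : Poly R := by
  unfold R
  have h1 : UPoly (fun x : List (List Bool) × List (ℕ × ℕ) => x.2.length) :=
    UPoly.length (by fun_prop)
  refine NPC.Poly.and (wf_poly.comp (by fun_prop)) (NPC.Poly.and (by fun_prop) ?_)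
  exact all2_poly (α := List (List Bool) × List (ℕ × ℕ)) (m := fun x => x.2.length) h1
    (F := fun x i j => tst x.1 x.2 i j) tst_poly

theorem vis_iff {n : ℕ} (w : List (ℕ × ℕ)) (hw : w.length = n) (u v : Fin n) :
    vis w u v = true ↔ ∃ T : ℤ, ((cX w u : ℤ) ≤ T ∧ T < cX w u + ((n + 1 : ℕ) : ℤ)) ∧
      ((cX w v : ℤ) ≤ T ∧ T < cX w v + ((n + 1 : ℕ) : ℤ)) ∧ ∀ k : Fin n, True →
        (cX w k : ℤ) ≤ T → T < cX w k + ((n + 1 : ℕ) : ℤ) →
        ¬ (min (cY w u : ℤ) (cY w v) < cY w k ∧ (cY w k : ℤ) < max (cY w u : ℤ) (cY w v)) := by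
  unfold vis col blk
  simp only [hw, List.any_eq_true, List.mem_range, Bool.and_eq_true, decide_eq_true_eq,
    List.all_eq_true, Bool.not_eq_true', Bool.and_eq_false_iff, decide_eq_false_iff_not]
  constructor
  · rintro ⟨t, h1, h2, h3, h4⟩
    refine ⟨(cX w u + t : ℕ), by omega, by omega, fun k _ a1 a2 => ?_⟩
    have := h4 k k.isLt
    omega
  · rintro ⟨T, h1, h2, h3⟩
    refine ⟨(T - cX w u).toNat, by omega, by omega, by omega, fun k hk => ?_⟩
    have := h3 ⟨k, hk⟩ trivial
    simp only at this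
    omega

theorem correct {n : ℕ} (G : SimpleGraph (Fin n)) :
    IsUBVGraph G ↔ ∃ w, R (adjMatrix G, w) = true := by
  have key : ∀ w : List (ℕ × ℕ), w.length = n →
      ((∀ i < n, ∀ j < n, tst (adjMatrix G) w i j = true) ↔
        Rep (fun _ => True) G.Adj ((n + 1 : ℕ) : ℤ) (fun v => cX w v) (fun v => cY w v)) := by
    intro w hw
    unfold tst
    simp only [Bool.or_eq_true, Bool.and_eq_true, decide_eq_true_eq, Bool.not_eq_true',
      decide_eq_false_iff_not, hw]
    constructor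
    · intro h
      refine ⟨by positivity, fun u v _ _ huv hy => ?_, fun u v _ _ huv => ?_⟩
      · rcases h u u.isLt v v.isLt with h1 | ⟨h1, -⟩
        · exact absurd (Fin.ext h1) huv
        · beta_reduce at hy ⊢
          omega
      · rcases h u u.isLt v v.isLt with h1 | ⟨-, h1⟩
        · exact absurd (Fin.ext h1) huv
        · rw [← me_adj, h1, vis_iff w hw]
    · intro h i hi j hj
      by_cases hij : i = j
      · exact Or.inl hij
      · have huv : (⟨i, hi⟩ : Fin n) ≠ ⟨j, hj⟩ := fun e => hij (congrArg Fin.val e)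
        refine Or.inr ⟨?_, ?_⟩
        · have := h.disj _ _ trivial trivial huv
          simp only at this
          omega
        · have h1 := h.adj _ _ trivial trivial huv
          rw [← me_adj, ← vis_iff w hw] at h1
          exact Bool.eq_iff_iff.2 h1
  simp only [R, Bool.and_eq_true, decide_eq_true_eq, List.all_eq_true, List.mem_range,
    length_adjMatrix]
  constructor
  · intro h
    obtain ⟨X, Y, h1, h2⟩ := exists_rep h
    have hl : (List.ofFn fun v => (X v, Y v)).length = n := List.length_ofFn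
    refine ⟨List.ofFn fun v => (X v, Y v), (wf_iff _).2 ⟨n, G, rfl⟩, ⟨hl, ?_⟩, ?_⟩
    · intro a ha
      rw [List.mem_ofFn] at ha
      obtain ⟨i, rfl⟩ := ha
      rw [hl]
      exact h1 i
    · rw [hl, key _ hl]
      convert h2 using 2 <;> rename_i v <;> simp [cX, cY, List.getD_eq_getElem?_getD]
  · rintro ⟨w, -, ⟨h1, -⟩, h2⟩
    rw [h1, key _ h1] at h2
    exact h2.toReal

theorem cert_short {M : List (List Bool)} {w : List (ℕ × ℕ)} (h : R (M, w) = true) :
    sz w ≤ (40 * (Polynomial.X + 1) ^ 3 : Polynomial ℕ).eval (sz M) := by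
  simp only [R, Bool.and_eq_true, decide_eq_true_eq, List.all_eq_true, List.mem_range] at h
  obtain ⟨_, ⟨h4, hlt⟩, _⟩ := h
  have hsz : ∀ a ∈ w, sz a ≤ 4 * ((w.length + 1) * (2 * w.length + 1)) + 4 * w.length + 3 := by
    rintro ⟨a, b⟩ ha
    have h1 := sz_nat_le a
    have h2 := Poly.size_le_self a
    have h1' := sz_nat_le b
    have h2' := Poly.size_le_self b
    have h3 := hlt _ ha
    rw [sz_pair]
    simp only at h3
    omega
  have h5 := sz_le_length_mul w _ hsz
  have h1 : w.length ≤ sz M := h4 ▸ (length_lt_sz M).le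
  simp only [Polynomial.eval_add, Polynomial.eval_mul, Polynomial.eval_pow, Polynomial.eval_X,
    Polynomial.eval_ofNat, Polynomial.eval_one]
  have h6 : (w.length + 1) ^ 3 ≤ (sz M + 1) ^ 3 := Nat.pow_le_pow_left (by omega) 3
  generalize w.length = l at *
  nlinarith [Nat.zero_le (l * l), Nat.zero_le (l * l * l)]

theorem inNPP_UBVG : InNPP UBVG := by
  refine inNPP_of (R := R) R_poly (40 * (Polynomial.X + 1) ^ 3) fun M => ?_
  constructor
  · rintro ⟨n, G, rfl, h⟩
    obtain ⟨w, hw⟩ := (correct G).1 h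
    exact ⟨w, cert_short hw, hw⟩
  · rintro ⟨w, -, hw⟩
    have h1 : wf M = true := by
      simp only [R, Bool.and_eq_true] at hw
      exact hw.1
    obtain ⟨n, G, rfl⟩ := (wf_iff _).1 h1
    exact ⟨n, G, rfl, (correct G).2 ⟨w, hw⟩⟩

end Pool.Agent.H689Z.UBV
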