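import Pool.Agent.H689Z.UBV.Sound2
import Pool.Agent.H689Z.UBV.Compl2
import Pool.Agent.H689Z.UBV.NP
import Pool.Agent.NPC.Sat2

set_option autoImplicit false

/-! The reduction from 3SAT. -/

namespace Pool.Agent.H689Z.UBV

open Pool.Agent.NPC Pool.Agent.NPC.R671

theorem Rep.comap {V W : Type} {P : V → Prop} {A : V → V → Prop} {A' : W → W → Prop} {D : ℤ}
    {X Y : V → ℤ} (f : W → V) (hf : Function.Injective f) (hP : ∀ v, P v ↔ ∃ w, f w = v)
    (hA : ∀ a b, A' a b ↔ A (f a) (f b)) :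
    Rep P A D X Y ↔ Rep (fun _ => True) A' D (fun w => X (f w)) (fun w => Y (f w)) := by
  have h0 : ∀ w, P (f w) := fun w => (hP _).2 ⟨w, rfl⟩
  have h1 : ∀ Q : V → Prop, (∀ v, P v → Q v) ↔ ∀ w, True → Q (f w) := fun Q =>
    ⟨fun h w _ => h _ (h0 w), fun h v hv => by
      obtain ⟨w, rfl⟩ := (hP v).1 hv
      exact h w trivial⟩
  constructor
  · intro h
    refine ⟨h.pos, fun u v _ _ c => h.disj _ _ (h0 u) (h0 v) (hf.ne c), fun u v _ _ c => ?_⟩
    rw [hA, h.adj _ _ (h0 u) (h0 v) (hf.ne c)]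
    simp only [h1]
  · intro h
    refine ⟨h.pos, fun u v a b c => ?_, fun u v a b c => ?_⟩ <;>
      obtain ⟨u, rfl⟩ := (hP u).1 a <;> obtain ⟨v, rfl⟩ := (hP v).1 b
    · exact h.disj u v trivial trivial fun e => c (by rw [e])
    · rw [← hA, h.adj u v trivial trivial fun e => c (by rw [e])]
      simp only [h1]

theorem ubv_listGraph {Λ : Type} (vs : List Λ) (hn : vs.Nodup) (ad : Λ → Λ → Bool)
    (hs : ∀ a b, ad a b = ad b a) (hi : ∀ a, ad a a = false) {P : Λ → Prop} {A : Λ → Λ → Prop}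
    (hP : ∀ v, P v ↔ v ∈ vs) (hA : ∀ a b, ad a b = true ↔ A a b) :
    IsUBVGraph (listGraph vs ad hs hi) ↔ ∃ D X Y, Rep P A D X Y := by
  have inj : Function.Injective fun i : Fin vs.length => vs[i] := fun i j h =>
    Fin.ext ((List.Nodup.getElem_inj_iff hn).1 h)
  have hP' : ∀ v, P v ↔ ∃ w : Fin vs.length, vs[w] = v := fun v => by
    rw [hP, List.mem_iff_getElem]
    exact ⟨fun ⟨i, h, e⟩ => ⟨⟨i, h⟩, e⟩, fun ⟨i, e⟩ => ⟨i.1, i.2, e⟩⟩
  have key := fun D X Y => Rep.comap (A := A) (A' := (listGraph vs ad hs hi).Adj) (D := D)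
    (X := X) (Y := Y) _ inj hP' fun a b => hA _ _
  constructor
  · intro h
    obtain ⟨X, Y, -, h⟩ := exists_rep h
    refine ⟨((vs.length + 1 : ℕ) : ℤ),
      Function.extend (fun i : Fin vs.length => vs[i]) (fun v => (X v : ℤ)) 0,
      Function.extend (fun i : Fin vs.length => vs[i]) (fun v => (Y v : ℤ)) 0, (key _ _ _).2 ?_⟩
    simp only [inj.extend_apply]
    exact h
  · rintro ⟨D, X, Y, h⟩
    exact ((key _ _ _).1 h).toReal

abbrev Cl : Type := Lit ℕ × Lit ℕ × Lit ℕ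

def cl (φ : List Cl) (j : ℕ) : Cl := φ.getD j ((true, 0), (true, 0), (true, 0))

def LB (φ : List Cl) (c t : ℕ) : Bool :=
  (decide (t % 2 = 0) && decide (c / 2 = t / 2 % (3 * φ.length))) ||
  (decide (t % 2 = 1) && (decide ((decide (c % 2 = 1), c / 2) = (cl φ (t / 2 % φ.length)).1) ||
    (decide ((decide (c % 2 = 1), c / 2) = (cl φ (t / 2 % φ.length)).2.1) ||
    decide ((decide (c % 2 = 1), c / 2) = (cl φ (t / 2 % φ.length)).2.2))))

def pat (φ : List Cl) : Pat :=
  ⟨6 * φ.length, 11 * (6 * φ.length) + 10, 84 * φ.length + 6, fun c t => LB φ c t = true, rfl,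
    by omega⟩

def mM (φ : List Cl) : ℕ := 11 * (6 * φ.length) + 10

def mK (φ : List Cl) : ℕ := 84 * φ.length + 6

def EfB (φ : List Cl) (c k : ℕ) : Bool :=
  decide ((k + 2 * c + 4) % 7 = 0) || (decide ((k + 2 * c + 4) % 7 = 1) ||
    (decide ((k + 2 * c + 4) % 7 = 5) ||
    (decide ((k + 2 * c + 4) % 7 = 4) && !LB φ c ((k + 2 * c + 4) / 7))))

def cutB (φ : List Cl) (i k : ℕ) : Bool :=
  decide (i % 11 = 5) && (decide (2 ≤ k) && (decide (k + 2 ≤ mK φ) &&
    !decide ((k + 2 * (i / 11) + 4) % 7 = 6)))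

def remB (φ : List Cl) (j k : ℕ) : Bool :=
  decide (2 ≤ k) && (decide (k + 2 ≤ mK φ) && (decide (j = 2) || (decide (j + 3 = mM φ) ||
    (decide (k + 3 ≤ mK φ) && (decide (j % 11 = 10) ||
    ((decide (j % 11 = 2) && EfB φ (j / 11 - 1) k) ||
    (decide (j % 11 = 7) && !EfB φ (j / 11) k)))))))

def rungB (φ : List Cl) (i k : ℕ) : Bool :=
  decide (k = 0) || (decide (k = mK φ) ||
    (decide (i % 11 = 10) && (decide (2 ≤ k) && decide (k + 2 ≤ mK φ))))

def PvB (φ : List Cl) (v : Vt) : Bool :=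
  (decide (v.2.2 = 0) && (decide (v.1 ≤ mM φ) && (decide (v.2.1 ≤ mK φ) &&
    !cutB φ v.1 v.2.1))) ||
  ((decide (1 ≤ v.2.2) && (decide (v.2.2 ≤ 3) && (decide (v.1 < mM φ) &&
    (decide (v.2.1 < mK φ) && !remB φ v.1 v.2.1)))) ||
  (decide (v.2.2 = 1) && (decide (v.2.1 = mK φ) &&
    (decide (v.1 = 0) || (decide (v.1 = 2) || decide (v.1 = mM φ))))))

def E1 (φ : List Cl) (u v : Vt) : Bool :=
  decide (u.2.2 = 0) && (decide (v.2.2 = 1) && (decide (v.2.1 = u.2.1) &&
    (decide (v.1 = u.1) || (decide (v.1 + 1 = u.1) && decide (u.2.1 < mK φ)))))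

def E2 (u v : Vt) : Bool :=
  decide (1 ≤ u.2.2) && (decide (u.2.2 ≤ 2) && (decide (v.2.2 = u.2.2 + 1) &&
    (decide (v.2.1 = u.2.1) && decide (v.1 = u.1))))

def E3 (u v : Vt) : Bool :=
  decide (u.2.2 = 3) && (decide (v.2.2 = 0) && (decide (v.2.1 = u.2.1 + 1) &&
    (decide (v.1 = u.1) || decide (v.1 = u.1 + 1))))

def E4 (φ : List Cl) (u v : Vt) : Bool :=
  decide (u.2.2 = 3) && (decide (v.2.2 = 1) && (decide (v.2.1 = u.2.1 + 1) &&
    (decide (v.1 = u.1) && (cutB φ u.1 v.2.1 || cutB φ (u.1 + 1) v.2.1))))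

def E5 (φ : List Cl) (u v : Vt) : Bool :=
  decide (u.2.2 = 0) && (decide (v.2.2 = 0) && (decide (v.2.1 = u.2.1 + 1) &&
    (decide (v.1 = u.1) && (decide (u.1 = 0) || (decide (u.1 = mM φ) ||
    (remB φ u.1 u.2.1 || remB φ (u.1 - 1) u.2.1))))))

def E6 (φ : List Cl) (u v : Vt) : Bool :=
  decide (u.2.2 = 0) && (decide (v.2.2 = 0) && (decide (v.2.1 = u.2.1) &&
    (decide (v.1 = u.1 + 1) && rungB φ u.1 u.2.1)))

def EB (φ : List Cl) (u v : Vt) : Bool :=
  E1 φ u v || (E2 u v || (E3 u v || (E4 φ u v || (E5 φ u v || E6 φ u v))))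

def adB (φ : List Cl) (u v : Vt) : Bool := PvB φ u && (PvB φ v && (EB φ u v || EB φ v u))

def vs (φ : List Cl) : List Vt :=
  ((List.range (mM φ + 1)) ×ˢ ((List.range (mK φ + 1)) ×ˢ [0, 1, 2, 3])).filter (PvB φ)

theorem EfB_iff (φ : List Cl) (c k : ℕ) : EfB φ c k = true ↔ (pat φ).Ef c k := by
  simp [EfB, Pat.Ef, pat]

theorem cutB_iff (φ : List Cl) (i k : ℕ) : cutB φ i k = true ↔ (pat φ).cut i k := by
  simp [cutB, Pat.cut, pat, mK]

theorem remB_iff (φ : List Cl) (i k : ℕ) : remB φ i k = true ↔ (pat φ).rem i k := by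
  simp only [remB, Pat.rem, ← EfB_iff, Bool.and_eq_true, Bool.or_eq_true, decide_eq_true_eq,
    Bool.not_eq_true', Bool.not_eq_true]
  rfl

theorem rungB_iff (φ : List Cl) (i k : ℕ) : rungB φ i k = true ↔ (pat φ).rung i k := by
  simp only [rungB, Pat.rung, Bool.and_eq_true, Bool.or_eq_true, decide_eq_true_eq]
  rfl

theorem PvB_iff (φ : List Cl) (v : Vt) : PvB φ v = true ↔ (pat φ).Pv v := by
  simp only [PvB, Pat.Pv, ← cutB_iff, ← remB_iff, Bool.and_eq_true, Bool.or_eq_true,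
    decide_eq_true_eq, Bool.not_eq_true', Bool.not_eq_true]
  rfl

theorem EB_iff (φ : List Cl) (u v : Vt) : EB φ u v = true ↔ (pat φ).E u v := by
  simp only [EB, E1, E2, E3, E4, E5, E6, Pat.E, ← cutB_iff, ← remB_iff, ← rungB_iff,
    Bool.and_eq_true, Bool.or_eq_true, decide_eq_true_eq]
  rfl

theorem adB_iff (φ : List Cl) (u v : Vt) : adB φ u v = true ↔ (pat φ).Adj u v := by
  simp only [adB, Pat.Adj, PvB_iff, EB_iff, Bool.and_eq_true, Bool.or_eq_true]

theorem adB_symm (φ : List Cl) (u v : Vt) : adB φ u v = adB φ v u := by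
  rw [Bool.eq_iff_iff, adB_iff, adB_iff]
  exact ⟨Pat.Adj.symm, Pat.Adj.symm⟩

theorem adB_irrefl (φ : List Cl) (u : Vt) : adB φ u u = false := by
  rw [← Bool.not_eq_true, adB_iff]
  exact fun h => (Pat.Adj.sub _ _ h).2.2 rfl

theorem mem_vs (φ : List Cl) (v : Vt) : (pat φ).Pv v ↔ v ∈ vs φ := by
  obtain ⟨i, k, g⟩ := v
  simp only [vs, List.mem_filter, PvB_iff, List.mem_product, List.mem_range, List.mem_cons,
    List.not_mem_nil, or_false]
  refine ⟨fun h => ⟨?_, h⟩, fun h => h.2⟩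
  dsimp only [Pat.Pv, pat] at h
  unfold mM mK
  omega

theorem nodup_vs (φ : List Cl) : (vs φ).Nodup :=
  (List.nodup_range.product (List.nodup_range.product (by simp))).filter _

theorem correct_red {φ : List Cl} (hb : Bounded3 φ) (hne : φ ≠ []) :
    SAT3 φ ↔ IsUBVGraph (listGraph (vs φ) (adB φ) (adB_symm φ) (adB_irrefl φ)) := by
  classical
  rw [ubv_listGraph _ (nodup_vs φ) _ _ _ (mem_vs φ) (adB_iff φ)]
  have hm : 0 < φ.length := List.length_pos_of_ne_nil hne
  have hcl : ∀ j, j < φ.length → cl φ j ∈ φ := fun j hj => by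
    unfold cl
    rw [List.getD_eq_getElem _ _ hj]
    exact List.getElem_mem _
  constructor
  · rintro ⟨τ, hτ⟩
    refine Pat.complete (s := fun c => τ (c / 2) ≠ decide (c % 2 = 1)) (by dsimp only [pat]; omega)
      fun t => ?_
    dsimp only [pat]
    rcases Nat.mod_two_eq_zero_or_one t with e | e
    · have h1 := Nat.mod_lt (t / 2) (show 0 < 3 * φ.length by omega)
      cases h2 : τ (t / 2 % (3 * φ.length))
      · refine ⟨2 * (t / 2 % (3 * φ.length)) + 1, by omega, ?_, ?_⟩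
        · simp only [LB, e, Bool.or_eq_true, Bool.and_eq_true, decide_eq_true_eq]
          exact Or.inl ⟨trivial, by omega⟩
        · rw [show (2 * (t / 2 % (3 * φ.length)) + 1) / 2 = t / 2 % (3 * φ.length) by omega, h2]
          simp [e]
      · refine ⟨2 * (t / 2 % (3 * φ.length)), by omega, ?_, ?_⟩
        · simp only [LB, e, Bool.or_eq_true, Bool.and_eq_true, decide_eq_true_eq]
          exact Or.inl ⟨trivial, by omega⟩
        · rw [show (2 * (t / 2 % (3 * φ.length))) / 2 = t / 2 % (3 * φ.length) by omega, h2]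
          simp [e]
    · have h1 := hcl _ (Nat.mod_lt (t / 2) hm)
      have key : ∀ l : Lit ℕ, l.2 < 3 * φ.length → τ l.2 = l.1 → ∃ c, c < 6 * φ.length ∧
          (decide (c % 2 = 1), c / 2) = l ∧ (τ (c / 2) ≠ decide (c % 2 = 1) ↔ t % 2 = 0) := by
        rintro ⟨b, v⟩ h2 h3
        cases b
        · refine ⟨2 * v, by omega, by simp, ?_⟩
          simp only at h3
          simp [e, h3]
        · refine ⟨2 * v + 1, by omega, by simp; omega, ?_⟩
          simp only at h3
          rw [show (2 * v + 1) / 2 = v by omega]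
          simp [e, h3]
      obtain ⟨b1, b2, b3⟩ := hb _ h1
      rcases hτ _ h1 with h | h | h
      · obtain ⟨c, k1, k2, k3⟩ := key _ b1 h
        exact ⟨c, k1, by simp [LB, e, k2], k3⟩
      · obtain ⟨c, k1, k2, k3⟩ := key _ b2 h
        exact ⟨c, k1, by simp [LB, e, k2], k3⟩
      · obtain ⟨c, k1, k2, k3⟩ := key _ b3 h
        exact ⟨c, k1, by simp [LB, e, k2], k3⟩
  · rintro ⟨D, X, Y, h⟩
    obtain ⟨s, hs⟩ := Pat.sound ⟨h, Pat.Adj.sub⟩ (by dsimp only [pat]; omega)
    dsimp only [pat] at hs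
    refine ⟨fun v => decide (¬ s (2 * v + 1)), fun c hc => ?_⟩
    obtain ⟨j, hj, rfl⟩ := List.getElem_of_mem hc
    have ecl : cl φ j = φ[j] := List.getD_eq_getElem _ _ hj
    obtain ⟨b1, b2, b3⟩ := hb _ hc
    obtain ⟨c, -, k2, k3⟩ := hs (2 * (3 * φ.length + j) + 1) (by omega) (by omega)
    have e1 : (2 * (3 * φ.length + j) + 1) / 2 % φ.length = j := by
      rw [show (2 * (3 * φ.length + j) + 1) / 2 = j + φ.length * 3 by omega,
        Nat.add_mul_mod_self_left, Nat.mod_eq_of_lt hj]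
    have e2 : (2 * (3 * φ.length + j) + 1) % 2 = 1 := by omega
    have k4 : ¬ s c := fun a => by have := k3.1 a; omega
    have key : ∀ l : Lit ℕ, l.2 < 3 * φ.length → (decide (c % 2 = 1), c / 2) = l →
        decide (¬ s (2 * l.2 + 1)) = l.1 := by
      rintro _ h1 rfl
      simp only at h1 ⊢
      by_cases e : c % 2 = 1
      · rw [show 2 * (c / 2) + 1 = c by omega]
        simp [e, k4]
      · obtain ⟨c', -, a2, a3⟩ := hs (2 * (3 * φ.length + c / 2)) (by omega) (by omega)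
        have e3 : (2 * (3 * φ.length + c / 2)) / 2 % (3 * φ.length) = c / 2 := by
          rw [show (2 * (3 * φ.length + c / 2)) / 2 = c / 2 + 3 * φ.length by omega,
            Nat.add_mod_right, Nat.mod_eq_of_lt h1]
        have e4 : (2 * (3 * φ.length + c / 2)) % 2 = 0 := by omega
        simp only [LB, e3, e4, Bool.or_eq_true, Bool.and_eq_true, decide_eq_true_eq] at a2
        have a4 : s c' := a3.2 e4
        have a5 : c' ≠ c := fun e => k4 (e ▸ a4)
        rw [show 2 * (c / 2) + 1 = c' by omega]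
        simp [e, a4]
    simp only [LB, e1, e2, ecl, Bool.or_eq_true, Bool.and_eq_true, decide_eq_true_eq] at k2
    rcases k2 with k2 | ⟨-, k2 | k2 | k2⟩
    · omega
    · exact Or.inl (key _ b1 k2)
    · exact Or.inr (Or.inl (key _ b2 k2))
    · exact Or.inr (Or.inr (key _ b3 k2))

section Poly

variable {α : Type} [TEnc α] {φ : α → List Cl} {c k : α → ℕ} {u v : α → Vt}

@[fun_prop] theorem poly_cl (h1 : Poly φ) (h2 : Poly c) : Poly fun a => cl (φ a) (c a) := by
  unfold cl; fun_prop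

attribute [local irreducible] cl

@[fun_prop] theorem poly_LB (h1 : Poly φ) (h2 : Poly c) (h3 : Poly k) :
    Poly fun a => LB (φ a) (c a) (k a) := by
  unfold LB; fun_prop

@[fun_prop] theorem poly_mM (h1 : Poly φ) : Poly fun a => mM (φ a) := by unfold mM; fun_prop

@[fun_prop] theorem poly_mK (h1 : Poly φ) : Poly fun a => mK (φ a) := by unfold mK; fun_prop

attribute [local irreducible] LB mM mK

@[fun_prop] theorem poly_EfB (h1 : Poly φ) (h2 : Poly c) (h3 : Poly k) :
    Poly fun a => EfB (φ a) (c a) (k a) := by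
  unfold EfB; fun_prop

attribute [local irreducible] EfB

@[fun_prop] theorem poly_cutB (h1 : Poly φ) (h2 : Poly c) (h3 : Poly k) :
    Poly fun a => cutB (φ a) (c a) (k a) := by
  unfold cutB; fun_prop

@[fun_prop] theorem poly_remB (h1 : Poly φ) (h2 : Poly c) (h3 : Poly k) :
    Poly fun a => remB (φ a) (c a) (k a) := by
  unfold remB; fun_prop

@[fun_prop] theorem poly_rungB (h1 : Poly φ) (h2 : Poly c) (h3 : Poly k) :
    Poly fun a => rungB (φ a) (c a) (k a) := by
  unfold rungB; fun_prop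

attribute [local irreducible] cutB remB rungB

@[fun_prop] theorem poly_PvB (h1 : Poly φ) (h2 : Poly u) : Poly fun a => PvB (φ a) (u a) := by
  unfold PvB; fun_prop

@[fun_prop] theorem poly_E1 (h1 : Poly φ) (h2 : Poly u) (h3 : Poly v) :
    Poly fun a => E1 (φ a) (u a) (v a) := by
  unfold E1; fun_prop

@[fun_prop] theorem poly_E2 (h2 : Poly u) (h3 : Poly v) : Poly fun a => E2 (u a) (v a) := by
  unfold E2; fun_prop

@[fun_prop] theorem poly_E3 (h2 : Poly u) (h3 : Poly v) : Poly fun a => E3 (u a) (v a) := by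
  unfold E3; fun_prop

@[fun_prop] theorem poly_E4 (h1 : Poly φ) (h2 : Poly u) (h3 : Poly v) :
    Poly fun a => E4 (φ a) (u a) (v a) := by
  unfold E4; fun_prop

@[fun_prop] theorem poly_E5 (h1 : Poly φ) (h2 : Poly u) (h3 : Poly v) :
    Poly fun a => E5 (φ a) (u a) (v a) := by
  unfold E5; fun_prop

@[fun_prop] theorem poly_E6 (h1 : Poly φ) (h2 : Poly u) (h3 : Poly v) :
    Poly fun a => E6 (φ a) (u a) (v a) := by
  unfold E6; fun_prop

attribute [local irreducible] PvB E1 E2 E3 E4 E5 E6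

@[fun_prop] theorem poly_EB (h1 : Poly φ) (h2 : Poly u) (h3 : Poly v) :
    Poly fun a => EB (φ a) (u a) (v a) := by
  unfold EB; fun_prop

attribute [local irreducible] EB

@[fun_prop] theorem poly_adB (h1 : Poly φ) (h2 : Poly u) (h3 : Poly v) :
    Poly fun a => adB (φ a) (u a) (v a) := by
  unfold adB; fun_prop

end Poly

theorem poly_vs : Poly vs := by
  have h0 : UPoly (fun φ : List Cl => φ.length) := UPoly.length Poly.id
  have h1 : UPoly (fun φ : List Cl => mM φ + 1) :=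
    (((UPoly.const 11).mul ((UPoly.const 6).mul h0)).add (UPoly.const 10)).add (UPoly.const 1)
  have h2 : UPoly (fun φ : List Cl => mK φ + 1) :=
    (((UPoly.const 84).mul h0).add (UPoly.const 6)).add (UPoly.const 1)
  exact Poly.filter (p := fun φ v => PvB φ v)
    (poly_product h1.range (poly_product h2.range (NPC.Poly.const _)))
    (poly_PvB (Poly.fst Poly.id) (Poly.snd Poly.id))

theorem poly_mat :
    Poly fun φ : List Cl => (vs φ).map fun u => (vs φ).map fun w => adB φ u w :=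
  NPC.Poly.map (F := fun φ u => (vs φ).map fun w => adB φ u w) poly_vs
    (NPC.Poly.map (l := fun x : List Cl × Vt => vs x.1) (F := fun x w => adB x.1 x.2 w)
      (poly_vs.comp (Poly.fst Poly.id))
      (poly_adB (Poly.fst (Poly.fst Poly.id)) (Poly.snd (Poly.fst Poly.id)) (Poly.snd Poly.id)))

theorem ubvg_adjMatrix {n : ℕ} (G : SimpleGraph (Fin n)) : UBVG (adjMatrix G) ↔ IsUBVGraph G := by
  refine ⟨?_, fun h => ⟨n, G, rfl, h⟩⟩
  rintro ⟨m, H, h1, h2⟩
  obtain rfl : m = n := by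
    have := congrArg List.length h1
    rwa [Pool.Agent.H671R2.Ord.length_adjMatrix, Pool.Agent.H671R2.Ord.length_adjMatrix] at this
  rwa [← adjMatrix_inj h1]

theorem npHard_UBVG : NPHardP UBVG :=
  (hardPr_SAT3b.trans (Pr' := fun _ => True) poly_mat (fun _ _ => trivial) fun φ h => by
    rw [correct_red h.2.1 h.2.2, ← ubvg_adjMatrix, adjMatrix_listGraph]).toHardI.toNPHardP

end Pool.Agent.H689Z.UBV
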