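import Pool.Agent.H689Z.UBV.Lat

set_option autoImplicit false

/-! Rigidity of the wall: the vertical order. -/

namespace Pool.Agent.H689Z.UBV

namespace Pat

variable {p : Pat} {D : ℤ} {X Y : Vt → ℤ}

theorem cov (h : RepG p.Pv p.Adj D X Y) {v : Vt} (hv : p.Pv v) (hb : ¬ p.Bd v) :
    Cov p.Adj D X Y v := by
  have := p.hM
  refine h.cov_of hv fun T d e4 => ?_
  obtain ⟨d1, e1⟩ := h.leaf_expo (aLeaf (i := 0) (by omega)).2.1 nLeaf
  obtain ⟨d2, e2⟩ := h.leaf_expo (aLeaf (i := 2) (by omega)).2.1 nLeaf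
  obtain ⟨d3, e3⟩ := h.leaf_expo (aLeaf (i := p.M) (by omega)).2.1 nLeaf
  have ne : ∀ x, (x, p.K, 1) ≠ v := by
    rintro x rfl
    exact hb (Or.inl rfl)
  refine RepG.four _ _ _ _ _ _ _ _ (h.expo_ne e1 e2 (by simp)) (h.expo_ne e1 e3 (by simp; omega))
    (h.expo_ne e1 e4 (ne _)) (h.expo_ne e2 e3 (by simp; omega)) (h.expo_ne e2 e4 (ne _))
    (h.expo_ne e3 e4 (ne _)) ?_ ?_ ?_
  · refine h.no_cross (fun u k => k) e1 e2 e4 e3 ?_ (fun k => hb k.1)
      (chain_bd (x := p.M) (by omega)) (chain_leaf hv hb (by omega))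
    dsimp only [Bd]; omega
  · refine h.no_cross (fun u k => k) e1 e3 e4 e2 ?_ (fun k => hb k.1)
      (chain_bd (x := 2) (by omega)) (chain_leaf hv hb (by omega))
    dsimp only [Bd]; omega
  · refine h.no_cross (fun u k => k) e2 e3 e4 e1 ?_ (fun k => hb k.1)
      (chain_bd (x := 0) (by omega)) (chain_leaf hv hb (by omega))
    dsimp only [Bd]; omega

theorem thickB (h : RepG p.Pv p.Adj D X Y) {j k : ℕ} (hk : k < p.K) (hj : j < p.M)
    (hr : ¬ p.rem j k) :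
    (X (j, k, 1) = X (j, k, 2) ∧ X (j, k, 3) = X (j, k, 2)) ∧
    (Y (j, k, 1) < Y (j, k, 2) ↔ Y (j, k, 2) < Y (j, k, 3)) ∧
    (Y (j, k, 1) ≠ Y (j, k, 2) ∧ Y (j, k, 2) ≠ Y (j, k, 3)) ∧
    (∀ n, p.Adj (j, k, 1) n → n ≠ (j, k, 2) →
      (Y n < Y (j, k, 1) ↔ Y (j, k, 1) < Y (j, k, 2)) ∧ Y n ≠ Y (j, k, 1)) ∧
    ∀ n, p.Adj (j, k, 3) n → n ≠ (j, k, 2) →
      (Y (j, k, 3) < Y n ↔ Y (j, k, 1) < Y (j, k, 2)) ∧ Y n ≠ Y (j, k, 3) := by
  have a1 := aBB (g := 1) le_rfl (by omega) hk hj hr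
  have a2 := aBB (g := 2) (by omega) le_rfl hk hj hr
  have c : Cov p.Adj D X Y (j, k, 2) := cov h a2.1 (by dsimp only [Bd]; omega)
  obtain ⟨b1, b2, b3⟩ := h.thick c nMid a1.symm
  obtain ⟨c1, c2, c3⟩ := h.thick c (fun n k => (nMid n k).symm) a2
  have d1 := (h.ov a1).2.2
  have d2 := (h.ov a2).2.2
  norm_num at c1 c2 c3 d1 d2
  refine ⟨⟨b1, c1⟩, b2, ⟨d1, d2⟩, fun n a b => ⟨b3 n a b, (h.ov a).2.2.symm⟩, fun n a b => ?_⟩
  have f1 := c3 n.1 n.2.1 n.2.2 a (by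
    intro e1 e2 e3
    exact b (Prod.ext e1 (Prod.ext e2 e3)))
  have f2 := (h.ov a).2.2
  simp only [Prod.mk.eta] at f1
  omega

theorem sigE (h : RepG p.Pv p.Adj D X Y) {i j k : ℕ} (hk : k < p.K) (hj : j < p.M)
    (hr : ¬ p.rem j k) (a : p.Pv (i, k, 0)) (b : p.Pv (i, k + 1, 0)) (hi : i = j ∨ i = j + 1) :
    (Y (j, k, 1) < Y (j, k, 2) ↔ Y (i, k, 0) < Y (i, k + 1, 0)) := by
  obtain ⟨-, b2, b3, b4, b5⟩ := thickB h hk hj hr
  have f1 := b4 _ (aSB a (mkB le_rfl (by omega) hk hj hr) hk (by omega)).symm (by simp)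
  have f2 := b5 _ (aBS (mkB (by omega) le_rfl hk hj hr) b hi) (by simp)
  omega

theorem allE (h : RepG p.Pv p.Adj D X Y) {k0 : ℕ} (hk : k0 + 1 = p.K)
    (h0 : Y (0, k0, 1) < Y (0, k0, 2)) : ∀ d k, k + d = k0 → ∀ j, j < p.M → ¬ p.rem j k →
      Y (j, k, 1) < Y (j, k, 2) := by
  have := p.hM
  intro d
  induction d with
  | zero =>
    intro k e j
    obtain rfl : k = k0 := by omega
    induction j with
    | zero => exact fun _ _ => h0
    | succ j ih =>
      intro a1 a2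
      have s1 : p.Pv (j + 1, k, 0) := mkS (by omega) (by omega) (ncut (by omega))
      have s2 : p.Pv (j + 1, k + 1, 0) := mkS (by omega) (by omega) (ncut (by omega))
      rw [sigE h (by omega) a1 a2 s1 s2 (Or.inl rfl),
        ← sigE h (by omega) (by omega) (nrem (by omega)) s1 s2 (Or.inr rfl)]
      exact ih (by omega) (nrem (by omega))
  | succ d ih =>
    intro k e
    have ih := ih (k + 1) (by omega)
    have main : ∀ j, ¬ j % 11 = 10 → j < p.M → ¬ p.rem j k → Y (j, k, 1) < Y (j, k, 2) := by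
      intro j a0 a1 a2
      obtain ⟨-, -, -, -, b5⟩ := thickB h (by omega) a1 a2
      by_cases hc : p.cut j (k + 1) ∨ p.cut (j + 1) (k + 1)
      · have a := aCut a1 hc
        have r := ((pB le_rfl (by omega) (by omega)).1 a.2.1).2
        obtain ⟨-, -, -, c4, -⟩ := thickB h (by omega) a1 r
        have f1 := c4 _ a.symm (by simp)
        have f2 := b5 _ a (by simp)
        have f3 := ih j a1 r
        omega
      · push Not at hc
        obtain ⟨i, b1, b2, b3, b4⟩ : ∃ i, (i = j ∨ i = j + 1) ∧ 1 ≤ i ∧ i < p.M ∧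
            ¬ (i % 11 = 5 ∨ i % 11 = 10 ∨ i % 11 = 0) := by
          by_cases e : j % 11 = 0 ∨ j % 11 = 5
          · exact ⟨j + 1, by omega⟩
          · exact ⟨j, by omega⟩
        by_contra he
        have s0 : p.Pv (i, k, 0) := mkS (by omega) (by omega) (ncut (by omega))
        have s1 : p.Pv (i, k + 1, 0) := mkS (by omega) (by omega) (ncut (by omega))
        have s2 : p.Pv (i, k + 1 + 1, 0) := mkS (by omega) (by omega) (ncut (by omega))
        have g0 := sigE h (by omega) a1 a2 s0 s1 b1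
        have hD := h.pos
        obtain ⟨-, n, f1, -, -, f4⟩ := cov h s1 (by dsimp only [Bd]; omega) _ le_rfl (by omega)
        have up : ∀ j', n = (j', k + 1, 1) → False := by
          rintro j' rfl
          obtain ⟨r1, r2⟩ := (pB le_rfl (by omega) (by omega)).1 f1.2.1
          obtain ⟨-, -, -, c4, -⟩ := thickB h (by omega) r1 r2
          have := c4 _ f1.symm (by simp)
          have := ih j' r1 r2
          omega
        have dn : ∀ j', (i = j' ∨ i = j' + 1) → n = (j', k, 3) → False := by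
          rintro j' hj' rfl
          obtain ⟨r1, r2⟩ := (pB (by omega) le_rfl (by omega)).1 f1.2.1
          obtain ⟨-, -, -, -, c5⟩ := thickB h (by omega) r1 r2
          have := c5 _ f1.symm (by simp)
          have := sigE h (by omega) r1 r2 s0 s1 hj'
          omega
        rcases nSig n f1 with e1 | ⟨-, e1⟩ | rfl | ⟨-, e1 | ⟨-, e1⟩ | e1⟩ | ⟨-, e1⟩ | ⟨-, -, e1⟩
        · exact up _ e1
        · exact up _ e1
        · obtain ⟨j', r0, r1, r2⟩ := exists_above (p := p) (k := k + 1) b3.le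
          have := sigE h (by omega) r1 r2 s1 s2 (by omega)
          have := ih j' r1 r2
          omega
        · exact dn _ (Or.inl rfl) e1
        · exact dn _ (by omega) e1
        · rw [e1, Nat.add_sub_cancel] at f4
          omega
        · unfold rung at e1; omega
        · unfold rung at e1; omega
    intro j a1 a2
    by_cases e10 : j % 11 = 10
    · obtain ⟨j', rfl⟩ : ∃ j', j = j' + 1 := ⟨j - 1, by omega⟩
      have s1 : p.Pv (j' + 1, k, 0) := mkS (by omega) (by omega) (ncut (by omega))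
      have s2 : p.Pv (j' + 1, k + 1, 0) := mkS (by omega) (by omega) (ncut (by omega))
      rw [sigE h (by omega) a1 a2 s1 s2 (Or.inl rfl),
        ← sigE h (by omega) (by omega) (nrem (by omega)) s1 s2 (Or.inr rfl)]
      exact main j' (by omega) (by omega) (nrem (by omega))
    · exact main j e10 a1 a2

variable (p D X Y) in
/-- Representations with the intended vertical orientation. -/
structure Ori : Prop extends RepG p.Pv p.Adj D X Y where
  e : ∀ j k, k < p.K → j < p.M → ¬ p.rem j k → Y (j, k, 1) < Y (j, k, 2)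

theorem exists_ori (h : RepG p.Pv p.Adj D X Y) : ∃ Y', Ori p D X Y' := by
  have := p.hM
  have := p.hK
  obtain ⟨k0, hk⟩ : ∃ k0, k0 + 1 = p.K := ⟨p.K - 1, by omega⟩
  have n := (thickB h (j := 0) (k := k0) (by omega) (by omega) (nrem (by omega))).2.2.1.1
  rcases lt_or_gt_of_ne n with h0 | h0
  · exact ⟨Y, h, fun j k a => allE h hk h0 (k0 - k) k (by omega) j⟩
  · exact ⟨_, h.flipY, fun j k a => allE h.flipY hk (by omega) (k0 - k) k (by omega) j⟩

theorem Ori.flipX (h : Ori p D X Y) : Ori p D (fun v => -X v - D) Y := ⟨h.toRepG.flipX, h.e⟩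

theorem Ori.eup (h : Ori p D X Y) {u v : Vt} (a : p.Adj u v) (e : p.E u v) : Y u < Y v ∨
    (u.2.2 = 0 ∧ v.2.2 = 0 ∧ v.2.1 = u.2.1 ∧ v.1 = u.1 + 1 ∧ p.rung u.1 u.2.1) ∨
    (u.2.1 = p.K ∧ v.2.1 = p.K) := by
  obtain ⟨i, k, g⟩ := u
  obtain ⟨j, l, f⟩ := v
  have hu := a.1
  have hv := a.2.1
  dsimp only [E] at e ⊢
  rcases e with ⟨rfl, rfl, rfl, e⟩ | ⟨e1, e2, rfl, rfl, rfl⟩ | ⟨rfl, rfl, rfl, e⟩ |
    ⟨rfl, rfl, rfl, rfl, e⟩ | ⟨rfl, rfl, rfl, rfl, e⟩ | e
  · by_cases hk : l < p.K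
    · obtain ⟨r1, r2⟩ := (pB le_rfl (by omega) hk).1 hv
      have := (thickB h.toRepG hk r1 r2).2.2.2.1 _ a.symm (by simp)
      have := h.e _ _ hk r1 r2
      omega
    · have := (pS.1 hu).2.1
      omega
  · have hk : l < p.K := by
      dsimp only [Pv] at hv
      omega
    obtain ⟨r1, r2⟩ := (pB e1 (by omega) hk).1 hu
    have := (thickB h.toRepG hk r1 r2).2.1
    have := h.e _ _ hk r1 r2
    obtain rfl | rfl : g = 1 ∨ g = 2 := by omega
    · exact Or.inl this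
    · norm_num; omega
  · have hk : k < p.K := (pS.1 hv).2.1
    obtain ⟨r1, r2⟩ := (pB (by omega) le_rfl hk).1 hu
    have := (thickB h.toRepG hk r1 r2).2.2.2.2 _ a (by simp)
    have := h.e _ _ hk r1 r2
    omega
  · have hk : k < p.K := by
      dsimp only [Pv] at hu
      omega
    obtain ⟨r1, r2⟩ := (pB (by omega) le_rfl hk).1 hu
    have := (thickB h.toRepG hk r1 r2).2.2.2.2 _ a (by simp)
    have := h.e _ _ hk r1 r2
    omega
  · have hk : k < p.K := (pS.1 hv).2.1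
    obtain ⟨j', r0, r1, r2⟩ := exists_above (p := p) (k := k) (pS.1 hv).1
    have := sigE h.toRepG hk r1 r2 hu hv (by omega)
    have := h.e _ _ hk r1 r2
    omega
  · exact Or.inr (Or.inl e)

theorem Ori.edge (h : Ori p D X Y) {u v : Vt} (a : p.Adj u v) (y : Y u < Y v) :
    4 * u.2.1 + u.2.2 < 4 * v.2.1 + v.2.2 ∨
    (u.2.2 = 0 ∧ v.2.2 = 0 ∧ v.2.1 = u.2.1 ∧
      ((v.1 = u.1 + 1 ∧ p.rung u.1 u.2.1) ∨ (u.1 = v.1 + 1 ∧ p.rung v.1 u.2.1))) ∨
    (u.2.1 = p.K ∧ v.2.1 = p.K) := by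
  rcases a.2.2 with e | e
  · unfold E at e
    rcases e with e | e | e | e | e | ⟨e1, e2, e3, e4⟩
    any_goals omega
    exact Or.inr (Or.inl ⟨e1, e2, e3, Or.inl e4⟩)
  · rcases h.eup a.symm e with e | ⟨e1, e2, e3, e4, e5⟩ | e
    · omega
    · exact Or.inr (Or.inl ⟨e2, e1, e3.symm, Or.inr ⟨e4, e3 ▸ e5⟩⟩)
    · exact Or.inr (Or.inr e.symm)

theorem Ori.mono (h : Ori p D X Y) {T : ℤ} {w : Vt} (hw : p.Pv w) (b1 : X w ≤ T)
    (b2 : T < X w + D) : ∀ (d : ℕ) (u : Vt), p.Pv u → X u ≤ T → T < X u + D → Y u ≤ Y w →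
      Y w - Y u ≤ d → min (4 * u.2.1 + u.2.2) (4 * p.K) ≤ min (4 * w.2.1 + w.2.2) (4 * p.K) := by
  intro d
  induction d with
  | zero =>
    intro u hu a1 a2 y1 y2
    by_cases e : u = w
    · rw [e]
    · have := h.neY hu hw e a1 a2 b1 b2
      omega
  | succ d ih =>
    intro u hu a1 a2 y1 y2
    by_cases e : u = w
    · rw [e]
    · have := h.neY hu hw e a1 a2 b1 b2
      obtain ⟨n, f1, f2, f3, f4, f5⟩ := h.up' hu a1 a2 hw b1 b2 (by omega)
      have g1 := ih n f1.2.1 f2 f3 f5 (by omega)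
      have g2 := h.edge f1 f4
      omega

theorem Ori.mono' (h : Ori p D X Y) {T : ℤ} {u w : Vt} (hu : p.Pv u) (a1 : X u ≤ T)
    (a2 : T < X u + D) (hw : p.Pv w) (b1 : X w ≤ T) (b2 : T < X w + D) (y : Y u ≤ Y w) :
    min (4 * u.2.1 + u.2.2) (4 * p.K) ≤ min (4 * w.2.1 + w.2.2) (4 * p.K) :=
  h.mono hw b1 b2 (Y w - Y u).toNat u hu a1 a2 y (by omega)

theorem Ori.same (h : Ori p D X Y) {T : ℤ} {i i' k g : ℕ} (hu : p.Pv (i, k, g))
    (a1 : X (i, k, g) ≤ T) (a2 : T < X (i, k, g) + D) (hw : p.Pv (i', k, g))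
    (b1 : X (i', k, g) ≤ T) (b2 : T < X (i', k, g) + D) (y : Y (i, k, g) < Y (i', k, g))
    (h1 : 1 ≤ 4 * k + g) (h2 : k < p.K) (h3 : g ≤ 3) :
    g = 0 ∧ 2 ≤ k ∧ k + 2 ≤ p.K ∧ ((i' = i + 1 ∧ i % 11 = 10) ∨ (i = i' + 1 ∧ i' % 11 = 10)) := by
  obtain ⟨n, f1, f2, f3, f4, f5⟩ := h.up' hu a1 a2 hw b1 b2 y
  have g1 := h.mono' f1.2.1 f2 f3 hw b1 b2 f5
  have g2 := h.edge f1 f4
  obtain ⟨a, b, c⟩ := n
  dsimp only [rung] at g1 g2
  by_cases e : (a, b, c) = (i', k, g)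
  · simp only [Prod.mk.injEq] at e
    omega
  · have := h.neY f1.2.1 hw e f2 f3 b1 b2
    obtain ⟨n', f1', f2', f3', f4', f5'⟩ := h.up' f1.2.1 f2 f3 hw b1 b2 (by omega)
    have g1' := h.mono' f1'.2.1 f2' f3' hw b1 b2 f5'
    have g2' := h.edge f1' f4'
    obtain ⟨a', b', c'⟩ := n'
    dsimp only [rung] at g1' g2'
    have e' : (a', b', c') = (i, k, g) := by
      simp only [Prod.mk.injEq]
      omega
    rw [e'] at f4'
    omega

theorem Ori.sep (h : Ori p D X Y) {i i' k g : ℕ} (hu : p.Pv (i, k, g)) (hw : p.Pv (i', k, g))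
    (hi : i < i') (h1 : 1 ≤ 4 * k + g) (h2 : k < p.K) (h3 : g ≤ 3)
    (h4 : ¬ (g = 0 ∧ 2 ≤ k ∧ k + 2 ≤ p.K ∧ i' = i + 1 ∧ i % 11 = 10)) :
    X (i, k, g) + D ≤ X (i', k, g) ∨ X (i', k, g) + D ≤ X (i, k, g) := by
  by_contra hc
  have hD := h.pos
  have n := h.neY (T := max (X (i, k, g)) (X (i', k, g))) hu hw (by simp; omega) (by omega)
    (by omega) (by omega) (by omega)
  rcases lt_or_gt_of_ne n with y | y
  · have := h.same (T := max (X (i, k, g)) (X (i', k, g))) hu (by omega) (by omega) hw (by omega)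
      (by omega) y h1 h2 h3
    omega
  · have := h.same (T := max (X (i, k, g)) (X (i', k, g))) hw (by omega) (by omega) hu (by omega)
      (by omega) y h1 h2 h3
    omega

end Pat

end Pool.Agent.H689Z.UBV
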