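import Pool.Agent.H689Z.UBV.Sound1

set_option autoImplicit false

/-! Rigidity of the wall: the horizontal order, and soundness. -/

namespace Pool.Agent.H689Z.UBV

namespace Pat

variable {p : Pat} {D : ℤ} {X Y : Vt → ℤ}

variable (p D X) in
def HS (k : ℕ) : Prop := ∀ i i', i < i' → p.Pv (i, k, 0) → p.Pv (i', k, 0) →
  ¬ (2 ≤ k ∧ k + 2 ≤ p.K ∧ i' = i + 1 ∧ i % 11 = 10) → X (i, k, 0) + D ≤ X (i', k, 0)

theorem Ori.base (h : Ori p D X Y) {k : ℕ} (hk : k + 1 = p.K)
    (h0 : X (0, k, 0) + D ≤ X (1, k, 0)) : HS p D X k := by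
  have := p.hK
  have hD := h.pos
  have s : ∀ i, i ≤ p.M → p.Pv (i, k, 0) := fun i hi => mkS hi (by omega) (ncut (by omega))
  have b : ∀ i, i < p.M → p.Pv (i, k, 1) := fun i hi =>
    mkB le_rfl (by omega) (by omega) hi (nrem (by omega))
  have c : ∀ i, i + 1 ≤ p.M → X (i, k, 0) + D ≤ X (i + 1, k, 0) := by
    intro i
    induction i with
    | zero => exact fun _ => h0
    | succ i ih =>
      intro hi
      have f0 := ih (by omega)
      have f1 := h.ov (aSB (s i (by omega)) (b i (by omega)) (by omega) (Or.inl rfl))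
      have f2 := h.ov (aSB (s (i + 1) (by omega)) (b i (by omega)) (by omega) (Or.inr rfl))
      have f3 := h.ov (aSB (s (i + 1) (by omega)) (b (i + 1) (by omega)) (by omega) (Or.inl rfl))
      have f4 := h.ov (aSB (s (i + 1 + 1) hi) (b (i + 1) (by omega)) (by omega) (Or.inr rfl))
      have f5 := h.sep (b i (by omega)) (b (i + 1) (by omega)) (by omega) (by omega) (by omega)
        (by omega) (by omega)
      have f6 := h.sep (s (i + 1) (by omega)) (s (i + 1 + 1) hi) (by omega) (by omega) (by omega)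
        (by omega) (by omega)
      omega
  intro i i' hi _ h2 _
  have h3 := (pS.1 h2).1
  clear h2
  induction i', hi using Nat.le_induction with
  | base => exact c i h3
  | succ m hm ih =>
    have := ih (by omega) (by omega)
    have := c m h3
    omega

theorem Ori.step (h : Ori p D X Y) {k : ℕ} (h1 : 1 ≤ k) (h2 : k + 1 < p.K)
    (hs : HS p D X (k + 1)) : HS p D X k := by
  have := p.hM
  have hb : ∀ j j', j < j' → j < p.M → ¬ p.rem j k → j' < p.M → ¬ p.rem j' k →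
      X (j, k, 1) + D ≤ X (j', k, 1) := by
    intro j j' a1 a2 a3 a4 a5
    obtain ⟨i, b1, b2⟩ : ∃ i, (i = j ∨ (i = j + 1 ∧ j % 11 = 5)) ∧ ¬ p.cut i (k + 1) := by
      by_cases e : p.cut j (k + 1)
      · have := cut_ax e
        exact ⟨j + 1, by omega, ncut (by omega)⟩
      · exact ⟨j, Or.inl rfl, e⟩
    obtain ⟨i', c1, c2⟩ : ∃ i', (i' = j' + 1 ∨ (i' = j' ∧ j' % 11 = 4)) ∧ ¬ p.cut i' (k + 1) := by
      by_cases e : p.cut (j' + 1) (k + 1)
      · have := cut_ax e
        exact ⟨j', by omega, ncut (by omega)⟩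
      · exact ⟨j' + 1, Or.inl rfl, e⟩
    have s1 : p.Pv (i, k + 1, 0) := mkS (by omega) (by omega) b2
    have s2 : p.Pv (i', k + 1, 0) := mkS (by omega) (by omega) c2
    have f0 := hs i i' (by omega) s1 s2 (by omega)
    have f1 := h.ov (aBS (mkB (by omega) le_rfl (by omega) a2 a3) s1 (by omega))
    have f2 := h.ov (aBS (mkB (by omega) le_rfl (by omega) a4 a5) s2 (by omega))
    have f3 := (thickB h.toRepG (by omega) a2 a3).1
    have f4 := (thickB h.toRepG (by omega) a4 a5).1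
    have f5 := h.sep (mkB (h := 1) le_rfl (by omega) (by omega) a2 a3)
      (mkB le_rfl (by omega) (by omega) a4 a5) a1 (by omega) (by omega) (by omega) (by omega)
    omega
  intro i i' a1 s1 s2 a2
  have a3 := (pS.1 s2).1
  obtain ⟨j, b1, b2⟩ : ∃ j, (j + 1 = i ∨ (j = i ∧ (i = 0 ∨ i % 11 = 3 ∨ i % 11 = 8 ∨ i % 11 = 0))) ∧
      ¬ p.rem j k := by
    by_cases e : i = 0 ∨ p.rem (i - 1) k
    · have : i = 0 ∨ i % 11 = 3 ∨ i % 11 = 8 ∨ i % 11 = 0 := by
        rcases e with e | e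
        · exact Or.inl e
        · have := rem_ax e; omega
      exact ⟨i, by omega, nrem (by omega)⟩
    · push Not at e
      exact ⟨i - 1, by omega, e.2⟩
  obtain ⟨j', c1, c2, c3⟩ : ∃ j', (j' = i' ∨ (j' + 1 = i' ∧
      (i' % 11 = 2 ∨ i' % 11 = 7 ∨ i' % 11 = 10))) ∧ j' < p.M ∧ ¬ p.rem j' k := by
    by_cases e : i' = p.M ∨ p.rem i' k
    · have : i' % 11 = 2 ∨ i' % 11 = 7 ∨ i' % 11 = 10 := by
        rcases e with e | e
        · omega
        · have := rem_ax e; omega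
      exact ⟨i' - 1, by omega, by omega, nrem (by omega)⟩
    · push Not at e
      exact ⟨i', Or.inl rfl, by omega, e.2⟩
  have f0 := hb j j' (by omega) (by omega) b2 c2 c3
  have f1 := h.ov (aSB s1 (mkB le_rfl (by omega) (by omega) (by omega) b2) (by omega) (by omega))
  have f2 := h.ov (aSB s2 (mkB le_rfl (by omega) (by omega) c2 c3) (by omega) (by omega))
  have f5 := h.sep s1 s2 a1 (by omega) (by omega) (by omega) (by omega)
  omega

variable (p D X Y) in
/-- Representations with the intended orientation. -/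
structure Rig : Prop extends Ori p D X Y where
  hs : ∀ k, 1 ≤ k → k < p.K → HS p D X k

theorem exists_rig (h : RepG p.Pv p.Adj D X Y) : ∃ X' Y', Rig p D X' Y' := by
  have := p.hM
  have := p.hK
  obtain ⟨k0, hk⟩ : ∃ k0, k0 + 1 = p.K := ⟨p.K - 1, by omega⟩
  obtain ⟨Y, h⟩ := exists_ori h
  have key : ∀ X, Ori p D X Y → X (0, k0, 0) + D ≤ X (1, k0, 0) → Rig p D X Y := by
    intro X h h0
    have : ∀ d k, k + d = k0 → 1 ≤ k → HS p D X k := by
      intro d
      induction d with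
      | zero => intro k e _; exact h.base (by omega) (by rw [show k = k0 by omega]; exact h0)
      | succ d ih => intro k e a; exact h.step a (by omega) (ih (k + 1) (by omega) (by omega))
    exact ⟨h, fun k a b => this (k0 - k) k (by omega) a⟩
  rcases h.sep (i := 0) (i' := 1) (k := k0) (g := 0) (mkS (by omega) (by omega) (ncut (by omega)))
    (mkS (by omega) (by omega) (ncut (by omega))) (by omega) (by omega) (by omega) (by omega)
    (by omega) with h0 | h0
  · exact ⟨X, Y, key X h h0⟩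
  · exact ⟨_, Y, key _ h.flipX (by omega)⟩

theorem Rig.abut (h : Rig p D X Y) {i k : ℕ} (hk : k + 1 < p.K) (hi : i < p.M)
    (c1 : ¬ p.cut i (k + 1)) (c2 : ¬ p.cut (i + 1) (k + 1)) (r : ¬ p.rem i k)
    (hr : ¬ (2 ≤ k + 1 ∧ k + 1 + 2 ≤ p.K ∧ i % 11 = 10)) :
    X (i + 1, k + 1, 0) = X (i, k + 1, 0) + D := by
  have s1 : p.Pv (i, k + 1, 0) := mkS (by omega) (by omega) c1
  have s2 : p.Pv (i + 1, k + 1, 0) := mkS (by omega) (by omega) c2
  have b : p.Pv (i, k, 3) := mkB (by omega) le_rfl (by omega) hi r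
  have f0 := h.hs (k + 1) (by omega) hk i (i + 1) (by omega) s1 s2 (by omega)
  have f1 := h.ov (aBS b s1 (Or.inl rfl))
  have f2 := h.ov (aBS b s2 (Or.inr rfl))
  by_contra hc
  obtain ⟨⟨n, g1, g2, g3, g4⟩, -⟩ := cov h.toRepG b (by dsimp only [Bd]; omega)
    (X (i, k + 1, 0) + D) (by omega) (by omega)
  rcases nHigh n g1 with rfl | rfl | rfl | ⟨-, e | e⟩
  · have := (thickB h.toRepG (by omega) hi r).2.1
    have := h.e _ _ (by omega) hi r
    omega
  · omega
  · omega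
  · exact c1 e
  · exact c2 e

theorem Rig.run (h : Rig p D X Y) {a k : ℕ} (hk : k + 1 < p.K) : ∀ b, a ≤ b → b ≤ p.M →
    (∀ i, a ≤ i → i ≤ b → ¬ p.cut i (k + 1)) → (∀ i, a ≤ i → i < b → ¬ p.rem i k ∧
      ¬ (2 ≤ k + 1 ∧ k + 1 + 2 ≤ p.K ∧ i % 11 = 10)) →
    X (b, k + 1, 0) - b * D = X (a, k + 1, 0) - a * D := by
  intro b hab
  induction b, hab using Nat.le_induction with
  | base => intros; rfl
  | succ b hab ih =>
    intro h1 h2 h3
    rw [← ih (by omega) (fun i a1 a2 => h2 i a1 (by omega)) (fun i a1 a2 => h3 i a1 (by omega)),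
      h.abut hk (by omega) (h2 b hab (by omega)) (h2 (b + 1) (by omega) le_rfl)
        (h3 b hab (by omega)).1 (h3 b hab (by omega)).2]
    push_cast
    ring

theorem Rig.aboveR (h : Rig p D X Y) {i k : ℕ} (r : p.rem (i + 1) k)
    (hr : (i + 1) % 11 = 10 → Y (i + 1 + 1, k, 0) < Y (i + 1, k, 0)) {n : Vt}
    (a : p.Adj (i + 1, k, 0) n) (y : Y (i + 1, k, 0) < Y n)
    (x : X (i + 1, k, 0) + D - 1 < X n + D) : n = (i + 1, k + 1, 0) := by
  have r' := rem_ax r
  have e := h.edge a y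
  have := (pS.1 a.1).1
  rcases nSig n a with rfl | ⟨-, rfl⟩ | e1 | ⟨-, rfl | ⟨-, rfl⟩ | rfl⟩ | ⟨rfl, e1⟩ | ⟨-, -, e1⟩
  · exact absurd r ((pB le_rfl (by omega) (by omega)).1 a.2.1).2
  · have s : p.Pv (i, k, 0) := mkS (by omega) (by omega) (ncut (by omega))
    have f0 := h.hs k (by omega) (by omega) i (i + 1) (by omega) s a.1 (by omega)
    have f1 := h.ov (aSB s a.2.1 (by omega) (by omega))
    omega
  · exact e1
  · dsimp only at e; omega
  · dsimp only at e; omega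
  · dsimp only at e; omega
  · unfold rung at e1; omega
  · unfold rung at e1; omega

theorem Rig.belowR (h : Rig p D X Y) {i k : ℕ} (r : p.rem (i + 1) k)
    (hr : (i + 1) % 11 = 10 → Y (i + 1, k + 1, 0) < Y (i + 1 + 1, k + 1, 0)) {n : Vt}
    (a : p.Adj (i + 1, k + 1, 0) n) (y : Y n < Y (i + 1, k + 1, 0))
    (x : X (i + 1, k + 1, 0) + D - 1 < X n + D) : n = (i + 1, k, 0) := by
  have r' := rem_ax r
  have e := h.edge a.symm y
  have := (pS.1 a.1).1
  rcases nSig n a with rfl | ⟨-, rfl⟩ | rfl | ⟨-, rfl | ⟨-, rfl⟩ | e1⟩ | ⟨rfl, e1⟩ | ⟨-, -, e1⟩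
  · dsimp only at e; omega
  · dsimp only at e; omega
  · dsimp only at e; omega
  · exact absurd r ((pB (by omega) le_rfl (by omega)).1 a.2.1).2
  · have s : p.Pv (i, k + 1, 0) := mkS (by omega) (by omega) (ncut (by omega))
    have f0 := h.hs (k + 1) (by omega) (by omega) i (i + 1) (by omega) s a.1 (by omega)
    have f1 := h.ov (aBS a.2.1 s (by omega))
    simp only [Nat.add_sub_cancel] at f1 x
    omega
  · exact e1
  · unfold rung at e1; omega
  · unfold rung at e1; omega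

theorem Rig.aboveL (h : Rig p D X Y) {i k : ℕ} (r : p.rem i k)
    (hr : i % 11 = 10 → Y (i, k, 0) < Y (i + 1, k, 0)) {n : Vt}
    (a : p.Adj (i + 1, k, 0) n) (y : Y (i + 1, k, 0) < Y n)
    (x : X n ≤ X (i + 1, k, 0)) : n = (i + 1, k + 1, 0) := by
  have r' := rem_ax r
  have e := h.edge a y
  rcases nSig n a with rfl | ⟨-, rfl⟩ | e1 | ⟨-, rfl | ⟨-, rfl⟩ | rfl⟩ | ⟨-, e1⟩ | ⟨-, rfl, e1⟩
  · have := ((pB le_rfl (by omega) (by omega)).1 a.2.1).1
    have s : p.Pv (i + 2, k, 0) := mkS (by omega) (by omega) (ncut (by omega))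
    have f0 := h.hs k (by omega) (by omega) (i + 1) (i + 2) (by omega) a.1 s (by omega)
    have f1 := h.ov (aSB s a.2.1 (by omega) (by omega))
    omega
  · exact absurd r ((pB le_rfl (by omega) (by omega)).1 a.2.1).2
  · exact e1
  · dsimp only at e; omega
  · dsimp only at e; omega
  · dsimp only at e; omega
  · unfold rung at e1; omega
  · simp only [Nat.add_sub_cancel] at e1 y
    unfold rung at e1; omega

theorem Rig.belowL (h : Rig p D X Y) {i k : ℕ} (r : p.rem i k)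
    (hr : i % 11 = 10 → Y (i + 1, k + 1, 0) < Y (i, k + 1, 0)) {n : Vt}
    (a : p.Adj (i + 1, k + 1, 0) n) (y : Y n < Y (i + 1, k + 1, 0))
    (x : X n ≤ X (i + 1, k + 1, 0)) : n = (i + 1, k, 0) := by
  have r' := rem_ax r
  have e := h.edge a.symm y
  rcases nSig n a with rfl | ⟨-, rfl⟩ | rfl | ⟨-, rfl | ⟨-, rfl⟩ | e1⟩ | ⟨-, e1⟩ | ⟨-, rfl, e1⟩
  · dsimp only at e; omega
  · dsimp only at e; omega
  · dsimp only at e; omega
  · have := ((pB (by omega) le_rfl (by omega)).1 a.2.1).1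
    have s : p.Pv (i + 2, k + 1, 0) := mkS (by omega) (by omega) (ncut (by omega))
    have f0 := h.hs (k + 1) (by omega) (by omega) (i + 1) (i + 2) (by omega) a.1 s (by omega)
    have f1 := h.ov (aBS a.2.1 s (by omega))
    simp only [Nat.add_sub_cancel] at f1 x
    omega
  · exact absurd r ((pB (by omega) le_rfl (by omega)).1 a.2.1).2
  · exact e1
  · unfold rung at e1; omega
  · simp only [Nat.add_sub_cancel] at e1 y
    unfold rung at e1; omega

theorem Rig.covS (h : Rig p D X Y) {i k : ℕ} (h1 : i + 1 < p.M) (h2 : 1 ≤ k) (h3 : k < p.K)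
    (h4 : ¬ (i + 1) % 11 = 5) : Cov p.Adj D X Y (i + 1, k, 0) :=
  cov h.toRepG (mkS h1.le h3.le (ncut (by omega))) (by dsimp only [Bd]; omega)

theorem Rig.joinL (h : Rig p D X Y) {i k : ℕ} (r : p.rem (i + 1) k) (hi : i + 1 < p.M)
    (h10 : ¬ (i + 1) % 11 = 10) : X (i + 1, k, 0) = X (i + 1, k + 1, 0) := by
  have r' := rem_ax r
  have hD := h.pos
  obtain ⟨⟨n, g1, -, g3, g4⟩, -⟩ := h.covS (k := k) hi (by omega) (by omega) (by omega)
    (X (i + 1, k, 0) + D - 1) (by omega) (by omega)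
  obtain ⟨-, n', k1, -, k3, k4⟩ := h.covS (k := k + 1) hi (by omega) (by omega) (by omega)
    (X (i + 1, k + 1, 0) + D - 1) (by omega) (by omega)
  rw [h.aboveR r (by omega) g1 g4 g3] at g3
  rw [h.belowR r (by omega) k1 k4 k3] at k3
  omega

theorem Rig.joinR (h : Rig p D X Y) {i k : ℕ} (r : p.rem i k) (hi : i + 1 < p.M)
    (h10 : ¬ i % 11 = 10) :
    X (i + 1, k, 0) = X (i + 1, k + 1, 0) := by
  have r' := rem_ax r
  have hD := h.pos
  obtain ⟨⟨n, g1, g2, -, g4⟩, -⟩ := h.covS (k := k) hi (by omega) (by omega) (by omega)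
    (X (i + 1, k, 0)) (by omega) (by omega)
  obtain ⟨-, n', k1, k2, -, k4⟩ := h.covS (k := k + 1) hi (by omega) (by omega) (by omega)
    (X (i + 1, k + 1, 0)) (by omega) (by omega)
  rw [h.aboveL r (by omega) g1 g4 g2] at g2
  rw [h.belowL r (by omega) k1 k4 k2] at k2
  omega

theorem Rig.lad (h : Rig p D X Y) {i k : ℕ} (hi : i < p.M) (h10 : i % 11 = 10) (h2 : 2 ≤ k)
    (h3 : k + 2 ≤ p.K) : X (i + 1, k, 0) < X (i, k, 0) + D ∧ X (i, k, 0) ≤ X (i + 1, k, 0) ∧
      Y (i + 1, k, 0) ≠ Y (i, k, 0) := by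
  have := p.hM
  have a := aRung hi (Or.inr (Or.inr ⟨h10, h2, h3⟩))
  have f0 := h.ov a
  obtain ⟨j, rfl⟩ : ∃ j, i = j + 1 := ⟨i - 1, by omega⟩
  obtain ⟨l, rfl⟩ : ∃ l, k = l + 1 := ⟨k - 1, by omega⟩
  have f1 := h.abut (i := j) (k := l) (by omega) (by omega) (ncut (by omega)) (ncut (by omega))
    (nrem (by omega)) (by omega)
  have f2 := h.hs (l + 1) (by omega) (by omega) j (j + 1 + 1) (by omega)
    (mkS (by omega) (by omega) (ncut (by omega))) a.2.1 (by omega)
  omega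

theorem Rig.gap (h : Rig p D X Y) {i k : ℕ} (hi : i < p.M) (h10 : i % 11 = 10) (h2 : 2 ≤ k)
    (h3 : k + 3 ≤ p.K)
    (hf : X (i, k, 0) = X (i, k + 1, 0) ∨ X (i + 1, k, 0) = X (i + 1, k + 1, 0)) :
    (Y (i + 1, k, 0) < Y (i, k, 0) ↔ ¬ Y (i + 1, k + 1, 0) < Y (i, k + 1, 0)) ∧
    (Y (i + 1, k, 0) < Y (i, k, 0) → X (i, k, 0) = X (i, k + 1, 0)) ∧
    (¬ Y (i + 1, k, 0) < Y (i, k, 0) → X (i + 1, k, 0) = X (i + 1, k + 1, 0)) := by
  have := p.hM
  have hD := h.pos
  have r : p.rem i k := rem_lad h10 h2 h3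
  have l1 := h.lad hi h10 h2 (by omega)
  have l2 := h.lad (k := k + 1) hi h10 (by omega) (by omega)
  obtain ⟨j, rfl⟩ : ∃ j, i = j + 1 := ⟨i - 1, by omega⟩
  have c1 := h.covS (i := j) (k := k) hi (by omega) (by omega) (by omega)
  have c2 := h.covS (i := j) (k := k + 1) hi (by omega) (by omega) (by omega)
  have c3 := h.covS (i := j + 1) (k := k) (by omega) (by omega) (by omega) (by omega)
  have c4 := h.covS (i := j + 1) (k := k + 1) (by omega) (by omega) (by omega) (by omega)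
  have s1 : p.Pv (j + 1, k, 0) := mkS (by omega) (by omega) (ncut (by omega))
  have s2 : p.Pv (j + 1, k + 1, 0) := mkS (by omega) (by omega) (ncut (by omega))
  have s3 : p.Pv (j + 1 + 1, k, 0) := mkS (by omega) (by omega) (ncut (by omega))
  have s4 : p.Pv (j + 1 + 1, k + 1, 0) := mkS (by omega) (by omega) (ncut (by omega))
  have a : Y (j + 1 + 1, k, 0) < Y (j + 1, k, 0) → X (j + 1, k, 0) ≤ X (j + 1, k + 1, 0) := by
    intro y
    obtain ⟨⟨n, g1, -, g3, g4⟩, -⟩ := c1 (X (j + 1, k, 0) + D - 1) (by omega) (by omega)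
    rw [h.aboveR r (fun _ => y) g1 g4 g3] at g3
    omega
  have b : ¬ Y (j + 1 + 1, k, 0) < Y (j + 1, k, 0) →
      X (j + 1 + 1, k + 1, 0) ≤ X (j + 1 + 1, k, 0) := by
    intro y
    obtain ⟨⟨n, g1, g2, -, g4⟩, -⟩ := c3 (X (j + 1 + 1, k, 0)) (by omega) (by omega)
    rwa [h.aboveL r (fun _ => by omega) g1 g4 g2] at g2
  have c : Y (j + 1 + 1, k + 1, 0) < Y (j + 1, k + 1, 0) →
      X (j + 1 + 1, k, 0) ≤ X (j + 1 + 1, k + 1, 0) := by
    intro y
    obtain ⟨-, n, g1, g2, -, g4⟩ := c4 (X (j + 1 + 1, k + 1, 0)) (by omega) (by omega)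
    rwa [h.belowL r (fun _ => y) g1 g4 g2] at g2
  have d : ¬ Y (j + 1 + 1, k + 1, 0) < Y (j + 1, k + 1, 0) →
      X (j + 1, k + 1, 0) ≤ X (j + 1, k, 0) := by
    intro y
    obtain ⟨-, n, g1, -, g3, g4⟩ := c2 (X (j + 1, k + 1, 0) + D - 1) (by omega) (by omega)
    rw [h.belowR r (fun _ => by omega) g1 g4 g3] at g3
    omega
  have e : Y (j + 1 + 1, k, 0) < Y (j + 1, k, 0) →
      Y (j + 1 + 1, k + 1, 0) < Y (j + 1, k + 1, 0) →
      X (j + 1, k, 0) + D ≤ X (j + 1 + 1, k + 1, 0) := by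
    intro y y'
    by_contra hc
    have := a y
    have y2 : Y (j + 1, k, 0) < Y (j + 1 + 1, k + 1, 0) := by
      by_contra hy
      have := h.mono' (T := X (j + 1, k, 0) + D - 1) s4 (by omega) (by omega) s1 (by omega)
        (by omega) (by omega)
      dsimp only at this
      omega
    obtain ⟨n, g1, -, g3, g4, g5⟩ := h.up' (T := X (j + 1, k, 0) + D - 1) s1 (by omega) (by omega)
      s4 (by omega) (by omega) y2
    rw [h.aboveR r (fun _ => y) g1 g4 g3] at g5
    omega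
  have f : ¬ Y (j + 1 + 1, k, 0) < Y (j + 1, k, 0) →
      ¬ Y (j + 1 + 1, k + 1, 0) < Y (j + 1, k + 1, 0) →
      X (j + 1, k + 1, 0) + D ≤ X (j + 1 + 1, k, 0) := by
    intro y y'
    by_contra hc
    have := b y
    have y2 : Y (j + 1 + 1, k, 0) < Y (j + 1, k + 1, 0) := by
      by_contra hy
      have := h.mono' (T := X (j + 1 + 1, k, 0)) s2 (by omega) (by omega) s3 (by omega)
        (by omega) (by omega)
      dsimp only at this
      omega
    obtain ⟨n, g1, g2, -, g4, g5⟩ := h.up' (T := X (j + 1 + 1, k, 0)) s3 (by omega) (by omega)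
      s2 (by omega) (by omega) y2
    rw [h.aboveL r (fun _ => by omega) g1 g4 g2] at g5
    omega
  omega

theorem Rig.forcedE (h : Rig p D X Y) {c k : ℕ} (hc : c < p.n) (h2 : 2 ≤ k) (h3 : k + 3 ≤ p.K)
    (e : p.Ef c k) : X (11 * c + 10 + 1, k, 0) = X (11 * c + 10 + 1, k + 1, 0) := by
  have := p.hM
  obtain ⟨l, rfl⟩ : ∃ l, k = l + 1 := ⟨k - 1, by omega⟩
  have r : p.rem (11 * c + 12 + 1) (l + 1) := ⟨h2, by omega, Or.inr (Or.inr ⟨h3, Or.inr (Or.inl
    ⟨by omega, by rwa [show (11 * c + 12 + 1) / 11 - 1 = c by omega]⟩)⟩)⟩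
  have f1 := h.joinL r (by omega) (by omega)
  have f2 := h.run (a := 11 * c + 10 + 1) (k := l) (by omega) (11 * c + 12 + 1) (by omega)
    (by omega) (fun i _ _ => ncut (by omega)) (fun i _ _ => ⟨nrem (by omega), by omega⟩)
  have f3 := h.run (a := 11 * c + 10 + 1) (k := l + 1) (by omega) (11 * c + 12 + 1) (by omega)
    (by omega) (fun i _ _ => ncut (by omega)) (fun i _ _ => ⟨nrem (by omega), by omega⟩)
  linarith

theorem Rig.forcedW (h : Rig p D X Y) {c k : ℕ} (hc : c < p.n) (h2 : 2 ≤ k) (h3 : k + 3 ≤ p.K)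
    (e : ¬ p.Ef c k) : X (11 * c + 10, k, 0) = X (11 * c + 10, k + 1, 0) := by
  have := p.hM
  obtain ⟨l, rfl⟩ : ∃ l, k = l + 1 := ⟨k - 1, by omega⟩
  have r : p.rem (11 * c + 7) (l + 1) := ⟨h2, by omega, Or.inr (Or.inr ⟨h3, Or.inr (Or.inr
    ⟨by omega, by rwa [show (11 * c + 7) / 11 = c by omega]⟩)⟩)⟩
  have f1 := h.joinR r (by omega) (by omega)
  have f2 := h.run (a := 11 * c + 7 + 1) (k := l) (by omega) (11 * c + 10) (by omega)
    (by omega) (fun i _ _ => ncut (by omega)) (fun i _ _ => ⟨nrem (by omega), by omega⟩)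
  have f3 := h.run (a := 11 * c + 7 + 1) (k := l + 1) (by omega) (11 * c + 10) (by omega)
    (by omega) (fun i _ _ => ncut (by omega)) (fun i _ _ => ⟨nrem (by omega), by omega⟩)
  linarith

theorem Rig.gap' (h : Rig p D X Y) {c k : ℕ} (hc : c < p.n) (h2 : 2 ≤ k) (h3 : k + 3 ≤ p.K) :
    (Y (11 * c + 10 + 1, k, 0) < Y (11 * c + 10, k, 0) ↔
      ¬ Y (11 * c + 10 + 1, k + 1, 0) < Y (11 * c + 10, k + 1, 0)) ∧
    (Y (11 * c + 10 + 1, k, 0) < Y (11 * c + 10, k, 0) →
      X (11 * c + 10, k, 0) = X (11 * c + 10, k + 1, 0)) ∧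
    (¬ Y (11 * c + 10 + 1, k, 0) < Y (11 * c + 10, k, 0) →
      X (11 * c + 10 + 1, k, 0) = X (11 * c + 10 + 1, k + 1, 0)) := by
  have := p.hM
  refine h.gap (by omega) (by omega) h2 h3 ?_
  by_cases e : p.Ef c k
  · exact Or.inr (h.forcedE hc h2 h3 e)
  · exact Or.inl (h.forcedW hc h2 h3 e)

theorem Rig.alt (h : Rig p D X Y) {c : ℕ} (hc : c < p.n) : ∀ k, 2 ≤ k → k + 2 ≤ p.K →
    (Y (11 * c + 10 + 1, k, 0) < Y (11 * c + 10, k, 0) ↔
      (Y (11 * c + 10 + 1, 2, 0) < Y (11 * c + 10, 2, 0) ↔ k % 2 = 0)) := by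
  intro k hk
  induction k, hk using Nat.le_induction with
  | base => simp
  | succ k hk ih =>
    intro h1
    have f1 := ih (by omega)
    have f2 := (h.gap' hc hk (by omega)).1
    omega

theorem Rig.cell (h : Rig p D X Y) {c t r : ℕ} (hc : c < p.n) (hr : r + 2 * c = 7 * t)
    (h2 : 2 ≤ r) (h3 : r + 4 ≤ p.K)
    (hb : p.L c t → ¬ (Y (11 * c + 10 + 1, 2, 0) < Y (11 * c + 10, 2, 0) ↔ t % 2 = 0)) :
    X (11 * c + 10 + 1, r, 0) < X (11 * c + 10, r + 1 + 1, 0) + D := by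
  have := p.hM
  have f1 := h.forcedE (k := r + 1) hc (by omega) (by omega) (Or.inr (Or.inr (Or.inl (by omega))))
  by_cases e : p.L c t
  · have g0 := hb e
    have g1 := h.alt hc (r + 1) (by omega) (by omega)
    have g2 := h.gap' (k := r) hc h2 (by omega)
    have g3 := h.gap' (k := r + 1) hc (by omega) (by omega)
    have g4 := h.lad (i := 11 * c + 10) (k := r + 1) (by omega) (by omega) (by omega) (by omega)
    omega
  · have f2 := h.forcedE (k := r) hc h2 (by omega) (Or.inr (Or.inr (Or.inr ⟨by omega,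
      by rwa [show (r + 2 * c + 4) / 7 = t by omega]⟩)))
    have g4 := h.lad (i := 11 * c + 10) (k := r + 1 + 1) (by omega) (by omega) (by omega)
      (by omega)
    omega

theorem Rig.spine (h : Rig p D X Y) {i k0 : ℕ} (hk : k0 + 1 = p.K) (hi : i = 2 ∨ i + 4 = p.M) :
    ∀ d k, k + d = k0 → 2 ≤ k → X (i + 1, k, 0) = X (i + 1, k0, 0) := by
  have := p.hM
  intro d
  induction d with
  | zero => intro k e _; rw [show k = k0 by omega]
  | succ d ih =>
    intro k e h2
    rw [← ih (k + 1) (by omega) (by omega)]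
    rcases hi with rfl | hi
    · exact h.joinR ⟨h2, by omega, Or.inl rfl⟩ (by omega) (by omega)
    · exact h.joinL ⟨h2, by omega, Or.inr (Or.inl (by omega))⟩ (by omega) (by omega)

theorem nrem_track {c t r i : ℕ} (hr : r + 2 * c = 7 * t + 1) (h1 : 11 * c ≤ i)
    (h2 : i < 11 * c + 10) (h3 : i ≠ 2) (h4 : i + 3 ≠ p.M) : ¬ p.rem i r := by
  rintro ⟨-, -, e | e | ⟨-, e | ⟨e1, e2⟩ | ⟨e1, e2⟩⟩⟩
  · omega
  · omega
  · omega
  · unfold Ef at e2
    omega
  · exact e2 (Or.inr (Or.inr (Or.inl (by omega))))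

theorem ncut_track {c t r i : ℕ} (hr : r + 2 * c = 7 * t + 2) (h1 : 11 * c ≤ i)
    (h2 : i ≤ 11 * c + 10) : ¬ p.cut i r := by
  unfold cut
  omega

theorem sound (h : RepG p.Pv p.Adj D X Y) (hn : 1 ≤ p.n) : ∃ s : ℕ → Prop, ∀ t, p.n ≤ t →
    7 * t + 4 ≤ p.K → ∃ c, c < p.n ∧ p.L c t ∧ (s c ↔ t % 2 = 0) := by
  have := p.hM
  have := p.hK
  obtain ⟨X, Y, h⟩ := exists_rig h
  refine ⟨fun c => Y (11 * c + 10 + 1, 2, 0) < Y (11 * c + 10, 2, 0), fun t t1 t2 => ?_⟩
  by_contra hc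
  push Not at hc
  obtain ⟨k0, hk⟩ : ∃ k0, k0 + 1 + 1 = p.K := ⟨p.K - 2, by omega⟩
  have key : ∀ c, c ≤ p.n → ∀ r, r + 2 * c = 7 * t + 1 →
      X (11 * c + 5, r + 1, 0) - (11 * c + 5 : ℕ) * D + c ≤ X (3, k0 + 1, 0) - (3 : ℕ) * D := by
    intro c
    induction c with
    | zero =>
      intro _ r hr
      have f1 := h.run (a := 3) (k := r) (by omega) (11 * 0 + 5) (by omega) (by omega)
        (fun i _ _ => ncut_track (c := 0) (t := t) (by omega) (by omega) (by omega))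
        (fun i _ _ => ⟨nrem (by omega), by omega⟩)
      have f2 := h.spine (i := 2) hk (Or.inl rfl) (k0 - r) (r + 1) (by omega) (by omega)
      norm_num at f1 f2 ⊢
      linarith
    | succ c ih =>
      intro hc' r hr
      have f0 := ih (by omega) (r + 1 + 1) (by omega)
      have f1 := h.run (a := 11 * c + 5) (k := r + 1 + 1) (by omega) (11 * c + 10) (by omega)
        (by omega) (fun i _ _ => ncut_track (c := c) (t := t) (by omega) (by omega) (by omega))
        (fun i _ _ => ⟨nrem_track (c := c) (t := t) (by omega) (by omega) (by omega) (by omega)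
          (by omega), by omega⟩)
      have f2 := h.cell (c := c) (t := t) (r := r + 1) (by omega) (by omega) (by omega) (by omega)
        (fun e => by have := hc c (by omega) e; omega)
      have f3 := h.run (a := 11 * c + 10 + 1) (k := r) (by omega) (11 * (c + 1) + 5) (by omega)
        (by omega)
        (fun i _ _ => ncut_track (c := c + 1) (t := t) (by omega) (by omega) (by omega))
        (fun i _ _ => ⟨nrem_track (c := c + 1) (t := t) (by omega) (by omega) (by omega)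
          (by omega) (by omega), by omega⟩)
      push_cast at f0 f1 f3 ⊢
      linarith
  obtain ⟨r, hr⟩ : ∃ r, r + 2 * p.n = 7 * t + 1 := ⟨7 * t + 1 - 2 * p.n, by omega⟩
  have f0 := key p.n le_rfl r hr
  have f1 := h.run (a := 11 * p.n + 5) (k := r) (by omega) (11 * p.n + 6 + 1) (by omega)
    (by omega) (fun i _ _ => ncut_track (c := p.n) (t := t) (by omega) (by omega) (by omega))
    (fun i _ _ => ⟨nrem (by omega), by omega⟩)
  have f2 := h.spine (i := 11 * p.n + 6) hk (Or.inr (by omega)) (k0 - r) (r + 1) (by omega)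
    (by omega)
  have f3 := h.run (a := 3) (k := k0) (by omega) (11 * p.n + 6 + 1) (by omega) (by omega)
    (fun i _ _ => ncut (by omega)) (fun i _ _ => ⟨by unfold rem; omega, by omega⟩)
  have : (1 : ℤ) ≤ p.n := by exact_mod_cast hn
  linarith

end Pat

end Pool.Agent.H689Z.UBV
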